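import Pool.Agent.MP_3ee8cb_gt.DR.Spec

/-! The supremum over finite centres is attained when it exceeds the one at infinity. -/

namespace Pool.Agent.MP_3ee8cb_gt.DR

open Set Filter Topology Real DQ
open scoped RealInnerProductSpace

open DN (Dim dm)

variable [Dim]

open DN DZ
open PX (be)

namespace ATT

theorem sh_smul (d : ℝ) (e : V) (hd : 0 ≤ d) (he : ‖e‖ = 1) : PX.Sh (d • e) = sinh d • e := by
  have hn : ‖d • e‖ = d := by rw [norm_smul, he, mul_one, Real.norm_of_nonneg hd]
  unfold PX.Sh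
  rw [hn, smul_smul]
  rcases eq_or_ne d 0 with h | h
  · simp [h]
  · rw [div_mul_cancel₀ _ h]

theorem polar (ξ w : V) (hw : ‖w‖ = 1) : ∃ e : V, ‖e‖ = 1 ∧ ξ = ‖ξ‖ • e := by
  rcases eq_or_ne ξ 0 with h | h
  · exact ⟨w, hw, by simp [h]⟩
  · have hn : ‖ξ‖ ≠ 0 := norm_ne_zero_iff.2 h
    refine ⟨‖ξ‖⁻¹ • ξ, ?_, ?_⟩
    · rw [norm_smul, norm_inv, norm_norm, inv_mul_cancel₀ hn]
    · rw [smul_smul, mul_inv_cancel₀ hn, one_smul]

theorem norm_sh (ξ : V) : ‖PX.Sh ξ‖ = sinh ‖ξ‖ := by
  have h0 : 0 ≤ sinh ‖ξ‖ := Real.sinh_nonneg_iff.2 (norm_nonneg ξ)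
  unfold PX.Sh
  rcases eq_or_ne ξ 0 with h | h
  · simp [h]
  · have hn : ‖ξ‖ ≠ 0 := norm_ne_zero_iff.2 h
    rw [norm_smul, norm_div, norm_norm, Real.norm_of_nonneg h0, div_mul_cancel₀ _ hn]

theorem cont_sh : Continuous (PX.Sh : V → V) := by
  rw [continuous_iff_continuousAt]
  intro ξ
  rcases eq_or_ne ξ 0 with h | h
  · subst h
    have h0 : PX.Sh (0 : V) = 0 := by simp [PX.Sh]
    rw [ContinuousAt, h0, tendsto_zero_iff_norm_tendsto_zero]
    have hc : Continuous fun ξ : V => sinh ‖ξ‖ := by fun_prop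
    have := hc.tendsto 0
    simp only [norm_zero, Real.sinh_zero] at this
    exact this.congr fun ξ => (norm_sh ξ).symm
  · have hn : ‖ξ‖ ≠ 0 := norm_ne_zero_iff.2 h
    have h1 : ContinuousAt (fun ξ : V => sinh ‖ξ‖ / ‖ξ‖) ξ :=
      ContinuousAt.div (by fun_prop) (by fun_prop) hn
    exact h1.smul continuousAt_id

omit [Dim] in
theorem exp_ars (d c : ℝ) (hd : 0 ≤ d) (hc : 0 ≤ c) :
    exp (arsinh (sinh d * c)) ≤ exp d * c + 1 := by
  have hs : 0 ≤ sinh d * c := mul_nonneg (Real.sinh_nonneg_iff.2 hd) hc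
  have h2 : 2 * sinh d ≤ exp d := by
    rw [Real.sinh_eq]
    have := exp_pos (-d)
    linarith
  have h3 : √(1 + (sinh d * c) ^ 2) ≤ 1 + sinh d * c := by
    rw [Real.sqrt_le_left (by linarith)]
    nlinarith
  rw [Real.exp_arsinh]
  nlinarith [mul_le_mul_of_nonneg_right h2 hc]

end ATT

open ATT

theorem sATT : SATT := by
  intro m lg dX P _ A hF hG hH hD hN x z w hw
  rcases le_or_gt (uf A lg x z w) (uq A x z w) with hle | hlt
  · exact Or.inl (max_eq_left hle)
  right
  have hur : ur A lg x z w = uf A lg x z w := max_eq_right hlt.le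
  rw [hur]
  have had := hF.yw.had
  have key : ∀ y, exp (be lg z w y - Dm A x y) ≤
      exp (uq A x z w) + exp (Dm A x z - ‖lg (z, y)‖) := by
    intro y
    obtain ⟨e, he, hξ⟩ := polar (lg (z, y)) w hw
    have hd : 0 ≤ ‖lg (z, y)‖ := norm_nonneg _
    have htri := hD.tri x z y
    obtain ⟨p, hp, hν⟩ := hG.onto x z e he
    have hy : (m.Z ‖lg (z, y)‖ (z, e)).1 = y := by
      have h1 := had.ex z y
      rw [hξ, hF.yw.jac.scale, mul_one] at h1
      exact h1
    have hfar := hD.far p z ‖lg (z, y)‖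
    rw [hp, hν, hy] at hfar
    have hbe : be lg z w y = arsinh (sinh ‖lg (z, y)‖ * ⟪w, e⟫) := by
      have h1 : PX.Sh (lg (z, y)) = sinh ‖lg (z, y)‖ • e := by
        have := sh_smul _ e hd he
        rwa [← hξ] at this
      unfold be
      rw [h1, real_inner_smul_right]
    generalize ‖lg (z, y)‖ = d at hd htri hfar hbe
    have hE : exp (-Dm A x y) ≤ exp (Dm A x z - d) := exp_le_exp.2 (by linarith)
    have hq := exp_pos (uq A x z w)
    rw [hbe, sub_eq_add_neg, exp_add]
    have hpos := exp_pos (-Dm A x y)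
    rcases le_total ⟪w, e⟫ 0 with hc | hc
    · have h1 : arsinh (sinh d * ⟪w, e⟫) ≤ 0 := Real.arsinh_nonpos_iff.2
        (mul_nonpos_of_nonneg_of_nonpos (Real.sinh_nonneg_iff.2 hd) hc)
      have h2 : exp (arsinh (sinh d * ⟪w, e⟫)) ≤ 1 := Real.exp_le_one_iff.2 h1
      nlinarith
    · obtain ⟨p₀, -, hp0, hu, hmax⟩ := hH.max x z w hw
      have h1 := hmax p hp
      have h2 : exp (uq A x z w) = gq (A.β p₀) (A.ν p₀) (z, w) := by rw [hu, exp_log hp0]
      have h3 : gq (A.β p) (A.ν p) (z, w) = exp (A.β p z) * ⟪w, e⟫ := by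
        unfold gq
        simp only [hν]
        rw [real_inner_comm]
      have h4 : exp d * exp (-Dm A x y) ≤ exp (A.β p z) := by
        rw [← exp_add]
        exact exp_le_exp.2 (by linarith)
      have h5 := mul_le_mul_of_nonneg_right (exp_ars d _ hd hc) hpos.le
      have h6 := mul_le_mul_of_nonneg_right h4 hc
      nlinarith
  have hlg : Continuous fun y : V => lg (z, y) := had.c1.continuous.comp (by fun_prop)
  have hf : Continuous fun y : V => be lg z w y - Dm A x y := by
    refine Continuous.sub ?_ (hD.cont x)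
    unfold be
    exact Real.continuous_arsinh.comp (continuous_const.inner (cont_sh.comp hlg))
  have hγ : 0 < (exp (uf A lg x z w) - exp (uq A x z w)) / 2 := by
    have := exp_lt_exp.2 hlt
    linarith
  set γ := (exp (uf A lg x z w) - exp (uq A x z w)) / 2 with hγd
  have hZ : Continuous fun b : V => (m.Z 1 (z, b)).1 :=
    continuous_fst.comp (hF.yw.ok.cZ.continuous.comp
      (by fun_prop : Continuous fun b : V => ((1 : ℝ), z, b)))
  have hK := (isCompact_closedBall (0 : V) |Dm A x z - log γ|).image hZ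
  obtain ⟨y₀, -, hy₀⟩ := hK.exists_isMaxOn
    ((Metric.nonempty_closedBall.2 (abs_nonneg _)).image _) hf.continuousOn
  refine ⟨y₀, le_antisymm ?_ (hN.low x z w y₀ hw)⟩
  have hm : 0 < exp (uq A x z w) + γ := add_pos (exp_pos _) hγ
  have hM : log (exp (uq A x z w) + γ) < uf A lg x z w := by
    rw [Real.log_lt_iff_lt_exp hm]
    linarith
  have hall : uf A lg x z w ≤
      max (be lg z w y₀ - Dm A x y₀) (log (exp (uq A x z w) + γ)) := by
    refine ciSup_le fun y => ?_
    rcases le_total ‖lg (z, y)‖ |Dm A x z - log γ| with h | h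
    · exact le_max_of_le_left (hy₀ ⟨lg (z, y), mem_closedBall_zero_iff.2 h, had.ex z y⟩)
    · refine le_max_of_le_right ?_
      rw [Real.le_log_iff_exp_le hm]
      have h1 : exp (Dm A x z - ‖lg (z, y)‖) ≤ γ := by
        rw [← Real.le_log_iff_exp_le hγ]
        have := le_abs_self (Dm A x z - log γ)
        linarith
      have := key y
      linarith
  rcases le_max_iff.1 hall with h | h
  · exact h
  · exact absurd h (not_le.2 hM)

end Pool.Agent.MP_3ee8cb_gt.DR
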