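import Pool.Agent.MP_3ee8cb_gt.DR.Spec
import Pool.Agent.MP_3ee8cb_gt.PX.B1
import Pool.Agent.MP_3ee8cb_gt.DRK.CB

/-! The bound on the stretch at a maximiser. -/

namespace Pool.Agent.MP_3ee8cb_gt.DR

open Set Real DN DZ DQ
open scoped RealInnerProductSpace

variable [Dim]

namespace CBx

theorem nsh (ξ w : V) (hw : ‖w‖ = 1) :
    ‖PX.Sh ξ‖ = sinh ‖ξ‖ ∧ √(1 + ‖PX.Sh ξ‖ ^ 2) = cosh ‖ξ‖ := by
  obtain ⟨u, hu, -, e⟩ := PX.b1_pol ξ w hw
  have h : ‖PX.Sh ξ‖ = sinh ‖ξ‖ := by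
    rw [e, norm_smul, hu, mul_one, Real.norm_of_nonneg (sinh_nonneg_iff.2 (norm_nonneg _))]
  exact ⟨h, by rw [h, add_comm, ← cosh_sq, sqrt_sq (cosh_pos _).le]⟩

end CBx

open CBx

theorem sCB : SCB := by
  intro a a₀ w X B g S C hw hg hX hB hS hC H
  rw [real_inner_comm a w, real_inner_comm a₀ w] at H
  exact (DRK.CBx.core hw hg hS hX hB.le H).trans (mul_le_mul_of_nonneg_right hC hB.le)

theorem sCF : SCF := by
  intro _ m lg dX P _ A _ _ _ dd nr hy g S C x z w y hg hC ⟨y₀, h0, hS⟩ hw e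
  have h1 := (dd.mem x y₀ _).1 h0
  have h2 := (nr.low x z w y₀ hw).trans ((le_max_right _ _).trans e.le)
  have h3 := dd.tri x y y₀
  obtain ⟨-, a2⟩ := nsh (lg (z, y)) w hw
  obtain ⟨b1, b2⟩ := nsh (lg (z, y₀)) w hw
  have k := DRK.cbF (a := PX.Sh (lg (z, y))) hw hg (b1.trans_le hS) (by
    rw [a2, b2, real_inner_comm w, real_inner_comm w]
    refine (hy z y y₀).trans (cosh_le_cosh.2 ((abs_norm _).trans_le (le_trans ?_ (le_abs_self _))))
    unfold PX.be at h2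
    linarith)
  rw [a2, real_inner_comm w] at k
  exact k.trans (mul_le_mul_of_nonneg_right hC (sqrt_nonneg _))

theorem sCI : SCI := by
  intro _ m lg dX P _ A bf _ _ dd nr g S C p z w hg hC ⟨y₀, h0, hS⟩ hw e
  have g0 : 0 < g := by linarith
  have h1 := h0 p rfl
  have h2 : exp (PX.be lg z w y₀ - log g / 2) ≤ exp (A.β p z) * ⟪A.ν p z, w⟫ :=
    (exp_le_exp.2 (by
      linarith [(dd.mem _ y₀ _).1 h0, (nr.low (A.pr p) z w y₀ hw).trans
        (le_max_right (uq A (A.pr p) z w) _), show ur A lg (A.pr p) z w = max _ _ from rfl])).trans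
      e.le
  have ht : 0 ≤ ⟪A.ν p z, w⟫ :=
    (pos_of_mul_pos_right ((exp_pos _).trans_le h2) (exp_pos _).le).le
  obtain ⟨b1, b2⟩ := nsh (lg (z, y₀)) w hw
  obtain ⟨u, hu, e1, e2⟩ := PX.b1_pol (lg (z, y₀)) w hw
  have h3 := (bf.isb p).lb z u ‖lg (z, y₀)‖ hu
  have h4 := bf.yw.had.ex z y₀
  rw [e1, bf.yw.jac.scale, mul_one] at h4
  rw [h4, mul_comm ⟪_, u⟫, ← real_inner_smul_right, ← e2, ← b2] at h3
  have hν := (bf.isb p).unit z
  have h5 : ⟪A.ν p z, PX.Sh (lg (z, y₀))⟫ ≤ √(1 + ‖PX.Sh (lg (z, y₀))‖ ^ 2) :=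
    (real_inner_le_norm _ _).trans (by
      rw [hν, one_mul]; exact le_sqrt_of_sq_le (by linarith))
  have h6 : exp (log g / 2) * exp (log g / 2) = g := by rw [← exp_add, add_halves, exp_log g0]
  refine (DRK.cbI hw hν hg (b1.trans_le hS) ht ?_).trans (mul_le_mul_of_nonneg_right hC ht)
  rw [exp_sub, div_le_iff₀ (exp_pos _), PX.be, real_inner_comm (PX.Sh _) w] at h2
  have h7 := mul_le_mul_of_nonneg_right (h3.trans (exp_le_exp.2 h1))
    (mul_nonneg ht (exp_pos (log g / 2)).le)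
  have h8 := mul_le_mul_of_nonneg_left h2 (sub_nonneg.2 h5)
  rw [← h6]
  linarith

end Pool.Agent.MP_3ee8cb_gt.DR
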