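import Pool.Agent.MP_3ee8cb_gt.DR.Spec

/-! The largest function over a point. -/

namespace Pool.Agent.MP_3ee8cb_gt.DR

open DN (Dim dm)

variable [Dim]

open Set Real DN DZ

namespace DDx

variable {m : MF} {lg : V × V → V} {dX : V → V → ℝ} {P : Type} [TopologicalSpace P] {A : Fam P}

theorem pol (a : V) : ∃ u : V, ‖u‖ = 1 ∧ a = ‖a‖ • u := by
  by_cases h : a = 0
  · exact ⟨EuclideanSpace.single ⟨0, by simp [dm]⟩ 1, by simp, by simp [h]⟩
  · have h' : ‖a‖ ≠ 0 := norm_ne_zero_iff.2 h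
    exact ⟨‖a‖⁻¹ • a, by rw [norm_smul, norm_inv, norm_norm, inv_mul_cancel₀ h'],
      by rw [smul_smul, mul_inv_cancel₀ h', one_smul]⟩

theorem con (hb : BF m lg dX A) (y : V) : Continuous fun p => A.β p y :=
  hb.cont.comp (continuous_id.prodMk continuous_const)

theorem le (hb : BF m lg dX A) {x : V} {p : P} (hp : A.pr p = x) (y : V) :
    A.β p y ≤ Dm A x y :=
  le_csSup ((hb.cpt x).bddAbove_image (con hb y).continuousOn) ⟨p, hp, rfl⟩

theorem mx (hb : BF m lg dX A) (hg : BG lg A) (x y : V) :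
    ∃ p, A.pr p = x ∧ Dm A x y = A.β p y := by
  obtain ⟨u, hu, -⟩ := pol (0 : V)
  obtain ⟨p, hp, -⟩ := hg.onto x y u hu
  exact (hb.cpt x).exists_sSup_image_eq ⟨p, hp⟩ (con hb y).continuousOn

theorem half (hb : BF m lg dX A) (hg : BG lg A) (x x' y : V) :
    Dm A x y - Dm A x' y ≤ dX x x' ∧ Dm A x y - Dm A x' y ≤ dX x' x := by
  obtain ⟨p, rfl, e⟩ := mx hb hg x y
  obtain ⟨p', k, rfl, hk⟩ := hb.mov p x'
  have h1 := le hb (rfl : A.pr p' = _) y
  have h2 := abs_le.1 (hb.lip p p' k hk)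
  have h3 := abs_le.1 (hb.lip p' p (-k) fun z => by rw [hk]; ring)
  rw [hk] at h1
  constructor <;> linarith [h2.1, h3.2]

end DDx

open DDx in
theorem sDD : SDD := by
  intro m lg dX P _ A hb hg _
  refine ⟨fun p y => le hb rfl y, mx hb hg, fun x y R => ⟨fun h => ?_, fun h p hp =>
    (le hb hp y).trans h⟩, fun x x' y => abs_sub_le_iff.2 ⟨(half hb hg x x' y).1,
      (half hb hg x' x y).2⟩, fun x y y' => ?_, fun x => ?_, fun x y y' => ?_, fun p z d => ?_⟩
  · obtain ⟨p, hp, e⟩ := mx hb hg x y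
    exact e ▸ h p hp
  · obtain ⟨p, hp, e⟩ := mx hb hg x y
    linarith [(hb.isb p).lip y y', le hb hp y']
  · exact (hb.cpt x).continuous_sSup (f := fun y p => A.β p y) (hb.cont.comp continuous_swap)
  · obtain ⟨u, hu, e⟩ := pol (lg (y, y'))
    obtain ⟨p, hp, hν⟩ := hg.onto x y u hu
    have h1 := (hb.isb p).ray y ‖lg (y, y')‖
    have h2 := hb.yw.had.ex y y'
    rw [e, hb.yw.jac.scale, mul_one] at h2
    rw [hν, h2] at h1
    linarith [le hb hp y, le hb ((hb.flp p).1.trans hp) y', hg.opp p y']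
  · linarith [(hb.isb p).ray z d, le hb (hb.flp p).1 (m.Z d (z, A.ν p z)).1,
      hg.opp p (m.Z d (z, A.ν p z)).1]

end Pool.Agent.MP_3ee8cb_gt.DR
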