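import Pool.Agent.MP_3ee8cb_gt.DR.Spec
import Pool.Agent.MP_3ee8cb_gt.DQ.REND1
import Pool.Agent.MP_3ee8cb_gt.DRK.D0

/-! If almost every direction is touched, the feet of the fibre are one point. -/

namespace Pool.Agent.MP_3ee8cb_gt.DR

open Set Filter Topology MeasureTheory Real
open scoped RealInnerProductSpace
open DN (Dim dm)

variable [Dim]

open DN DZ DZE DQ
open PX (be)

namespace E1y

theorem two_le {a c w : V} (ha : ‖a‖ = 1) (hc : ‖c‖ = 1) (hw : ‖w‖ = 1) :
    2 * (⟪a, w⟫ * ⟪c, -w⟫) ≤ 1 - ⟪a, c⟫ := by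
  have h1 : ⟪a - c, w⟫ ^ 2 ≤ ‖a - c‖ ^ 2 := by
    have := abs_real_inner_le_norm (a - c) w
    rw [hw, mul_one] at this
    rw [← sq_abs]
    exact pow_le_pow_left₀ (abs_nonneg _) this 2
  rw [norm_sub_sq_real, ha, hc, inner_sub_left] at h1
  rw [inner_neg_right]
  nlinarith [sq_nonneg (⟪a, w⟫ + ⟪c, w⟫)]

theorem be_neg (lg : V × V → V) (z w y : V) : be lg z (-w) y = -be lg z w y := by
  rw [be, be, inner_neg_left, arsinh_neg]

end E1y

open E1y DZ.E1

theorem sEND1 : SEND1 := by
  intro m lg dX P _ A bf bg bh _ nr ms cu x z ae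
  have y := bf.yw
  have cs : IsClosed {w : V | ‖w‖ = 1} := isClosed_eq continuous_norm continuous_const
  have cU : ContinuousOn (fun w => exp (ur A lg x z w)) {w : V | ‖w‖ = 1} :=
    ((cu x).comp (f := fun w : V => (z, w)) (by fun_prop) fun w hw => hw).rexp
  obtain ⟨e, he⟩ := DRK.ex_unit
  have al : ∀ w, ‖w‖ = 1 → Qr (ur A lg x z) w := fun w hw => by
    have c3 : IsClosed (⋂ v ∈ {v : V | ‖v‖ = 1}, {w ∈ {w : V | ‖w‖ = 1} |
        exp (ur A lg x z w) * ⟪w, v⟫ ≤ exp (ur A lg x z v)}) :=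
      isClosed_biInter fun v _ => cs.isClosed_le (cU.mul (by fun_prop)) continuousOn_const
    have h := ms.den _ c3 (by
      filter_upwards [ae, ms.mem] with a h1 h2
      have n0 : ‖a‖ ≠ 0 := by linarith [h2.1]
      refine mem_iInter₂.2 fun v hv => ⟨?_, h1 v hv⟩
      show ‖un a‖ = 1
      rw [un, norm_smul, norm_inv, norm_norm, inv_mul_cancel₀ n0]) w hw
    exact fun v hv => (mem_iInter₂.1 h v hv).2
  have co : ∀ w v, ‖w‖ = 1 → ‖v‖ = 1 → ur A lg x z w = ur A lg x z v := fun w v hw hv =>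
    exp_injective (const cU (fun w hw => ⟨_, DQ.E1x.flat (fun _ => ur A lg x z w) (fun _ => w) z hw,
      by simp [gq, hw], fun v hv => al w hw v hv⟩) hw hv)
  have fu : ∀ w, ‖w‖ = 1 → uf A lg x z (-w) ≤ -ur A lg x z w := fun w hw =>
    ciSup_le fun q => by
      have := max_le (nr.upq x z w q hw) (nr.upf x z w q hw)
      rw [be_neg, ur]
      linarith
  have he' : ‖-e‖ = 1 := by rw [norm_neg, he]
  have k0 : ur A lg x z e ≤ 0 := by
    have s := co e (-e) he he'
    have a1 := fu e he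
    have a2 := fu (-e) he'
    rw [neg_neg] at a2
    rcases max_choice (uq A x z e) (uf A lg x z e) with b1 | b1
    · rcases max_choice (uq A x z (-e)) (uf A lg x z (-e)) with b2 | b2
      · obtain ⟨p, p1, p2, p3, -⟩ := bh.max x z e he
        obtain ⟨q, q1, q2, q3, -⟩ := bh.max x z (-e) he'
        have g := bh.gr2 p q z (p1.trans q1.symm)
        have t := two_le ((bf.isb p).unit z) ((bf.isb q).unit z) he
        have l : log (gq (A.β p) (A.ν p) (z, e) * gq (A.β q) (A.ν q) (z, -e)) ≤ 0 := by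
          refine log_nonpos (mul_pos p2 q2).le ?_
          have := mul_le_mul_of_nonneg_left t
            (mul_pos (exp_pos (A.β p z)) (exp_pos (A.β q z))).le
          simp only [gq]
          linarith
        rw [log_mul p2.ne' q2.ne', ← p3, ← q3] at l
        change ur A lg x z e = _ at b1
        change ur A lg x z (-e) = _ at b2
        linarith
      · change ur A lg x z (-e) = _ at b2
        linarith
    · change ur A lg x z e = _ at b1
      linarith
  have le0 : ∀ p, A.pr p = x → A.β p z ≤ 0 := fun p hp => by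
    have u := (bf.isb p).unit z
    have a := DRK.gq_le bh hp z u
    rw [gq, real_inner_self_eq_norm_sq, u, one_pow, mul_one, exp_le_exp] at a
    have b : uq A x z (A.ν p z) ≤ ur A lg x z (A.ν p z) := le_max_left _ _
    linarith [co _ _ u he]
  intro p hp
  obtain ⟨f1, f2, f3⟩ := bf.flp p
  have z1 := le0 p hp
  have z2 := le0 _ (f1.trans hp)
  have z3 := bg.opp p z
  refine foot y (bf.isb p) (bf.isb (A.fl p)) f3 (by rw [bf.foot]; linarith) ?_
  rw [← f2, bf.foot]
  linarith

end Pool.Agent.MP_3ee8cb_gt.DR
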