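import Pool.Agent.MP_3ee8cb_gt.DR.Spec
import Pool.Agent.MP_3ee8cb_gt.LV.All

/-! The zero of the averaged field is equivariant. -/

namespace Pool.Agent.MP_3ee8cb_gt.DR

open DN (Dim dm)

variable [Dim]

open Set Filter Topology MeasureTheory Real DN DZ DQ
open CR (Met UT Riem Deck RP dd ng tm FdP MinP bus)
open LV (QP CJ Fund vol)
open scoped RealInnerProductSpace

theorem sEQV : SEQV := by
  intro g h C C' Γ Λ _ _ _ _ Φ Ψ ρ F qg qh _ _ _ _ cj m lg ν O R R₀ S f ms nb ac hR zr γ x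
  have mn := (LV.hm dm h Λ Ψ qh 1 one_pos
    (LV.all_hinge dm h Λ Ψ 1 qh.rp one_pos nb.cv)).1
  have ev := LV.eqv dm h Λ Ψ qh mn
  have bi : ∀ (p q : UT g), q.1 = tm γ p.1 → ∀ y,
      bus h Ψ (F q) (ρ γ • y) = bus h Ψ (F p) y := fun p q e y => by
    unfold bus
    refine iInf_congr fun t => ?_
    rw [ev (ρ γ) _ _ (cj.equi γ p q e) t]
    exact congrArg (· - t) (qh.rp.inv (ρ γ) y (Ψ t (F p)).1.1)
  have up : ∀ p : UT g, p.1.1 = x → ∃ q : UT g, q.1.1 = γ • x ∧ q.1 = tm γ p.1 := fun p hp =>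
    ⟨⟨tm γ p.1, (qg.rp.deck.iso _ _ _ _).trans p.2⟩, congrArg (γ • ·) hp, rfl⟩
  have dn : ∀ q : UT g, q.1.1 = γ • x → ∃ p : UT g, p.1.1 = x ∧ q.1 = tm γ p.1 := fun q hq => by
    refine ⟨⟨tm γ⁻¹ q.1, (qg.rp.deck.iso _ _ _ _).trans q.2⟩, ?_, ?_⟩
    · change γ⁻¹ • q.1.1 = x
      rw [hq, inv_smul_smul]
    · change q.1 = tm γ (tm γ⁻¹ q.1)
      rw [← CR.lift_tm_mul qg.rp.deck, mul_inv_cancel, CR.lift_tm_one]
  have ne : ∀ (p q : UT g), q.1 = tm γ p.1 → ∀ z,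
      ν (F q) (ρ γ • z) = O (ρ γ) z (ν (F p) z) := fun p q e z => by
    refine (nb.b1 (F q)).eq _ _ ?_ ?_
    · rw [(O (ρ γ) z).norm_map]
      exact (nb.isb (F p)).unit z
    · rw [ac.flow (ρ γ) 1 (z, ν (F p) z), bi p q e, bi p q e]
      exact ((nb.isb (F p)).ray z 1).le
  have ge : ∀ (p q : UT g), q.1 = tm γ p.1 → ∀ z w,
      gq (bus h Ψ (F q)) (ν (F q)) (ρ γ • z, O (ρ γ) z w) =
        gq (bus h Ψ (F p)) (ν (F p)) (z, w) :=
    fun p q e z w => by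
      unfold gq
      dsimp only
      rw [bi p q e, ne p q e, (O (ρ γ) z).inner_map_map]
  have ue : ∀ z w, uq (fam Ψ F ν) (γ • x) (ρ γ • z) (O (ρ γ) z w) = uq (fam Ψ F ν) x z w :=
    fun z w => by
      unfold uq
      congr 2
      ext r
      constructor
      · rintro ⟨q, hq, rfl⟩
        obtain ⟨p, hp, e⟩ := dn q hq
        exact ⟨p, hp, (ge p q e z w).symm⟩
      · rintro ⟨p, hp, rfl⟩
        obtain ⟨q, hq, e⟩ := up p hp
        exact ⟨q, hq, ge p q e z w⟩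
  have l : ∀ z y, lg (ρ γ • z, ρ γ • y) = O (ρ γ) z (lg (z, y)) := fun z y => by
    have h1 := ac.flow (ρ γ) 1 (z, lg (z, y))
    have h2 := nb.yw.had.xe (ρ γ • z) (O (ρ γ) z (lg (z, y)))
    rw [h1, nb.yw.had.ex] at h2
    exact h2
  have b : ∀ z w y, PX.be lg (ρ γ • z) (O (ρ γ) z w) (ρ γ • y) = PX.be lg z w y :=
    fun z w y => by
      rw [PX.be, PX.be, l, PX.Sh, PX.Sh, (O (ρ γ) z).norm_map, ← map_smul,
        (O (ρ γ) z).inner_map_map]
  have de : ∀ y, Dm (fam Ψ F ν) (γ • x) (ρ γ • y) = Dm (fam Ψ F ν) x y := fun y => by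
    unfold Dm
    refine congrArg sSup (Set.ext fun r => ⟨?_, ?_⟩)
    · rintro ⟨q, hq, rfl⟩
      obtain ⟨p, hp, e⟩ := dn q hq
      exact ⟨p, hp, (bi p q e y).symm⟩
    · rintro ⟨p, hp, rfl⟩
      obtain ⟨q, hq, e⟩ := up p hp
      exact ⟨q, hq, bi p q e y⟩
  have fe : ∀ z w, uf (fam Ψ F ν) lg (γ • x) (ρ γ • z) (O (ρ γ) z w) =
      uf (fam Ψ F ν) lg x z w := fun z w => by
    unfold uf
    rw [← (MulAction.toPerm (ρ γ) : Equiv.Perm V).iSup_comp]
    exact iSup_congr fun y => by rw [MulAction.toPerm_apply, b, de]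
  have re : ∀ z w, ur (fam Ψ F ν) lg (γ • x) (ρ γ • z) (O (ρ γ) z w) =
      ur (fam Ψ F ν) lg x z w := fun z w => by
    rw [ur, ur, ue, fe]
  refine (zr.uniq (γ • x) (ρ γ • f x) ?_ ?_).symm
  · obtain ⟨y, hy, hs⟩ := zr.mem x
    refine ⟨ρ γ • y, fun q hq => ?_, ?_⟩
    · obtain ⟨p, hp, e⟩ := dn q hq
      exact (bi p q e y).trans_le ((hy p hp).trans hR)
    · rw [l, (O (ρ γ) (f x)).norm_map]
      exact hs
  · have k := zr.zero x
    unfold VV at k ⊢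
    set o := O (ρ γ) (f x) with ho
    rw [← (ms.rot o).integral_comp o.toHomeomorph.measurableEmbedding]
    have e : ∀ w : V, ur (fam Ψ F ν) lg (γ • x) (ρ γ • f x) (un (o w)) • un (o w) =
        o (ur (fam Ψ F ν) lg x (f x) (un w) • un w) := fun w => by
      have : un (o w) = o (un w) := by
        unfold un
        rw [o.norm_map, map_smul]
      rw [this, map_smul, ho, re]
    simp only [e]
    rw [show (fun w : V => o (ur (fam Ψ F ν) lg x (f x) (un w) • un w)) = fun w : V =>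
      o.toLinearIsometry (ur (fam Ψ F ν) lg x (f x) (un w) • un w) from rfl,
      o.toLinearIsometry.integral_comp_comm, k, map_zero]

end Pool.Agent.MP_3ee8cb_gt.DR
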