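import Pool.Agent.MP_3ee8cb_gt.DR.Spec
import Pool.Agent.MP_3ee8cb_gt.DRK.Hess

/-! The sharp Hessian comparison and the derivative of the vector to a finite centre. -/

namespace Pool.Agent.MP_3ee8cb_gt.DR

open DN (Dim dm)

variable [Dim]

open DN DZ Real
open DZH (DL)
open scoped RealInnerProductSpace

theorem sHE : SHE := fun m lg b h hb hu hd => by
  have e0 : ∀ z, lg (z, z) = 0 := fun z => by
    have := h.had.xe z 0
    rwa [PX.HEx.z0 h.ok h.jac] at this
  refine ⟨fun z y e e' => ?_, fun z y => ?_, fun z e => ?_, fun z y e ne he => ?_⟩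
  · rw [PX.HEx.he_eq h.had, PX.HEx.he_eq h.had, PXH.sym h.ok h.jac h.had]
  · rw [PX.HEx.he_eq h.had, PXH.H_rad h.ok h.jac h.had]
  · rw [PX.HEx.he_eq h.had, PXH.H_zero h.ok h.jac hu hd (one_le_pow₀ hb) h.had (e0 z)]
  · have h0 := DQ.HDx.ne h ne
    have hs := sinh_pos_iff.2 (norm_pos_iff.2 h0)
    obtain ⟨c1, c2⟩ := DRK.cmp h hb hu hd h0 he
    rw [PX.HEx.he_eq h.had, DRK.he_dl h, PX.dl, inner_neg_left]
    constructor
    · rw [div_mul_eq_mul_div, div_le_iff₀ hs]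
      linarith
    · rw [add_mul, div_mul_eq_mul_div, ← sub_le_iff_le_add, le_div_iff₀ hs]
      linarith

theorem sHF : SHF := by
  intro m lg k h hk H z y
  have eH : ∀ e, PX.He m lg z y e = -DL m lg y z e := fun e => by simp [PX.He, DL]
  have eF : ∀ u, fderiv ℝ (fun z => lg (z, y)) z u =
      DL m lg y z (m.S z u) - m.om z u (lg (z, y)) := fun u => by simp [DL, h.ok.RS]
  by_cases h0 : lg (z, y) = 0
  · have d0 : HasFDerivAt PX.Sh (1 : V →L[ℝ] V) (lg (z, y)) := h0 ▸ DRK.sh0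
    have d1 := d0.comp z (DLH.dlg h y z)
    refine ⟨0, by simp, by simp, by simp [h0], _, d1, fun u => ?_⟩
    have e : z = y := by_contra fun e => DQ.HDx.ne h e h0
    subst e
    have := H.zero z (m.S z u)
    rw [eH, neg_eq_iff_eq_neg] at this
    simp [eF, h0, PX.Sh, this]
  have p := norm_pos_iff.2 h0
  obtain ⟨D, hD, eD⟩ := DRK.dsh (DLH.dlg h y z) h0
  have r := DQ.HDx.rad h y z
  have sy := DLH.sym h y z
  have j : ∀ e, ⟪e, lg (z, y)⟫ = 0 →
      ‖lg (z, y)‖ * cosh ‖lg (z, y)‖ * ‖e‖ ^ 2 ≤ sinh ‖lg (z, y)‖ * -⟪DL m lg y z e, e⟫ ∧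
      sinh ‖lg (z, y)‖ * -⟪DL m lg y z e, e⟫ ≤
        ‖lg (z, y)‖ * (cosh ‖lg (z, y)‖ + k * sinh ‖lg (z, y)‖) * ‖e‖ ^ 2 := fun e he => by
    have hs := sinh_pos_iff.2 p
    have ne : z ≠ y := fun e => h0 (by
      have := h.had.xe z 0
      rwa [PX.HEx.z0 h.ok h.jac, ← e] at *)
    obtain ⟨c1, c2⟩ := H.cmp z y e ne he
    rw [eH, PX.dl, inner_neg_left] at c1 c2
    rw [div_mul_eq_mul_div, div_le_iff₀ hs] at c1
    rw [add_mul, div_mul_eq_mul_div, ← sub_le_iff_le_add, le_div_iff₀ hs] at c2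
    constructor <;> linarith
  have sk : ∀ u, ⟪lg (z, y), m.om z u (lg (z, y))⟫ = 0 := fun u => by
    have := h.ok.skew z u (lg (z, y)) (lg (z, y))
    rw [real_inner_comm] at this
    linarith
  generalize DL m lg y z = A at *
  obtain ⟨n, hn⟩ : ∃ n, n = un (lg (z, y)) := ⟨_, rfl⟩
  obtain ⟨T, hT⟩ : ∃ T, T = ‖lg (z, y)‖ := ⟨_, rfl⟩
  have eL : lg (z, y) = T • n := by
    rw [hn, hT, un, smul_smul, mul_inv_cancel₀ p.ne', one_smul]
  have n1 : ⟪n, n⟫ = 1 := by
    rw [real_inner_self_eq_norm_sq, hn, un, norm_smul, norm_inv, norm_norm, inv_mul_cancel₀ p.ne',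
      one_pow]
  have eS : PX.Sh (lg (z, y)) = (sinh T / T) • lg (z, y) := by rw [PX.Sh, hT]
  rw [← hn, ← hT] at eD
  rw [eS]
  rw [← hT] at p j ⊢
  have rn : A n = -n := by
    rw [eL, map_smul, ← smul_neg] at r
    exact smul_right_injective V p.ne' r
  have an : ∀ a, ⟪A a, n⟫ = -⟪n, a⟫ := fun a => by
    rw [sy, rn, inner_neg_right, real_inner_comm]
  obtain ⟨E, hE⟩ : ∃ E : V →L[ℝ] V, ∀ a, E a =
      -((sinh T / T) • (A a + ⟪n, a⟫ • n)) - cosh T • (a - ⟪n, a⟫ • n) :=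
    ⟨-((sinh T / T) • (A + (innerSL ℝ n).smulRight n)) -
      cosh T • (1 - (innerSL ℝ n).smulRight n), fun a => by simp⟩
  refine ⟨E, fun a c => ?_, ?_, fun a => ?_, D, hD, fun u => ?_⟩
  · simp only [hE, inner_sub_left, inner_sub_right, inner_neg_left, inner_neg_right,
      real_inner_smul_left, real_inner_smul_right, inner_add_left, inner_add_right, sy,
      real_inner_comm n a]
    ring
  · rw [eL, map_smul, hE, rn, n1]
    simp
  · have a1 : ⟪a - ⟪n, a⟫ • n, n⟫ = 0 := by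
      rw [inner_sub_left, real_inner_smul_left, n1, real_inner_comm]
      ring
    obtain ⟨b1, b2⟩ := j (a - ⟪n, a⟫ • n) (by rw [eL, real_inner_smul_right, a1, mul_zero])
    have a2 : ‖a - ⟪n, a⟫ • n‖ ^ 2 = ‖a‖ ^ 2 - ⟪n, a⟫ ^ 2 := by
      rw [← real_inner_self_eq_norm_sq, ← real_inner_self_eq_norm_sq, inner_sub_right,
        real_inner_smul_right, a1, inner_sub_left, real_inner_smul_left]
      ring
    have a3 : ⟪A (a - ⟪n, a⟫ • n), a - ⟪n, a⟫ • n⟫ = ⟪A a, a⟫ + ⟪n, a⟫ ^ 2 := by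
      rw [inner_sub_right, real_inner_smul_right, an, real_inner_comm (a - ⟪n, a⟫ • n) n, a1,
        map_sub, map_smul, rn, inner_sub_left, real_inner_smul_left, inner_neg_left]
      ring
    have a4 : T * ⟪E a, a⟫ =
        sinh T * -(⟪A a, a⟫ + ⟪n, a⟫ ^ 2) - T * cosh T * (‖a‖ ^ 2 - ⟪n, a⟫ ^ 2) := by
      simp only [hE, inner_sub_left, inner_neg_left, real_inner_smul_left, inner_add_left,
        real_inner_self_eq_norm_sq]
      field_simp
    rw [a2, a3] at b1 b2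
    refine ⟨le_of_mul_le_mul_left (by rw [a4]; linarith) p, le_of_mul_le_mul_left ?_ p⟩
    rw [a4]
    nlinarith [mul_nonneg (mul_nonneg (mul_nonneg hk p.le)
      (sinh_pos_iff.2 p).le) (sq_nonneg ⟪n, a⟫)]
  · have s1 : ⟪n, m.om z u n⟫ = 0 := by
      have := sk u
      rw [eL, map_smul, real_inner_smul_left, real_inner_smul_right] at this
      simpa [p.ne'] using this
    rw [eD, eF, hE, eL, map_smul, map_smul, map_smul, inner_sub_right, real_inner_smul_right,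
      s1, real_inner_comm (A _), an]
    module

end Pool.Agent.MP_3ee8cb_gt.DR
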