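import Pool.Agent.MP_3ee8cb_gt.DR.Spec
import Pool.Agent.MP_3ee8cb_gt.PX.B1

/-! The hinge inequality on the hyperboloid. -/

namespace Pool.Agent.MP_3ee8cb_gt.DR

open DN DZ

variable [Dim]

open Set
open scoped RealInnerProductSpace

namespace RHY

theorem hy (m : MF) (lg : V × V → V) (h : YW m lg) (hin : Hin m lg 1) : Hy lg := by
  intro z y y'
  have hw : ‖(EuclideanSpace.single (0 : Fin dm) (1 : ℝ) : V)‖ = 1 := by simp
  obtain ⟨u, hu, e1, s1⟩ := PX.b1_pol (lg (z, y)) _ hw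
  obtain ⟨v, hv, e2, s2⟩ := PX.b1_pol (lg (z, y')) _ hw
  have hz : ∀ (p a : V), lg (z, p) = ‖lg (z, p)‖ • a → (m.Z ‖lg (z, p)‖ (z, a)).1 = p := by
    intro p a e
    have h1 := h.had.ex z p
    rw [e, h.jac.scale, mul_one] at h1
    exact h1
  have hi := hin z u v _ _ hu hv (norm_nonneg (lg (z, y))) (norm_nonneg (lg (z, y')))
  rw [hz y u e1, hz y' v e2] at hi
  simp only [one_mul] at hi
  have hp : ⟪PX.Sh (lg (z, y)), PX.Sh (lg (z, y'))⟫ =
      ⟪u, v⟫ * Real.sinh ‖lg (z, y)‖ * Real.sinh ‖lg (z, y')‖ := by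
    rw [s1, s2, real_inner_smul_left, real_inner_smul_right]
    ring
  rw [hp]
  exact hi

theorem sq (ξ w : V) (hw : ‖w‖ = 1) : √(1 + ‖PX.Sh ξ‖ ^ 2) = Real.cosh ‖ξ‖ := by
  obtain ⟨a, ha, -, e⟩ := PX.b1_pol ξ w hw
  rw [e, norm_smul, ha, mul_one, Real.norm_eq_abs, sq_abs, add_comm, ← Real.cosh_sq,
    Real.sqrt_sq (Real.cosh_pos _).le]

theorem b1 (lg : V × V → V) (h : Hy lg) : PX.B1 lg := by
  intro z w y y' hw
  have hi := h z y y'
  have hk := PX.b1_key (PX.Sh (lg (z, y))) (PX.Sh (lg (z, y'))) w hw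
  rw [sq _ w hw, sq _ w hw] at hk
  have hb : Real.cosh (PX.be lg z w y - PX.be lg z w y') ≤ Real.cosh (PX.dl lg y y') := by
    rw [Real.cosh_sub, PX.be, PX.be, Real.cosh_arsinh, Real.cosh_arsinh, Real.sinh_arsinh,
      Real.sinh_arsinh, PX.dl]
    linarith
  rw [Real.cosh_le_cosh, abs_of_nonneg (show 0 ≤ PX.dl lg y y' from norm_nonneg _)] at hb
  exact (le_abs_self _).trans hb

end RHY

theorem sHY : SHY := fun m lg h hin => ⟨RHY.hy m lg h hin, RHY.b1 lg (RHY.hy m lg h hin)⟩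

end Pool.Agent.MP_3ee8cb_gt.DR
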