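import Pool.Agent.MP_3ee8cb_gt.DR.Spec
import Pool.Agent.MP_3ee8cb_gt.DZ.RZERO

/-! The averaged field points inwards outside a bounded set. -/

namespace Pool.Agent.MP_3ee8cb_gt.DR

open Set Filter Topology MeasureTheory Real DQ
open scoped RealInnerProductSpace
open DN (Dim dm)

variable [Dim]

open DN DZ

theorem sINW : SINW := by
  intro m lg dX P _ A _ _ _ dd nr ms cu r S hS h4 hy x
  have rt := ms.rot'
  obtain ⟨y, hy⟩ := hy x
  have dy := (dd.mem x y r).1 hy
  refine ⟨y, 2 * r + S, fun z ⟨y', h1, h2⟩ => ?_, fun z hz => ?_⟩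
  · have a1 := (dd.mem x y' r).1 h1
    have a2 := dd.tri x y z
    have a3 := dd.ly x z y'
    have a4 := self_le_sinh_iff.2 (norm_nonneg (lg (z, y')))
    linarith
  have t1 : S < sinh ‖lg (z, y)‖ := not_le.1 fun h => hz ⟨y, hy, h⟩
  have ne : lg (z, y) ≠ 0 := fun h => by
    rw [h, norm_zero, sinh_zero] at t1
    linarith
  have b0 : ∀ w, PX.be lg z w y = arsinh (sinh ‖lg (z, y)‖ * ⟪w, un (lg (z, y))⟫) := fun w => by
    rw [PX.be, PX.Sh, un, real_inner_smul_right, real_inner_smul_right, div_eq_mul_inv, mul_assoc]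
  refine ⟨un (lg (z, y)), ?_, ?_⟩
  · have he : ‖un (lg (z, y))‖ = 1 := DZZ.nrm ne
    generalize un (lg (z, y)) = e at he b0
    obtain ⟨a1, a2⟩ := DZZ.av_inner rt (cu x) z e (.refl ℝ V)
    simp only [LinearIsometryEquiv.coe_refl, id_eq] at a1 a2
    have c := integral_mono_ae (rt.int (f := fun w =>
      arsinh (sinh ‖lg (z, y)‖ * ⟪w, e⟫) * ⟪w, e⟫ - r * |⟪w, e⟫|) (by
        have := continuous_arsinh
        fun_prop)) a1 (rt.ne.mono fun w hw => by
      have hw := DZZ.nrm hw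
      have b1 := nr.low x z _ y hw
      have b2 := nr.upf x z _ y hw
      have b3 := nr.upq x z _ y hw
      have b4 : |ur A lg x z (‖w‖⁻¹ • w) - PX.be lg z (‖w‖⁻¹ • w) y| ≤ r := abs_le.2
        ⟨by linarith [le_max_right (uq A x z (‖w‖⁻¹ • w)) (uf A lg x z (‖w‖⁻¹ • w)),
          show ur A lg x z (‖w‖⁻¹ • w) = max _ _ from rfl],
        sub_le_iff_le_add'.2 (max_le (by linarith) (by linarith))⟩
      have b5 := mul_le_mul_of_nonneg_right b4 (abs_nonneg ⟪‖w‖⁻¹ • w, e⟫)
      rw [← abs_mul, b0] at b5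
      have b6 := neg_le_of_abs_le b5
      simp only
      linarith)
    exact (h4 e _ he t1.le).trans_le (c.trans_eq a2.symm)
  · rw [un, real_inner_smul_right]
    exact mul_nonneg (inv_nonneg.2 (norm_nonneg _)) real_inner_self_nonneg

end Pool.Agent.MP_3ee8cb_gt.DR
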