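import Pool.Agent.MP_3ee8cb_gt.DR.Spec
import Pool.Agent.MP_3ee8cb_gt.DZ.RZERO

/-! The averaged field points inwards outside a set whose size does not depend on the dimension. -/

namespace Pool.Agent.MP_3ee8cb_gt.DR

open Set Filter Topology MeasureTheory Real DQ
open scoped RealInnerProductSpace
open DN (Dim dm)

variable [Dim]

open DN DZ
open PX (be)

namespace I2x

/-- The exponential of `U` is sublinear on unit vectors. -/
def Sub (U : V → ℝ) : Prop := ∀ (a b c : V) (θ κ : ℝ), ‖a‖ = 1 → ‖b‖ = 1 → ‖c‖ = 1 → 0 ≤ θ →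
  0 ≤ κ → a = θ • b + κ • c → exp (U a) ≤ θ * exp (U b) + κ * exp (U c)

omit [Dim] in
theorem big {T s : ℝ} (hs : 0 ≤ s) (h : T ^ 4 ≤ s ^ 2 * (1 + 2 * T ^ 2)) :
    √(1 + T ^ 2) ≤ exp (2 * arsinh s) := by
  have e : exp (2 * arsinh s) = (s + √(1 + s ^ 2)) ^ 2 := by
    rw [two_mul, exp_add, exp_arsinh, ← sq]
  have b1 : 1 ≤ √(1 + s ^ 2) := one_le_sqrt.2 (by nlinarith)
  have b2 := sq_sqrt (show 0 ≤ 1 + s ^ 2 by positivity)
  have k : T ^ 2 ≤ 4 * s + 8 * s ^ 2 := by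
    by_contra hc
    push Not at hc
    obtain ⟨y, hy⟩ : ∃ y, y = T ^ 2 := ⟨_, rfl⟩
    have h4 : T ^ 4 = y ^ 2 := by rw [hy]; ring
    rw [h4, ← hy] at h
    rw [← hy] at hc
    have y0 : 0 < y := by nlinarith
    have a1 : 4 * s * (4 * s) ≤ y * y := mul_self_le_mul_self (by linarith) (by nlinarith)
    have a2 : 8 * s ^ 2 * y ≤ y * y := mul_le_mul_of_nonneg_right (by linarith) y0.le
    nlinarith [mul_pos y0 y0]
  rw [e]
  refine (sqrt_le_iff.2 ⟨by positivity, ?_⟩ : _ ≤ 1 + 2 * s + 2 * s ^ 2).trans (by nlinarith)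
  nlinarith [pow_nonneg hs 3, pow_nonneg hs 4]

theorem pt {U : V → ℝ} {e w : V} {T r : ℝ} (sub : Sub U) (he : ‖e‖ = 1) (hT : 0 < T)
    (nr : ∀ w, ‖w‖ = 1 → |U w - arsinh (T * ⟪w, e⟫)| ≤ r) (hX : exp (2 * r) < √(1 + T ^ 2))
    (hw : ‖w‖ = 1) (hb : ‖w - (2 * ⟪w, e⟫) • e‖ = 1) (h0 : 0 < ⟪w, e⟫) :
    U (w - (2 * ⟪w, e⟫) • e) < U w := by
  have ee : ⟪e, e⟫ = 1 := by rw [real_inner_self_eq_norm_sq, he, one_pow]
  obtain ⟨σ, hσ⟩ : ∃ σ, σ = ⟪w, e⟫ := ⟨_, rfl⟩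
  obtain ⟨v, hv⟩ : ∃ v, v = w - σ • e := ⟨_, rfl⟩
  have ve : ⟪v, e⟫ = 0 := by rw [hv, inner_sub_left, real_inner_smul_left, ee, ← hσ]; ring
  obtain ⟨ρ, hρ⟩ : ∃ ρ, ρ = ‖v‖ := ⟨_, rfl⟩
  have ρ0 : 0 ≤ ρ := hρ ▸ norm_nonneg v
  have ρ2 : ρ ^ 2 = 1 - σ ^ 2 := by
    rw [hρ, hv, norm_sub_sq_real, real_inner_smul_right, norm_smul, hw, he, ← hσ, mul_one,
      Real.norm_eq_abs, sq_abs]
    ring
  obtain ⟨X, hX'⟩ : ∃ X, X = √(1 + T ^ 2) := ⟨_, rfl⟩
  have X2 : X ^ 2 = 1 + T ^ 2 := hX' ▸ sq_sqrt (by positivity)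
  have X0 : 0 < X := hX' ▸ sqrt_pos.2 (by positivity)
  have n1 := abs_le.1 (nr w hw)
  have n2 := abs_le.1 (nr _ hb)
  have be : ⟪w - (2 * ⟪w, e⟫) • e, e⟫ = -σ := by
    rw [inner_sub_left, real_inner_smul_left, ee, ← hσ]
    ring
  rw [be, mul_neg, arsinh_neg] at n2
  rw [← hσ] at h0 n1 n2 hb ⊢
  have s0 : 0 ≤ T * σ := by positivity
  rcases le_or_gt (T * ρ) (X * σ) with c | c
  · have c2 : (T * ρ) ^ 2 ≤ (X * σ) ^ 2 := pow_le_pow_left₀ (by positivity) c 2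
    rw [mul_pow, mul_pow, X2, ρ2] at c2
    have := exp_lt_exp.1 (hX.trans_le (big s0 (T := T) (by nlinarith [sq_nonneg T])))
    linarith
  rw [← hX'] at hX
  have ρp : 0 < ρ := by
    refine ρ0.lt_of_ne fun h => ?_
    rw [← h, mul_zero] at c
    nlinarith [mul_pos X0 h0]
  obtain ⟨N, hN⟩ : ∃ N, N = √(1 + 2 * T ^ 2) := ⟨_, rfl⟩
  have N2 : N ^ 2 = 1 + 2 * T ^ 2 := hN ▸ sq_sqrt (by positivity)
  have N0 : 0 < N := hN ▸ sqrt_pos.2 (by positivity)
  have d0 : 0 < T * ρ + X * σ := by positivity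
  have u3 : ‖(X / (N * ρ)) • v - (T / N) • e‖ = 1 := by
    rw [← sq_eq_sq₀ (norm_nonneg _) zero_le_one, norm_sub_sq_real, real_inner_smul_left,
      real_inner_smul_right, ve, norm_smul, norm_smul, he, ← hρ, mul_pow, mul_pow,
      Real.norm_eq_abs, Real.norm_eq_abs, sq_abs, sq_abs]
    field_simp
    linear_combination ρ * X2 - ρ * N2
  have i3 : ⟪(X / (N * ρ)) • v - (T / N) • e, e⟫ = -(T / N) := by
    rw [inner_sub_left, real_inner_smul_left, real_inner_smul_left, ve, ee]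
    ring
  have n3 := (abs_le.1 (nr _ u3)).2
  have x3 : exp (arsinh (T * -(T / N))) = 1 / N := by
    have : √(1 + (T * -(T / N)) ^ 2) = X ^ 2 / N := by
      rw [sqrt_eq_iff_mul_self_eq (by positivity) (by positivity), X2]
      field_simp
      rw [N2]
      ring
    rw [exp_arsinh, this, X2]
    field_simp
    ring
  have e3 : exp (U ((X / (N * ρ)) • v - (T / N) • e)) ≤ 1 / N * exp r := by
    rw [← x3, ← exp_add, ← i3]
    exact exp_le_exp.2 (by linarith)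
  have k := sub (w - (2 * σ) • e) w _ ((T * ρ - X * σ) / (T * ρ + X * σ))
    (2 * ρ * σ * N / (T * ρ + X * σ)) hb hw u3 (div_nonneg (by linarith) d0.le) (by positivity) (by
      have : w = v + σ • e := by rw [hv]; abel
      rw [this]
      match_scalars <;> field_simp <;> ring)
  have a0 : 0 ≤ arsinh (T * σ) := arsinh_nonneg_iff.2 s0
  have e1 : exp r < X * exp (U w) := by
    have a1 : exp (-r) ≤ exp (U w) := exp_le_exp.2 (by linarith)
    have a2 : exp (2 * r) * exp (-r) = exp r := by rw [← exp_add]; ring_nf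
    have a3 := mul_lt_mul_of_pos_right hX (exp_pos (-r))
    have a4 := mul_le_mul_of_nonneg_left a1 X0.le
    linarith
  have ρ1 : ρ ≤ 1 := (sq_le_one_iff₀ ρ0).1 (by linarith [sq_nonneg σ])
  refine exp_lt_exp.1 (k.trans_lt ?_)
  have e4 := mul_le_mul_of_nonneg_left e3
    (show 0 ≤ 2 * ρ * σ * N / (T * ρ + X * σ) by positivity)
  have e5 : 2 * ρ * σ * N / (T * ρ + X * σ) * (1 / N * exp r) =
      2 * σ / (T * ρ + X * σ) * (ρ * exp r) := by field_simp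
  have e6 : exp (U w) = (T * ρ - X * σ) / (T * ρ + X * σ) * exp (U w) +
      2 * σ / (T * ρ + X * σ) * (X * exp (U w)) := by field_simp; ring
  have e7 : ρ * exp r < X * exp (U w) := (mul_le_of_le_one_left (exp_pos r).le ρ1).trans_lt e1
  have e8 := mul_lt_mul_of_pos_left e7 (show 0 < 2 * σ / (T * ρ + X * σ) by positivity)
  linarith

omit [Dim] in
theorem tri {θ κ s t : ℝ} (h1 : 0 ≤ θ) (h2 : 0 ≤ κ) (h : 1 ≤ θ + κ) :
    √(1 + (θ * s + κ * t) ^ 2) ≤ θ * √(1 + s ^ 2) + κ * √(1 + t ^ 2) := by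
  have a := sq_sqrt (show 0 ≤ 1 + s ^ 2 by positivity)
  have b := sq_sqrt (show 0 ≤ 1 + t ^ 2 by positivity)
  have c : 1 + s * t ≤ √(1 + s ^ 2) * √(1 + t ^ 2) := by
    rw [← sqrt_mul (by positivity)]
    exact le_sqrt_of_sq_le (by nlinarith [sq_nonneg (s - t)])
  refine sqrt_le_iff.2 ⟨by positivity, ?_⟩
  have d := mul_le_mul_of_nonneg_left c (mul_nonneg h1 h2)
  have f : (θ * √(1 + s ^ 2) + κ * √(1 + t ^ 2)) ^ 2 = θ ^ 2 * √(1 + s ^ 2) ^ 2 +
      κ ^ 2 * √(1 + t ^ 2) ^ 2 + 2 * (θ * κ * (√(1 + s ^ 2) * √(1 + t ^ 2))) := by ring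
  rw [f, a, b]
  nlinarith

theorem sub_ur {lg : V × V → V} {P : Type} [TopologicalSpace P] {A : Fam P} (bh : BH A)
    (nr : NR lg A) (x z : V) : Sub (ur A lg x z) := by
  intro a b c θ κ ha hb hc h1 h2 e
  have s1 : 1 ≤ θ + κ := by
    have := norm_add_le (θ • b) (κ • c)
    rwa [← e, ha, norm_smul, norm_smul, hb, hc, mul_one, mul_one, Real.norm_of_nonneg h1,
      Real.norm_of_nonneg h2] at this
  have p0 : 0 < θ * exp (ur A lg x z b) + κ * exp (ur A lg x z c) := by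
    rcases h1.eq_or_lt with h | h
    · have : 0 < κ := by linarith
      positivity
    · positivity
  rw [← le_log_iff_exp_le p0]
  refine max_le ?_ (ciSup_le fun y => ?_)
  · obtain ⟨p, p1, p2, p3, -⟩ := bh.max x z a ha
    have g : ∀ w, ‖w‖ = 1 → gq (A.β p) (A.ν p) (z, w) ≤ exp (ur A lg x z w) := fun w hw => by
      obtain ⟨q, -, q2, q3, q4⟩ := bh.max x z w hw
      refine (q4 p p1).trans ?_
      rw [← exp_log q2, ← q3]
      exact exp_le_exp.2 (le_max_left _ _)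
    rw [p3]
    refine log_le_log p2 ?_
    have g1 := mul_le_mul_of_nonneg_left (g b hb) h1
    have g2 := mul_le_mul_of_nonneg_left (g c hc) h2
    simp only [gq] at g1 g2 ⊢
    rw [e, inner_add_right, real_inner_smul_right, real_inner_smul_right]
    linarith
  · have g : ∀ w, ‖w‖ = 1 → exp (be lg z w y) * exp (-Dm A x y) ≤ exp (ur A lg x z w) :=
      fun w hw => by
        rw [← exp_add]
        exact exp_le_exp.2 ((nr.low x z w y hw).trans (le_max_right _ _))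
    have g1 := mul_le_mul_of_nonneg_left (g b hb) h1
    have g2 := mul_le_mul_of_nonneg_left (g c hc) h2
    rw [le_log_iff_exp_le p0, sub_eq_add_neg, exp_add]
    simp only [be, exp_arsinh] at g1 g2 ⊢
    rw [e, inner_add_left, real_inner_smul_left, real_inner_smul_left]
    have t := mul_le_mul_of_nonneg_right (tri (s := ⟪b, PX.Sh (lg (z, y))⟫)
      (t := ⟪c, PX.Sh (lg (z, y))⟫) h1 h2 s1) (exp_pos (-Dm A x y)).le
    linarith

end I2x

def SINW2 : Prop := OnR fun _ lg _ _ _ A => MS → Cu (ur A lg) → ∀ r S : ℝ, 0 ≤ S →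
  exp (2 * r) ≤ √(1 + S ^ 2) → (∀ x, ∃ y, y ∈ A.C r x) → Inw lg (ur A lg) (Rg A lg r S)

open I2x

theorem sINW2 : SINW2 := by
  intro m lg dX P _ A _ _ bh dd nr ms cu r S hS h4 hy x
  have rt := ms.rot'
  obtain ⟨y, hy⟩ := hy x
  have dy := (dd.mem x y r).1 hy
  refine ⟨y, 2 * r + S, fun z ⟨y', h1, h2⟩ => ?_, fun z hz => ?_⟩
  · have a1 := (dd.mem x y' r).1 h1
    have a2 := dd.tri x y z
    have a3 := dd.ly x z y'
    have a4 := self_le_sinh_iff.2 (norm_nonneg (lg (z, y')))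
    linarith
  have t1 : S < sinh ‖lg (z, y)‖ := not_le.1 fun h => hz ⟨y, hy, h⟩
  have ne : lg (z, y) ≠ 0 := fun h => by
    rw [h, norm_zero, sinh_zero] at t1
    linarith
  have b0 : ∀ w, be lg z w y = arsinh (sinh ‖lg (z, y)‖ * ⟪w, un (lg (z, y))⟫) := fun w => by
    rw [be, PX.Sh, un, real_inner_smul_right, real_inner_smul_right, div_eq_mul_inv, mul_assoc]
  refine ⟨un (lg (z, y)), ?_, ?_⟩
  swap
  · rw [un, real_inner_smul_right]
    exact mul_nonneg (inv_nonneg.2 (norm_nonneg _)) real_inner_self_nonneg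
  have he : ‖un (lg (z, y))‖ = 1 := DZZ.nrm ne
  generalize un (lg (z, y)) = e at he b0
  have ee : ⟪e, e⟫ = 1 := by rw [real_inner_self_eq_norm_sq, he, one_pow]
  obtain ⟨O, hO⟩ : ∃ O : V ≃ₗᵢ[ℝ] V, ∀ w, O w = w - (2 * ⟪w, e⟫) • e :=
    ⟨(ℝ ∙ e)ᗮ.reflection, fun w => by
      rw [Submodule.reflection_orthogonal_apply, Submodule.reflection_singleton_apply, he,
        real_inner_comm]
      simp only [RCLike.ofReal_real_eq_id, id_eq, one_pow, div_one]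
      module⟩
  have n : ∀ w, ‖w‖ = 1 → |ur A lg x z w - arsinh (sinh ‖lg (z, y)‖ * ⟪w, e⟫)| ≤ r := fun w hw => by
    have b1 := nr.low x z _ y hw
    have b2 := nr.upf x z _ y hw
    have b3 := nr.upq x z _ y hw
    rw [← b0]
    have b4 : uf A lg x z w ≤ ur A lg x z w := le_max_right _ _
    exact abs_le.2 ⟨by linarith, sub_le_iff_le_add'.2 (max_le (by linarith) (by linarith))⟩
  have hX : exp (2 * r) < √(1 + sinh ‖lg (z, y)‖ ^ 2) :=
    h4.trans_lt (sqrt_lt_sqrt (by positivity) (by nlinarith))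
  have p1 : ∀ w, ‖w‖ = 1 → 0 < ⟪w, e⟫ → ur A lg x z (O w) < ur A lg x z w := fun w hw h => by
    rw [hO]
    exact pt (sub_ur bh nr x z) he (hS.trans_lt t1) n hX hw (by rw [← hO, O.norm_map, hw]) h
  have oe : ∀ w, ⟪O w, e⟫ = -⟪w, e⟫ := fun w => by
    rw [hO, inner_sub_left, real_inner_smul_left, ee]
    ring
  have oo : ∀ w, O (O w) = w := fun w => by
    rw [hO (O w), oe, hO]
    module
  have p2 : ∀ w, ‖w‖ = 1 → ⟪w, e⟫ ≠ 0 →
      0 < ur A lg x z w * ⟪w, e⟫ - ur A lg x z (O w) * ⟪w, e⟫ := fun w hw h => by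
    rcases lt_or_gt_of_ne h with k | k
    · have := p1 (O w) (by rw [O.norm_map, hw]) (by rw [oe]; linarith)
      rw [oo] at this
      nlinarith
    · have := p1 w hw k
      nlinarith
  obtain ⟨a1, a2⟩ := DZZ.av_inner rt (cu x) z e (.refl ℝ V)
  obtain ⟨a3, a4⟩ := DZZ.av_inner rt (cu x) z e O
  simp only [LinearIsometryEquiv.coe_refl, id_eq] at a1 a2
  have Oe : O e = -e := by
    rw [hO, ee]
    module
  rw [Oe, inner_neg_right] at a4
  have nn : 0 ≤ᵐ[mS] fun w => ur A lg x z (‖w‖⁻¹ • w) * ⟪‖w‖⁻¹ • w, e⟫ -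
      ur A lg x z (O (‖w‖⁻¹ • w)) * ⟪‖w‖⁻¹ • w, e⟫ := rt.ne.mono fun w hw => by
    by_cases h : ⟪‖w‖⁻¹ • w, e⟫ = 0
    · simp [h]
    · exact (p2 _ (DZZ.nrm hw) h).le
  have i0 := integral_nonneg_of_ae nn
  have i1 : ∫ w, (ur A lg x z (‖w‖⁻¹ • w) * ⟪‖w‖⁻¹ • w, e⟫ -
      ur A lg x z (O (‖w‖⁻¹ • w)) * ⟪‖w‖⁻¹ • w, e⟫) ∂mS ≠ 0 := fun h => by
    have z0 := (integral_eq_zero_iff_of_nonneg_ae nn (a1.sub a3)).1 h
    have z1 : (fun w => ⟪un w, e⟫ * ⟪un w, e⟫) =ᵐ[mS] fun _ => (0 : ℝ) := by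
      filter_upwards [z0, rt.ne] with w h1 h2
      by_contra h3
      exact (p2 _ (DZZ.nrm h2) fun h4 => h3 (by rw [un, h4, mul_zero])).ne' h1
    have z2 := ms.iso e e
    rw [integral_congr_ae z1, integral_zero, ee] at z2
    exact zero_ne_one z2
  have i2 := i0.lt_of_ne' i1
  rw [integral_sub a1 a3, ← a2, ← a4] at i2
  change 0 < ⟪DZZ.av mS (fun q => ur A lg x q.1 q.2) z, e⟫
  linarith

end Pool.Agent.MP_3ee8cb_gt.DR
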