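import Pool.Agent.MP_3ee8cb_gt.DR.Spec
import Pool.Agent.MP_3ee8cb_gt.DQK.Alg

/-! The algebraic half of the Jacobian estimate. -/

namespace Pool.Agent.MP_3ee8cb_gt.DR

variable [DN.Dim]

theorem sJB : SJB := fun ε L Q hM hε h => DQK.jb ε L Q hM hε h

end Pool.Agent.MP_3ee8cb_gt.DR
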