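import Pool.Agent.MP_3ee8cb_gt.DR.Spec
import Pool.Agent.MP_3ee8cb_gt.DRK.M4

/-! The fourth moment of the measure on directions. -/

namespace Pool.Agent.MP_3ee8cb_gt.DR

open DN (Dim dm)

variable [Dim]

theorem sM4 : SM4 := fun hM _ he => by
  have := hM.fin
  exact DRK.m4 DZ.mS hM.rot (hM.mem.mono fun _ hw => DZJ.sh_ne hw) hM.iso he

end Pool.Agent.MP_3ee8cb_gt.DR
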