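import Pool.Agent.MP_3ee8cb_gt.DR.Spec
import Pool.Agent.MP_3ee8cb_gt.PX.B1

/-! The support function is near every signed distance function. -/

namespace Pool.Agent.MP_3ee8cb_gt.DR

open Set Filter Topology MeasureTheory Real DQ
open scoped RealInnerProductSpace
open DN (Dim dm)

variable [Dim]

open DN DZ
open PX (be)

namespace RNR

theorem key (ν a w : V) (hν : ‖ν‖ = 1) (hw : ‖w‖ = 1) :
    ⟪ν, w⟫ ≤ (√(1 + ‖a‖ ^ 2) - ⟪ν, a⟫) * (⟪w, a⟫ + √(1 + ⟪w, a⟫ ^ 2)) := by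
  have hww : ⟪w, w⟫ = 1 := by rw [real_inner_self_eq_norm_sq, hw]; norm_num
  have hin : ∀ Y Y' : V, ⟪Y - ⟪w, Y⟫ • w, Y' - ⟪w, Y'⟫ • w⟫ = ⟪Y, Y'⟫ - ⟪w, Y⟫ * ⟪w, Y'⟫ := by
    intro Y Y'
    simp only [inner_sub_left, inner_sub_right, real_inner_smul_left, real_inner_smul_right, hww]
    rw [real_inner_comm w Y]
    ring
  have hs : √(1 + ⟪w, a⟫ ^ 2) ^ 2 = 1 + ⟪w, a⟫ ^ 2 := Real.sq_sqrt (by positivity)
  have hn : √(1 + ⟪w, a⟫ ^ 2) ^ 2 + ‖a - ⟪w, a⟫ • w‖ ^ 2 = 1 + ‖a‖ ^ 2 := by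
    rw [hs, ← real_inner_self_eq_norm_sq (a - _), hin, real_inner_self_eq_norm_sq]
    ring
  have hn' : ⟪w, ν⟫ ^ 2 + ‖ν - ⟪w, ν⟫ • w‖ ^ 2 = 1 := by
    rw [← real_inner_self_eq_norm_sq (ν - _), hin, real_inner_self_eq_norm_sq, hν]
    ring
  have h1 := PX.b1_cs ⟪w, ν⟫ ‖ν - ⟪w, ν⟫ • w‖ (√(1 + ⟪w, a⟫ ^ 2)) ‖a - ⟪w, a⟫ • w‖
  rw [hn, hn', Real.sqrt_one, one_mul] at h1
  have h2 := real_inner_le_norm (ν - ⟪w, ν⟫ • w) (a - ⟪w, a⟫ • w)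
  rw [hin] at h2
  have h3 : ⟪w, ν⟫ * (√(1 + ⟪w, a⟫ ^ 2) - ⟪w, a⟫) ≤ √(1 + ‖a‖ ^ 2) - ⟪ν, a⟫ := by
    rw [mul_sub]
    linarith
  have h4 : 0 ≤ ⟪w, a⟫ + √(1 + ⟪w, a⟫ ^ 2) := by
    rw [← Real.exp_arsinh]
    exact (exp_pos _).le
  have h5 := mul_le_mul_of_nonneg_right h3 h4
  have h6 : (√(1 + ⟪w, a⟫ ^ 2) - ⟪w, a⟫) * (⟪w, a⟫ + √(1 + ⟪w, a⟫ ^ 2)) = 1 := by
    linear_combination hs
  rw [mul_assoc, h6, mul_one, real_inner_comm] at h5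
  exact h5

theorem bd {m : MF} {lg : V × V → V} {dX : V → V → ℝ} {P : Type} {A : Fam P}
    (hD : DD m lg dX A) (hB : PX.B1 lg) (x z w y y' : V) (hw : ‖w‖ = 1) :
    be lg z w y' - Dm A x y' ≤ be lg z w y + Dm A x y := by
  have h1 := hB z w y' y hw
  have h2 := hD.tri x y' y
  rw [PX.dl] at h1
  linarith

end RNR

theorem sNR : SNR := by
  intro m lg dX P _ A hF _ hH hD hB
  refine ⟨fun x z w y hw => ?_, fun x z w y hw => ?_, fun x z w y hw => ?_⟩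
  · refine le_ciSup (f := fun y => be lg z w y - Dm A x y) ⟨be lg z w y + Dm A x y, ?_⟩ y
    rintro _ ⟨y', rfl⟩
    exact RNR.bd hD hB x z w y y' hw
  · exact ciSup_le fun y' => RNR.bd hD hB x z w y y' hw
  · obtain ⟨p, hp, h0, he, -⟩ := hH.max x z w hw
    obtain ⟨u, hu, e1, s1⟩ := PX.b1_pol (lg (z, y)) w hw
    have hz : (m.Z ‖lg (z, y)‖ (z, u)).1 = y := by
      have h1 := hF.yw.had.ex z y
      rw [e1, hF.yw.jac.scale, mul_one] at h1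
      exact h1
    have hl := (hF.isb p).lb z u ‖lg (z, y)‖ hu
    rw [hz] at hl
    have hk := RNR.key (A.ν p z) (PX.Sh (lg (z, y))) w ((hF.isb p).unit z) hw
    have hc : √(1 + ‖PX.Sh (lg (z, y))‖ ^ 2) = cosh ‖lg (z, y)‖ := by
      rw [s1, norm_smul, hu, mul_one, Real.norm_eq_abs, sq_abs, add_comm, ← Real.cosh_sq,
        Real.sqrt_sq (Real.cosh_pos _).le]
    have hi : ⟪A.ν p z, PX.Sh (lg (z, y))⟫ = ⟪A.ν p z, u⟫ * sinh ‖lg (z, y)‖ := by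
      rw [s1, real_inner_smul_right, mul_comm]
    rw [hc, hi, ← Real.exp_arsinh] at hk
    have hm : exp (A.β p y) ≤ exp (Dm A x y) := exp_le_exp.2 (hp ▸ hD.le p y)
    rw [he, log_le_iff_le_exp h0, exp_add, be, gq]
    have h1 := mul_le_mul_of_nonneg_left hk (exp_pos (A.β p z)).le
    have h2 := mul_le_mul_of_nonneg_right (hl.trans hm)
      (exp_pos (arsinh ⟪w, PX.Sh (lg (z, y))⟫)).le
    rw [← mul_assoc] at h1
    exact h1.trans (h2.trans_eq (mul_comm _ _))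

theorem sLX : SLX := by
  intro m lg dX P _ A _ _ _ hD hN x x' z w hw
  have h1 : uf A lg x z w ≤ uf A lg x' z w + dX x x' := by
    refine ciSup_le fun y => ?_
    have h2 := hN.low x' z w y hw
    have h3 := (abs_le.1 (hD.lx x x' y)).1
    linarith
  have h2 : uf A lg x' z w ≤ uf A lg x z w + dX x x' := by
    refine ciSup_le fun y => ?_
    have h2 := hN.low x z w y hw
    have h3 := (abs_le.1 (hD.lx x x' y)).2
    linarith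
  exact abs_le.2 ⟨by linarith, by linarith⟩

end Pool.Agent.MP_3ee8cb_gt.DR
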