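import Pool.Agent.MP_3ee8cb_gt.DR.Spec

/-! The tangential inequality from its values at the ends. -/

namespace Pool.Agent.MP_3ee8cb_gt.DR

theorem sNU1 : SNU1 := by
  intro h e C hh he hC h1 h2 h3 t x ht t1 x0 x1
  have C0 : 0 < C := by linarith
  rw [Real.sq_sqrt C0.le] at ht
  have t0 : 0 < t := pos_of_mul_pos_right (one_pos.trans_le ht) C0.le
  rcases lt_or_ge t (9 / 10) with h9 | h9
  · obtain ⟨a, ha, hac⟩ : ∃ a : ℝ, 0 < a ∧ a * C = 1 := ⟨C⁻¹, inv_pos.2 C0, inv_mul_cancel₀ C0.ne'⟩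
    have hat : a ≤ t := by nlinarith
    have ha9 : a < 9 / 10 := by linarith
    have h4 : (h - e * a) ^ 2 ≤ 4 * e * (a * (1 - a)) := by
      have h5 := mul_le_mul_of_nonneg_left h3 (sq_nonneg a)
      have e1 : a ^ 2 * (h * C - e) ^ 2 = (h * (a * C) - e * a) ^ 2 := by ring
      have e2 : a ^ 2 * (4 * e * (C - 1)) = 4 * e * (a * (a * C - a)) := by ring
      rwa [e1, e2, hac, mul_one] at h5
    have h6 : 0 ≤ (9 / 10 - a) * (4 * e * (t * (1 - t)) - (h - e * t) ^ 2) := by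
      have b1 := mul_nonneg (sub_nonneg.2 h9.le) (sub_nonneg.2 h4)
      have b2 := mul_nonneg (sub_nonneg.2 hat) (sub_nonneg.2 h2)
      have b3 := mul_nonneg (mul_nonneg (mul_nonneg (sub_nonneg.2 h9.le) (sub_nonneg.2 hat))
        (sub_nonneg.2 ha9.le)) (by positivity : 0 ≤ 4 * e + e ^ 2)
      nlinarith
    have h7 := nonneg_of_mul_nonneg_right h6 (by linarith)
    nlinarith [sq_nonneg (2 * x - (h - e * t))]
  · have x2 : x ≤ 2 * h * (1 - t) := by nlinarith [mul_nonneg hh (sq_nonneg (1 - t))]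
    rcases le_total h (e * t) with h4 | h4
    · nlinarith [mul_nonneg (mul_nonneg he t0.le) (sub_nonneg.2 t1), sq_nonneg x,
        mul_nonneg (sub_nonneg.2 h4) x0]
    · have h5 : 2 * h * (h - e * t) ≤ e * t := by
        nlinarith [mul_nonneg (mul_nonneg he (sub_nonneg.2 h9)) (by linarith : 0 ≤ 1 + 2 * h)]
      nlinarith [mul_le_mul_of_nonneg_left x2 (sub_nonneg.2 h4), sq_nonneg x,
        mul_le_mul_of_nonneg_left h5 (sub_nonneg.2 t1)]

end Pool.Agent.MP_3ee8cb_gt.DR
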