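import Pool.Agent.MP_3ee8cb_gt.DR.Spec
import Pool.Agent.MP_3ee8cb_gt.DQK.Port

/-! The zero of the averaged field and its first order data. -/

namespace Pool.Agent.MP_3ee8cb_gt.DR

variable [DN.Dim]

theorem sZERO : SZERO := DQ.Shp.zero

theorem sFL : SFL := DQ.Shp.fl

theorem sJA : SJA := DQ.Shp.ja

end Pool.Agent.MP_3ee8cb_gt.DR
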