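import Pool.Agent.MP_3ee8cb_gt.DR.Spec
import Pool.Agent.MP_3ee8cb_gt.DRK.Cvx

/-! The neighbourhood of a sublevel set is convex. -/

namespace Pool.Agent.MP_3ee8cb_gt.DR

open DN (Dim dm)

variable [Dim]

open Set Real DN DZ DQ

theorem sREG : SREG := by
  intro m lg dX P _ A hb _ _ R S x z h0 h1 t ht
  obtain ⟨y, hy, s0⟩ := h0
  obtain ⟨y', hy', s1⟩ := h1
  have e := hb.yw.had.ex y y'
  refine ⟨(m.Z t (y, lg (y, y'))).1, fun p hp => ?_, ?_⟩
  · exact (hb.b1 p).sub (y, lg (y, y')) R (hy p hp) (by rw [e]; exact hy' p hp) t ht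
  · have c := DRK.cvx hb.yw z (y, lg (y, y')) ht
    rw [e] at c
    simp only at c
    rcases le_total ‖lg (z.1, y)‖ ‖lg ((m.Z 1 z).1, y')‖ with h | h
    · refine (sinh_le_sinh.2 ?_).trans s1
      nlinarith [ht.1, ht.2]
    · refine (sinh_le_sinh.2 ?_).trans s0
      nlinarith [ht.1, ht.2]

end Pool.Agent.MP_3ee8cb_gt.DR
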