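import Pool.Agent.MP_3ee8cb_gt.DR.Spec
import Pool.Agent.MP_3ee8cb_gt.DRN.M4

/-! The integral inequality behind the inward direction, and the fourth moment. -/

namespace Pool.Agent.MP_3ee8cb_gt.DR

open DN (Dim dm)

variable [Dim]

open Set MeasureTheory DN DZ
open scoped RealInnerProductSpace

theorem s24 : S24 := by
  intro _ hM r S l hr hS hl h e T he hT
  have := hM.fin
  exact (sub_pos.2 h).trans_le
    (DRN.mean mS hM.rot (hM.mem.mono fun w hw => DZJ.sh_ne hw) hM.mass he hS hT hr hl)

theorem S24x.m4 : SM4 := by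
  intro hM e he
  have := hM.fin
  exact DRN.m4 mS hM.rot (hM.mem.mono fun w hw => DZJ.sh_ne hw) hM.mass he

end Pool.Agent.MP_3ee8cb_gt.DR
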