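import Pool.Agent.MP_3ee8cb_gt.DR.Spec

/-! The table of constants. -/

namespace Pool.Agent.MP_3ee8cb_gt.DR

open Real

namespace TABx

theorem log_le_of {g l : ℝ} (hg : 0 < g) (hl : 0 ≤ l)
    (h : g ≤ 1 + l + l ^ 2 / 2 + l ^ 3 / 6 + l ^ 4 / 24 + l ^ 5 / 120) : log g ≤ l := by
  rw [log_le_iff_le_exp hg]
  have := Real.sum_le_exp_of_nonneg hl 6
  simp only [Finset.sum_range_succ, Finset.sum_range_zero, Nat.factorial] at this
  norm_num at this
  linarith

theorem tab_of {N h : ℝ} (e C g₀ g S l r L : ℝ) (e0 : 0 ≤ e) (e4 : (N - 1) * e < 4)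
    (c1 : 1 ≤ C) (a1 : 2 * h ^ 2 ≤ 9 / 10 * e * (1 + 2 * h))
    (a2 : (h - 9 / 10 * e) ^ 2 ≤ 9 / 25 * e) (a3 : (h * C - e) ^ 2 ≤ 4 * e * (C - 1))
    (g0 : 2 * N / (N + 1) < g₀) (g1 : g₀ < g) (s0 : 0 ≤ S) (l0 : 0 < l) (n0 : 0 ≤ N)
    (gp : 0 < g₀) (r0 : 0 ≤ r)
    (hr : g₀ ≤ 1 + r + r ^ 2 / 2 + r ^ 3 / 6 + r ^ 4 / 24 + r ^ 5 / 120)
    (hL : 0 ≤ L ∧ 1 + S ^ 2 ≤ L ^ 2)
    (far : r / 2 * (l + N / l) / 2 < S - S ^ 3 / (2 * (N + 2)))
    (cb : (g + (g - 1) ^ 2 / (2 * g)) * (L + S) ≤ C) :
    ∃ e C g₀ g S l : ℝ, Tab N h e C g₀ g S l := by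
  have gp' : 0 < g := by linarith
  refine ⟨e, C, g₀, g, S, l, e0, e4, c1, a1, a2, a3, g0, g1, s0, l0, lt_of_le_of_lt ?_ far,
    le_trans ?_ cb⟩
  · have a := log_le_of gp r0 hr
    have b : 0 ≤ l + N / l := by positivity
    have := mul_le_mul_of_nonneg_right a b
    linarith
  · have b : √(1 + S ^ 2) ≤ L := Real.sqrt_le_iff.2 hL
    exact mul_le_mul_of_nonneg_left (by linarith) (by positivity)

theorem big {N : ℝ} (hN : 17 ≤ N) : ∃ e C g₀ g S l : ℝ, Tab N (61 / (10 * N)) e C g₀ g S l := by
  obtain ⟨q, hq⟩ : ∃ q, q = √N := ⟨_, rfl⟩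
  have q2 : q ^ 2 = N := by rw [hq]; exact sq_sqrt (by linarith)
  have q4 : 41 / 10 ≤ q := by rw [hq]; exact le_sqrt_of_sq_le (by linarith)
  have hN0 : 0 < N := by linarith
  have hN1 : 0 < N - 1 := by linarith
  refine tab_of (399 / (100 * (N - 1))) (2 / 5 * N + 6 / 5) 2 (2001 / 1000) (38 / 100 * q) q
    (694 / 1000) (38 / 100 * q + 3 / 10) (by positivity) ?_ (by linarith) ?_ ?_ ?_ ?_
    (by norm_num) (by linarith) (by linarith) hN0.le (by norm_num) (by norm_num) (by norm_num)
    ⟨by linarith, by nlinarith⟩ ?_ ?_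
  · have : (N - 1) * (399 / (100 * (N - 1))) = 399 / 100 := by field_simp
    rw [this]
    norm_num
  · have : 9 / 10 * (399 / (100 * (N - 1))) * (1 + 2 * (61 / (10 * N))) -
        2 * (61 / (10 * N)) ^ 2 =
        (3591 / 1000 * N * (N + 61 / 5) - 3721 / 50 * (N - 1)) / (N ^ 2 * (N - 1)) := by
      field_simp
      ring
    have p : 0 ≤ (3591 / 1000 * N * (N + 61 / 5) - 3721 / 50 * (N - 1)) / (N ^ 2 * (N - 1)) :=
      div_nonneg (by nlinarith) (by positivity)
    linarith
  · have : 9 / 25 * (399 / (100 * (N - 1))) -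
        (61 / (10 * N) - 9 / 10 * (399 / (100 * (N - 1)))) ^ 2 =
        (3591 / 2500 * N ^ 2 * (N - 1) - (2509 / 1000 * N - 61 / 10) ^ 2) /
          (N ^ 2 * (N - 1) ^ 2) := by
      field_simp
      ring
    have p : 0 ≤ (3591 / 2500 * N ^ 2 * (N - 1) - (2509 / 1000 * N - 61 / 10) ^ 2) /
          (N ^ 2 * (N - 1) ^ 2) := by
      refine div_nonneg ?_ (by positivity)
      have : 0 ≤ N ^ 2 * (N - 17) := mul_nonneg (by positivity) (by linarith)
      nlinarith
    linarith
  · have : 4 * (399 / (100 * (N - 1))) * (2 / 5 * N + 6 / 5 - 1) -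
        (61 / (10 * N) * (2 / 5 * N + 6 / 5) - 399 / (100 * (N - 1))) ^ 2 =
        (399 / 25 * (2 / 5 * N + 1 / 5) * N ^ 2 * (N - 1) -
          (61 / 25 * N ^ 2 + 89 / 100 * N - 183 / 25) ^ 2) / (N ^ 2 * (N - 1) ^ 2) := by
      field_simp
      ring
    have p : 0 ≤ (399 / 25 * (2 / 5 * N + 1 / 5) * N ^ 2 * (N - 1) -
          (61 / 25 * N ^ 2 + 89 / 100 * N - 183 / 25) ^ 2) / (N ^ 2 * (N - 1) ^ 2) := by
      refine div_nonneg ?_ (by positivity)
      have b1 : 0 ≤ N ^ 2 * (N - 17) := mul_nonneg (by positivity) (by linarith)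
      have b2 : 0 ≤ N ^ 2 * (N - 17) ^ 2 := by positivity
      nlinarith
    linarith
  · rw [div_lt_iff₀ (by linarith)]
    linarith
  · have a : (38 / 100 * q) ^ 3 / (2 * (N + 2)) ≤ 28 / 1000 * q := by
      rw [div_le_iff₀ (by linarith), ← q2]
      nlinarith [mul_nonneg (by linarith : 0 ≤ q) (sq_nonneg q)]
    have b : N / q = q := by
      rw [div_eq_iff (by linarith), ← q2]
      ring
    rw [b]
    linarith
  · rw [← q2]
    norm_num
    nlinarith

end TABx

open TABx in
theorem sTAB : STAB := by
  intro n hn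
  rcases le_or_gt 17 n with h | h
  · exact big (by exact_mod_cast h)
  interval_cases n
  · exact tab_of (399 / 200) (2246 / 1000) (15001 / 10000) (15002 / 10000) (356 / 1000)
      (174 / 100) (4058 / 10000) (1062 / 1000)
      (by norm_num) (by norm_num) (by norm_num) (by norm_num) (by norm_num) (by norm_num)
      (by norm_num) (by norm_num) (by norm_num) (by norm_num) (by norm_num) (by norm_num)
      (by norm_num) (by norm_num) (by norm_num) (by norm_num) (by norm_num)
  · exact tab_of (133 / 100) (2724 / 1000) (16001 / 10000) (16002 / 10000) (480 / 1000)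
      (200 / 100) (4703 / 10000) (1110 / 1000)
      (by norm_num) (by norm_num) (by norm_num) (by norm_num) (by norm_num) (by norm_num)
      (by norm_num) (by norm_num) (by norm_num) (by norm_num) (by norm_num) (by norm_num)
      (by norm_num) (by norm_num) (by norm_num) (by norm_num) (by norm_num)
  · exact tab_of (399 / 400) (3144 / 1000) (16668 / 10000) (16669 / 10000) (586 / 1000)
      (224 / 100) (5112 / 10000) (1160 / 1000)
      (by norm_num) (by norm_num) (by norm_num) (by norm_num) (by norm_num) (by norm_num)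
      (by norm_num) (by norm_num) (by norm_num) (by norm_num) (by norm_num) (by norm_num)
      (by norm_num) (by norm_num) (by norm_num) (by norm_num) (by norm_num)
  · exact tab_of (399 / 500) (3524 / 1000) (17144 / 10000) (17145 / 10000) (681 / 1000)
      (245 / 100) (5393 / 10000) (1210 / 1000)
      (by norm_num) (by norm_num) (by norm_num) (by norm_num) (by norm_num) (by norm_num)
      (by norm_num) (by norm_num) (by norm_num) (by norm_num) (by norm_num) (by norm_num)
      (by norm_num) (by norm_num) (by norm_num) (by norm_num) (by norm_num)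
  · exact tab_of (133 / 200) (3872 / 1000) (17501 / 10000) (17502 / 10000) (766 / 1000)
      (265 / 100) (5599 / 10000) (1260 / 1000)
      (by norm_num) (by norm_num) (by norm_num) (by norm_num) (by norm_num) (by norm_num)
      (by norm_num) (by norm_num) (by norm_num) (by norm_num) (by norm_num) (by norm_num)
      (by norm_num) (by norm_num) (by norm_num) (by norm_num) (by norm_num)
  · exact tab_of (57 / 100) (4199 / 1000) (17779 / 10000) (17780 / 10000) (845 / 1000)
      (283 / 100) (5757 / 10000) (1310 / 1000)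
      (by norm_num) (by norm_num) (by norm_num) (by norm_num) (by norm_num) (by norm_num)
      (by norm_num) (by norm_num) (by norm_num) (by norm_num) (by norm_num) (by norm_num)
      (by norm_num) (by norm_num) (by norm_num) (by norm_num) (by norm_num)
  · exact tab_of (399 / 800) (4503 / 1000) (18001 / 10000) (18002 / 10000) (918 / 1000)
      (300 / 100) (5881 / 10000) (1358 / 1000)
      (by norm_num) (by norm_num) (by norm_num) (by norm_num) (by norm_num) (by norm_num)
      (by norm_num) (by norm_num) (by norm_num) (by norm_num) (by norm_num) (by norm_num)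
      (by norm_num) (by norm_num) (by norm_num) (by norm_num) (by norm_num)
  · exact tab_of (133 / 300) (4789 / 1000) (18183 / 10000) (18184 / 10000) (986 / 1000)
      (317 / 100) (5982 / 10000) (1405 / 1000)
      (by norm_num) (by norm_num) (by norm_num) (by norm_num) (by norm_num) (by norm_num)
      (by norm_num) (by norm_num) (by norm_num) (by norm_num) (by norm_num) (by norm_num)
      (by norm_num) (by norm_num) (by norm_num) (by norm_num) (by norm_num)
  · exact tab_of (399 / 1000) (5062 / 1000) (18335 / 10000) (18336 / 10000) (1051 / 1000)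
      (332 / 100) (6065 / 10000) (1451 / 1000)
      (by norm_num) (by norm_num) (by norm_num) (by norm_num) (by norm_num) (by norm_num)
      (by norm_num) (by norm_num) (by norm_num) (by norm_num) (by norm_num) (by norm_num)
      (by norm_num) (by norm_num) (by norm_num) (by norm_num) (by norm_num)
  · exact tab_of (399 / 1100) (5322 / 1000) (18463 / 10000) (18464 / 10000) (1112 / 1000)
      (347 / 100) (6134 / 10000) (1496 / 1000)
      (by norm_num) (by norm_num) (by norm_num) (by norm_num) (by norm_num) (by norm_num)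
      (by norm_num) (by norm_num) (by norm_num) (by norm_num) (by norm_num) (by norm_num)
      (by norm_num) (by norm_num) (by norm_num) (by norm_num) (by norm_num)
  · exact tab_of (133 / 400) (5572 / 1000) (18573 / 10000) (18574 / 10000) (1171 / 1000)
      (361 / 100) (6194 / 10000) (1540 / 1000)
      (by norm_num) (by norm_num) (by norm_num) (by norm_num) (by norm_num) (by norm_num)
      (by norm_num) (by norm_num) (by norm_num) (by norm_num) (by norm_num) (by norm_num)
      (by norm_num) (by norm_num) (by norm_num) (by norm_num) (by norm_num)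
  · exact tab_of (399 / 1300) (5810 / 1000) (18668 / 10000) (18669 / 10000) (1226 / 1000)
      (375 / 100) (6245 / 10000) (1583 / 1000)
      (by norm_num) (by norm_num) (by norm_num) (by norm_num) (by norm_num) (by norm_num)
      (by norm_num) (by norm_num) (by norm_num) (by norm_num) (by norm_num) (by norm_num)
      (by norm_num) (by norm_num) (by norm_num) (by norm_num) (by norm_num)
  · exact tab_of (57 / 200) (6041 / 1000) (18751 / 10000) (18752 / 10000) (1280 / 1000)
      (388 / 100) (6289 / 10000) (1625 / 1000)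
      (by norm_num) (by norm_num) (by norm_num) (by norm_num) (by norm_num) (by norm_num)
      (by norm_num) (by norm_num) (by norm_num) (by norm_num) (by norm_num) (by norm_num)
      (by norm_num) (by norm_num) (by norm_num) (by norm_num) (by norm_num)
  · exact tab_of (133 / 500) (6265 / 1000) (18825 / 10000) (18826 / 10000) (1332 / 1000)
      (400 / 100) (6329 / 10000) (1666 / 1000)
      (by norm_num) (by norm_num) (by norm_num) (by norm_num) (by norm_num) (by norm_num)
      (by norm_num) (by norm_num) (by norm_num) (by norm_num) (by norm_num) (by norm_num)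
      (by norm_num) (by norm_num) (by norm_num) (by norm_num) (by norm_num)

end Pool.Agent.MP_3ee8cb_gt.DR
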