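import Pool.Agent.MP_3ee8cb_gt.DR.RTAB

/-! The table of constants with the larger pinching constant in high dimensions. -/

namespace Pool.Agent.MP_3ee8cb_gt.DR

open Real

namespace TABy

theorem n1 {p : ℝ} (hp : 2 ≤ p) :
    0 ≤ 3591 / 1000 * (p ^ 3 * (p ^ 3 + 6)) - 18 * (p ^ 4 - 1) := by
  obtain ⟨s, rfl⟩ : ∃ s, p = 2 + s := ⟨p - 2, by ring⟩
  have s0 : 0 ≤ s := by linarith
  have : 3591 / 1000 * ((2 + s) ^ 3 * ((2 + s) ^ 3 + 6)) - 18 * ((2 + s) ^ 4 - 1) =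
        16524 / 125 + 46503 / 125 * s ^ 1 + 139779 / 250 * s ^ 2 + 226053 / 500 * s ^ 3 +
        9873 / 50 * s ^ 4 + 10773 / 250 * s ^ 5 + 3591 / 1000 * s ^ 6 := by ring
  rw [this]
  positivity

theorem n2 {p : ℝ} (hp : 2 ≤ p) :
    0 ≤ 3591 / 2500 * (p ^ 6 * (p ^ 4 - 1)) - (3 * (p ^ 4 - 1) - 3591 / 1000 * p ^ 3) ^ 2 := by
  obtain ⟨s, rfl⟩ : ∃ s, p = 2 + s := ⟨p - 2, by ring⟩
  have s0 : 0 ≤ s := by linarith
  have : 3591 / 2500 * ((2 + s) ^ 6 * ((2 + s) ^ 4 - 1)) -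
      (3 * ((2 + s) ^ 4 - 1) - 3591 / 1000 * (2 + s) ^ 3) ^ 2 =
        17408844 / 15625 + 83699082 / 15625 * s ^ 1 + 147017007 / 12500 * s ^ 2 +
        197878113 / 12500 * s ^ 3 + 720809757 / 50000 * s ^ 4 + 2297253357 / 250000 * s ^ 5 +
        4105616319 / 1000000 * s ^ 6 + 125649 / 100 * s ^ 7 + 31194 / 125 * s ^ 8 +
        3591 / 125 * s ^ 9 + 3591 / 2500 * s ^ 10 := by ring
  rw [this]
  positivity

theorem n3 {p : ℝ} (hp : 2 ≤ p) :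
    0 ≤ 399 / 25 * (337 / 200 * p ^ 4 - p ^ 2 + 151 / 50) * p ^ 8 * (p ^ 4 - 1) -
      ((1011 / 200 * p ^ 4 + 453 / 50) * (p ^ 4 - 1) - 399 / 100 * p ^ 5) ^ 2 := by
  obtain ⟨s, rfl⟩ : ∃ s, p = 2 + s := ⟨p - 2, by ring⟩
  have s0 : 0 ≤ s := by linarith
  have : 399 / 25 * (337 / 200 * (2 + s) ^ 4 - (2 + s) ^ 2 + 151 / 50) * (2 + s) ^ 8 *
      ((2 + s) ^ 4 - 1) - ((1011 / 200 * (2 + s) ^ 4 + 453 / 50) * ((2 + s) ^ 4 - 1) -
        399 / 100 * (2 + s) ^ 5) ^ 2 =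
        250884639 / 2500 + 404247384 / 625 * s ^ 1 + 1265579559 / 625 * s ^ 2 +
        2574792363 / 625 * s ^ 3 + 30612181437 / 5000 * s ^ 4 + 17616718689 / 2500 * s ^ 5 +
        16164516753 / 2500 * s ^ 6 + 11960403171 / 2500 * s ^ 7 +
        114245216607 / 40000 * s ^ 8 + 13668510459 / 10000 * s ^ 9 +
        5181637827 / 10000 * s ^ 10 + 382225593 / 2500 * s ^ 11 + 684572229 / 20000 * s ^ 12 +
        55947549 / 10000 * s ^ 13 + 156759 / 250 * s ^ 14 + 53583 / 1250 * s ^ 15 +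
        53583 / 40000 * s ^ 16 := by ring
  rw [this]
  positivity

theorem big {p : ℝ} (hp : 2 ≤ p) : ∃ e C g₀ g S l : ℝ, Tab (p ^ 4) (3 / p ^ 3) e C g₀ g S l := by
  have p0 : 0 < p := by linarith
  have q4 : 4 ≤ p ^ 2 := by nlinarith
  have hN : 16 ≤ p ^ 4 := by nlinarith
  have hN1 : 0 < p ^ 4 - 1 := by linarith
  have iq : 0 < 1 / p ^ 2 := by positivity
  have e1 : 151 / 50 / p ^ 2 = 151 / 50 * (1 / p ^ 2) := by ring
  have e2 : 67 / 50 / p ^ 2 = 67 / 50 * (1 / p ^ 2) := by ring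
  refine TABx.tab_of (399 / (100 * (p ^ 4 - 1))) (337 / 200 * p ^ 2 + 151 / 50 / p ^ 2) 2
    (2001 / 1000) (187 / 500 * p ^ 2) (p ^ 2) (694 / 1000)
    (187 / 500 * p ^ 2 + 67 / 50 / p ^ 2) (by positivity) ?_ (by linarith) ?_ ?_ ?_ ?_
    (by norm_num) (by linarith) (by linarith) (by linarith) (by norm_num) (by norm_num)
    (by norm_num) ⟨by positivity, ?_⟩ ?_ ?_
  · have : (p ^ 4 - 1) * (399 / (100 * (p ^ 4 - 1))) = 399 / 100 := by field_simp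
    rw [this]
    norm_num
  · have : 9 / 10 * (399 / (100 * (p ^ 4 - 1))) * (1 + 2 * (3 / p ^ 3)) - 2 * (3 / p ^ 3) ^ 2 =
        (3591 / 1000 * (p ^ 3 * (p ^ 3 + 6)) - 18 * (p ^ 4 - 1)) / (p ^ 6 * (p ^ 4 - 1)) := by
      field_simp
      ring
    have := div_nonneg (n1 hp) (by positivity : 0 ≤ p ^ 6 * (p ^ 4 - 1))
    linarith
  · have : 9 / 25 * (399 / (100 * (p ^ 4 - 1))) -
        (3 / p ^ 3 - 9 / 10 * (399 / (100 * (p ^ 4 - 1)))) ^ 2 =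
        (3591 / 2500 * (p ^ 6 * (p ^ 4 - 1)) - (3 * (p ^ 4 - 1) - 3591 / 1000 * p ^ 3) ^ 2) /
          (p ^ 6 * (p ^ 4 - 1) ^ 2) := by
      field_simp
      ring
    have := div_nonneg (n2 hp) (by positivity : 0 ≤ p ^ 6 * (p ^ 4 - 1) ^ 2)
    linarith
  · have : 4 * (399 / (100 * (p ^ 4 - 1))) * (337 / 200 * p ^ 2 + 151 / 50 / p ^ 2 - 1) -
        (3 / p ^ 3 * (337 / 200 * p ^ 2 + 151 / 50 / p ^ 2) - 399 / (100 * (p ^ 4 - 1))) ^ 2 =
        (399 / 25 * (337 / 200 * p ^ 4 - p ^ 2 + 151 / 50) * p ^ 8 * (p ^ 4 - 1) -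
          ((1011 / 200 * p ^ 4 + 453 / 50) * (p ^ 4 - 1) - 399 / 100 * p ^ 5) ^ 2) /
          (p ^ 10 * (p ^ 4 - 1) ^ 2) := by
      field_simp
      ring
    have := div_nonneg (n3 hp) (by positivity : 0 ≤ p ^ 10 * (p ^ 4 - 1) ^ 2)
    linarith
  · rw [div_lt_iff₀ (by linarith)]
    linarith
  · have : (187 / 500 * p ^ 2 + 67 / 50 / p ^ 2) ^ 2 =
        (187 / 500 * p ^ 2) ^ 2 + 12529 / 12500 + (67 / 50 / p ^ 2) ^ 2 := by
      field_simp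
      ring
    rw [this]
    have := sq_nonneg (67 / 50 / p ^ 2)
    linarith
  · have a : (187 / 500 * p ^ 2) ^ 3 / (2 * (p ^ 4 + 2)) ≤ 262 / 10000 * p ^ 2 := by
      rw [div_le_iff₀ (by linarith)]
      have : 0 ≤ p ^ 6 := by positivity
      nlinarith
    have b : p ^ 4 / p ^ 2 = p ^ 2 := by field_simp
    rw [b]
    linarith
  · rw [e1, e2]
    norm_num
    rw [← one_div]
    linarith

end TABy

/-- The table of constants for the larger of the two pinching constants. -/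
theorem sTAB2 (n : ℕ) (hn : 3 ≤ n) : ∃ e C g₀ g S l : ℝ,
    Tab n (max (61 / (10 * n)) (3 / (n : ℝ) ^ (3 / 4 : ℝ))) e C g₀ g S l := by
  rcases le_total (3 / (n : ℝ) ^ (3 / 4 : ℝ)) (61 / (10 * n)) with h | h
  · rw [max_eq_left h]
    exact sTAB n hn
  · rw [max_eq_right h]
    have n0 : (0 : ℝ) < n := by exact_mod_cast (by omega : 0 < n)
    obtain ⟨p, hp⟩ : ∃ p : ℝ, p = (n : ℝ) ^ (1 / 4 : ℝ) := ⟨_, rfl⟩
    have p0 : 0 < p := by rw [hp]; positivity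
    have p4 : (n : ℝ) = p ^ 4 := by
      rw [hp, ← rpow_natCast, ← rpow_mul n0.le]
      norm_num
    have p3 : (n : ℝ) ^ (3 / 4 : ℝ) = p ^ 3 := by
      rw [hp, ← rpow_natCast, ← rpow_mul n0.le]
      norm_num
    rw [p3] at h ⊢
    rw [p4] at h ⊢
    refine TABy.big ?_
    rw [div_le_div_iff₀ (by positivity) (by positivity)] at h
    have p3' : 0 < p ^ 3 := by positivity
    by_contra hc
    have : 0 < p ^ 3 * (2 - p) := mul_pos p3' (by linarith)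
    nlinarith

end Pool.Agent.MP_3ee8cb_gt.DR
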