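import Pool.Agent.MP_3ee8cb_gt.DR.Spec

/-! Tables of constants with a bounded region. -/

namespace Pool.Agent.MP_3ee8cb_gt.DR

open Real DQ

/-- The tangential inequality from its values at the ends, with a free splitting point. -/
theorem nuT (h e C τ : ℝ) (hh : 0 ≤ h) (he : 0 ≤ e) (hC : 1 ≤ C)
    (h1 : 2 * h ^ 2 ≤ τ * e * (1 + 2 * h)) (h2 : (h - e * τ) ^ 2 ≤ 4 * e * (τ * (1 - τ)))
    (h3 : (h * C - e) ^ 2 ≤ 4 * e * (C - 1)) : Nu1 h e √C := by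
  intro t x ht t1 x0 x1
  have C0 : 0 < C := by linarith
  rw [Real.sq_sqrt C0.le] at ht
  have t0 : 0 < t := pos_of_mul_pos_right (one_pos.trans_le ht) C0.le
  rcases lt_or_ge t τ with h9 | h9
  · obtain ⟨a, ha, hac⟩ : ∃ a : ℝ, 0 < a ∧ a * C = 1 :=
      ⟨C⁻¹, inv_pos.2 C0, inv_mul_cancel₀ C0.ne'⟩
    have hat : a ≤ t := by nlinarith
    have ha9 : a < τ := by linarith
    have h4 : (h - e * a) ^ 2 ≤ 4 * e * (a * (1 - a)) := by
      have h5 := mul_le_mul_of_nonneg_left h3 (sq_nonneg a)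
      have e1 : a ^ 2 * (h * C - e) ^ 2 = (h * (a * C) - e * a) ^ 2 := by ring
      have e2 : a ^ 2 * (4 * e * (C - 1)) = 4 * e * (a * (a * C - a)) := by ring
      rwa [e1, e2, hac, mul_one] at h5
    have h6 : 0 ≤ (τ - a) * (4 * e * (t * (1 - t)) - (h - e * t) ^ 2) := by
      have b1 := mul_nonneg (sub_nonneg.2 h9.le) (sub_nonneg.2 h4)
      have b2 := mul_nonneg (sub_nonneg.2 hat) (sub_nonneg.2 h2)
      have b3 := mul_nonneg (mul_nonneg (mul_nonneg (sub_nonneg.2 h9.le) (sub_nonneg.2 hat))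
        (sub_nonneg.2 ha9.le)) (by positivity : 0 ≤ 4 * e + e ^ 2)
      have : (τ - a) * (4 * e * (t * (1 - t)) - (h - e * t) ^ 2) =
          (τ - t) * (4 * e * (a * (1 - a)) - (h - e * a) ^ 2) +
          (t - a) * (4 * e * (τ * (1 - τ)) - (h - e * τ) ^ 2) +
          (τ - t) * (t - a) * (τ - a) * (4 * e + e ^ 2) := by ring
      linarith
    have h7 := nonneg_of_mul_nonneg_right h6 (by linarith)
    nlinarith [sq_nonneg (2 * x - (h - e * t))]
  · have x2 : x ≤ 2 * h * (1 - t) := by nlinarith [mul_nonneg hh (sq_nonneg (1 - t))]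
    rcases le_total h (e * t) with h4 | h4
    · nlinarith [mul_nonneg (mul_nonneg he t0.le) (sub_nonneg.2 t1), sq_nonneg x,
        mul_nonneg (sub_nonneg.2 h4) x0]
    · have h5 : 2 * h * (h - e * t) ≤ e * t := by
        nlinarith [mul_nonneg (mul_nonneg he (sub_nonneg.2 h9)) (by linarith : 0 ≤ 1 + 2 * h)]
      nlinarith [mul_le_mul_of_nonneg_left x2 (sub_nonneg.2 h4), sq_nonneg x,
        mul_le_mul_of_nonneg_left h5 (sub_nonneg.2 t1)]

/-- The tangential inequality for `h = c / √N` and `e = 4 / N`. -/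
theorem nuQ {N c C : ℝ} (hN : 3 ≤ N) (c1 : 6 / 5 ≤ c) (c2 : c ≤ 13 / 10) (hC : 2 ≤ C)
    (h3 : (c * C) ^ 2 ≤ 16 * (C - 1)) : Nu1 (c / √N) (4 / N) √C := by
  obtain ⟨q, hq⟩ : ∃ q, q = (√N)⁻¹ := ⟨_, rfl⟩
  have s2 : √N ^ 2 = N := sq_sqrt (by linarith)
  have s1 : 17 / 10 ≤ √N := le_sqrt_of_sq_le (by linarith)
  have q0 : 0 < q := by rw [hq]; positivity
  have q1 : q ≤ 10 / 17 := by
    rw [hq, inv_le_comm₀ (by linarith) (by norm_num)]
    linarith
  have e1 : c / √N = c * q := by rw [hq]; rfl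
  have e2 : 4 / N = 4 * q ^ 2 := by rw [hq, inv_pow, s2]; rfl
  have q2 : 0 < q ^ 2 := by positivity
  rw [e1, e2]
  refine nuT _ _ _ (7 / 8) (by positivity) (by positivity) (by linarith) ?_ ?_ ?_
  · have a : c ^ 2 ≤ 7 / 4 := by nlinarith
    have b : 0 ≤ q ^ 2 * (c * q) := by positivity
    nlinarith [mul_le_mul_of_nonneg_left a q2.le]
  · have a : (c - 7 / 2 * q) ^ 2 ≤ 7 / 4 := by nlinarith
    nlinarith [mul_le_mul_of_nonneg_left a q2.le]
  · have b : 12 / 5 ≤ c * C := by nlinarith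
    have a : (c * C - 4 * q) ^ 2 ≤ 16 * (C - 1) := by nlinarith
    nlinarith [mul_le_mul_of_nonneg_left a q2.le]

/-- The table of constants for a pointwise inward direction. -/
structure Tab3 (N h e C g₀ g S : ℝ) : Prop where
  e0 : 0 ≤ e
  e4 : (N - 1) * e < 4
  c1 : 1 ≤ C
  nu : Nu1 h e √C
  g0 : 2 * N / (N + 1) < g₀
  g1 : g₀ < g
  s0 : 0 ≤ S
  far : g₀ ≤ √(1 + S ^ 2)
  cb : (g + (g - 1) ^ 2 / (2 * g)) * (√(1 + S ^ 2) + S) ≤ C

/-- The table of constants for an averaged inward direction. -/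
structure Tab4 (N h e C g₀ g S : ℝ) : Prop where
  e0 : 0 ≤ e
  e4 : (N - 1) * e < 4
  c1 : 1 ≤ C
  nu : Nu1 h e √C
  g0 : 2 * N / (N + 1) < g₀
  g1 : g₀ < g
  s0 : 0 ≤ S
  far : g₀ ^ 2 * (1 + S ^ 2 / N) < 1 + S ^ 2
  cb : (g + (g - 1) ^ 2 / (2 * g)) * (√(1 + S ^ 2) + S) ≤ C

theorem e4_aux {N : ℝ} (hN : 3 ≤ N) : (N - 1) * (4 / N) < 4 := by
  rw [← mul_div_assoc, div_lt_iff₀ (by linarith)]
  linarith

theorem g0_aux {N : ℝ} (hN : 3 ≤ N) : 2 * N / (N + 1) < 2 := by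
  rw [div_lt_iff₀ (by linarith)]
  linarith

theorem sTAB3 {N : ℝ} (hN : 3 ≤ N) :
    ∃ e C g₀ g S : ℝ, Tab3 N (129 / (100 * √N)) e C g₀ g S := by
  have e1 : 129 / (100 * √N) = 129 / 100 / √N := by rw [div_div]
  refine ⟨4 / N, 841 / 100, 2, 2001 / 1000, 1733 / 1000, by positivity, e4_aux hN, by norm_num,
    ?_, g0_aux hN, by norm_num, by norm_num, le_sqrt_of_sq_le (by norm_num), ?_⟩
  · rw [e1]
    exact nuQ hN (by norm_num) (by norm_num) (by norm_num) (by norm_num)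
  · have b : √(1 + (1733 / 1000 : ℝ) ^ 2) ≤ 2001 / 1000 :=
      Real.sqrt_le_iff.2 ⟨by norm_num, by norm_num⟩
    norm_num at b ⊢
    linarith

theorem sTAB4 {N : ℝ} (hN : 237 / 10 ≤ N) :
    ∃ e C g₀ g S : ℝ, Tab4 N (5 / (4 * √N)) e C g₀ g S := by
  have e1 : 5 / (4 * √N) = 5 / 4 / √N := by rw [div_div]
  have h3 : 3 ≤ N := by linarith
  refine ⟨4 / N, 9114 / 1000, 2, 2001 / 1000, 19 / 10, by positivity, e4_aux h3, by norm_num,
    ?_, g0_aux h3, by norm_num, by norm_num, ?_, ?_⟩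
  · rw [e1]
    exact nuQ h3 (by norm_num) (by norm_num) (by norm_num) (by norm_num)
  · have : (19 / 10 : ℝ) ^ 2 / N ≤ 1524 / 10000 := by
      rw [div_le_iff₀ (by linarith)]
      linarith
    linarith
  · have b : √(1 + (19 / 10 : ℝ) ^ 2) ≤ 2148 / 1000 :=
      Real.sqrt_le_iff.2 ⟨by norm_num, by norm_num⟩
    norm_num at b ⊢
    linarith

end Pool.Agent.MP_3ee8cb_gt.DR
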