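import Pool.Agent.MP_3ee8cb_gt.DR.Spec
import Pool.Agent.MP_3ee8cb_gt.DQ.RTOU

/-! Touching from below by a finite centre. -/

namespace Pool.Agent.MP_3ee8cb_gt.DR

open Set Filter Topology Real DQ
open scoped RealInnerProductSpace
open DN (Dim dm)

namespace TFx

theorem scal (h e F σ X B s y N : ℝ) (hN : Nu1 h e F) (e0 : 0 ≤ e) (σ0 : 0 ≤ σ) (X0 : 0 < X)
    (B0 : 0 < B) (hX : X ^ 2 = 1 + σ ^ 2) (hB : B ^ 2 = 1 + s ^ 2) (BX : B ≤ X) (y0 : 0 ≤ y)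
    (hF : X ≤ F ^ 2 * B) (h1 : σ * y ≤ h * (σ ^ 2 - s ^ 2)) (h2 : N ≤ h * σ * y) :
    N - y ^ 2 ≤ e * B * (X + y - B) := by
  have σX : σ ≤ X := by nlinarith
  have X2 : 0 < X ^ 2 := by positivity
  have a1 : 1 ≤ F ^ 2 * (B / X) := by
    rw [← mul_div_assoc, le_div_iff₀ X0]
    linarith
  have a2 : B / X ≤ 1 := (div_le_one X0).2 BX
  have a3 : 0 ≤ σ * y / X ^ 2 := by positivity
  have a4 : σ * y / X ^ 2 ≤ h * (1 - (B / X) ^ 2) := by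
    have e1 : h * (1 - (B / X) ^ 2) = h * (X ^ 2 - B ^ 2) / X ^ 2 := by
      field_simp
    rw [e1]
    refine div_le_div_of_nonneg_right ?_ X2.le
    rw [hX, hB]
    linarith
  have a5 := hN _ _ a1 a2 a3 a4
  have a6 : σ * y / X ^ 2 ≤ y / X := by
    rw [div_le_div_iff₀ X2 X0]
    have := mul_le_mul_of_nonneg_right σX (mul_nonneg y0 X0.le)
    nlinarith
  have a7 : e * (B / X) * (1 - B / X + σ * y / X ^ 2) ≤ e * (B / X) * (1 - B / X + y / X) :=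
    mul_le_mul_of_nonneg_left (by linarith) (by positivity)
  have a8 : (σ * y / X ^ 2) ^ 2 ≤ (y / X) ^ 2 := pow_le_pow_left₀ a3 a6 2
  have a9 : h * (σ * y / X ^ 2) - (y / X) ^ 2 ≤ e * (B / X) * (1 - B / X + y / X) := by linarith
  have b1 : h * (σ * y / X ^ 2) - (y / X) ^ 2 = (h * σ * y - y ^ 2) / X ^ 2 := by
    field_simp
  have b2 : e * (B / X) * (1 - B / X + y / X) = e * B * (X + y - B) / X ^ 2 := by
    field_simp
    ring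
  rw [b1, b2, div_le_div_iff_of_pos_right X2] at a9
  linarith

theorem line (s g : ℝ) (hg : g ^ 2 ≤ 1) :
    (s + √(1 + s ^ 2)) * g ≤ s * g + √(1 + (s * g) ^ 2) := by
  have h1 : √(1 + s ^ 2) * g ≤ √(1 + (s * g) ^ 2) := by
    refine le_sqrt_of_sq_le ?_
    rw [mul_pow, sq_sqrt (by positivity)]
    nlinarith
  linarith

variable [Dim]

open DN DZ

theorem norm_sh (ξ : V) : ‖PX.Sh ξ‖ = sinh ‖ξ‖ := by
  rcases eq_or_ne ξ 0 with rfl | h0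
  · simp [PX.Sh]
  · have h1 : ‖ξ‖ ≠ 0 := norm_ne_zero_iff.2 h0
    have h2 : 0 ≤ sinh ‖ξ‖ / ‖ξ‖ := div_nonneg (sinh_nonneg_iff.2 (norm_nonneg _)) (norm_nonneg _)
    rw [PX.Sh, norm_smul, Real.norm_of_nonneg h2, div_mul_cancel₀ _ h1]

theorem form_le (E : V →L[ℝ] V) (h : ℝ) (a w : V) (hs : ∀ a b, ⟪E a, b⟫ = ⟪a, E b⟫)
    (hn : E a = 0) (hb : ∀ v, 0 ≤ ⟪E v, v⟫ ∧ ⟪E v, v⟫ ≤ h * ‖a‖ * ‖v‖ ^ 2)
    (w1 : ‖w‖ = 1) : ‖a‖ * ⟪E w, w⟫ ≤ h * (‖a‖ ^ 2 - ⟪w, a⟫ ^ 2) := by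
  rcases eq_or_ne a 0 with rfl | h0
  · simp
  have p : 0 < ‖a‖ := norm_pos_iff.2 h0
  have n1 : ‖(‖a‖⁻¹ • a : V)‖ = 1 := by
    rw [norm_smul, norm_inv, norm_norm, inv_mul_cancel₀ p.ne']
  have h1 := TOUx.form_le E (h * ‖a‖) (‖a‖⁻¹ • a) w hs (by rw [map_smul, hn, smul_zero]) hb n1 w1
  rw [real_inner_smul_left, real_inner_comm w a] at h1
  have e1 : h * (‖a‖ ^ 2 - ⟪w, a⟫ ^ 2) = ‖a‖ * (h * ‖a‖ * (1 - (‖a‖⁻¹ * ⟪w, a⟫) ^ 2)) := by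
    field_simp
  rw [e1]
  exact mul_le_mul_of_nonneg_left h1 p.le

theorem der (m : MF) (a : V → V) (z w : V) (X k : ℝ) (E D : V →L[ℝ] V)
    (hk : ∀ u a c, ⟪m.om z u a, c⟫ = -⟪a, m.om z u c⟫) (hs : ∀ a c, ⟪E a, c⟫ = ⟪a, E c⟫)
    (hD : HasFDerivAt a D z)
    (hE : ∀ u, D u + m.om z u (a z) = -(X • m.S z u + E (m.S z u))) :
    ∃ L : V × V →L[ℝ] ℝ, HasFDerivAt (fun q : V × V => arsinh ⟪q.2, a q.1⟫ - k) L (z, w) ∧
      ∀ ξ, m.ver (z, w) ξ = 0 →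
        L ξ = -⟪(√(1 + ⟪w, a z⟫ ^ 2))⁻¹ • (X • w + E w), m.hor (z, w) ξ⟫ := by
  have f1 : HasFDerivAt (fun q : V × V => q.1) (ContinuousLinearMap.fst ℝ V V) (z, w) :=
    hasFDerivAt_fst
  have f2 : HasFDerivAt (fun q : V × V => q.2) (ContinuousLinearMap.snd ℝ V V) (z, w) :=
    hasFDerivAt_snd
  have n1 := f2.inner ℝ (HasFDerivAt.comp (z, w) (g := a) hD f1)
  have g1 := n1.arsinh.sub_const k
  refine ⟨_, g1, fun ξ hξ => ?_⟩
  have e2 : ξ.2 = -m.om z ξ.1 w := by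
    have : ξ.2 + m.om z ξ.1 w = 0 := by simpa [MF.ver] using hξ
    exact eq_neg_of_add_eq_zero_left this
  have e1 : D ξ.1 = -(X • m.S z ξ.1 + E (m.S z ξ.1)) - m.om z ξ.1 (a z) :=
    eq_sub_of_add_eq (hE ξ.1)
  have e3 : ⟪w, D ξ.1⟫ + ⟪ξ.2, a z⟫ = -⟪X • w + E w, m.S z ξ.1⟫ := by
    rw [e1, e2, inner_neg_left, hk, inner_sub_right, inner_neg_right, inner_add_right,
      inner_add_left, real_inner_smul_right, real_inner_smul_left, hs]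
    ring
  have e4 : m.hor (z, w) ξ = m.S z ξ.1 := rfl
  rw [e4, real_inner_smul_left]
  simp only [smul_apply,
    ContinuousLinearMap.comp_apply, ContinuousLinearMap.prod_apply, fderivInnerCLM_apply,
    ContinuousLinearMap.coe_fst', ContinuousLinearMap.coe_snd', Function.comp_apply,
    smul_eq_mul]
  rw [e3]
  ring

end TFx

variable [Dim]

open DN DZ

theorem sTF : STF := by
  intro m lg h ε F k u z w y hY hH h0 hN w1 hF hu hle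
  obtain ⟨E, hs, hn, hb, D, hD, hE⟩ := hH z y
  obtain ⟨L, hL, hLe⟩ := TFx.der m (fun z => PX.Sh (lg (z, y))) z w (cosh ‖lg (z, y)‖) k E D
    (hY.ok.skew z) hs hD hE
  have ww : ⟪w, w⟫ = 1 := by rw [real_inner_self_eq_norm_sq, w1, one_pow]
  have na := TFx.norm_sh (lg (z, y))
  have Ea : E (PX.Sh (lg (z, y))) = 0 := by rw [PX.Sh, map_smul, hn, smul_zero]
  have hX : cosh ‖lg (z, y)‖ ^ 2 = 1 + ‖PX.Sh (lg (z, y))‖ ^ 2 := by
    rw [na, cosh_sq]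
    ring
  have X0 := cosh_pos ‖lg (z, y)‖
  rw [← na] at hb
  have hu' : u (z, w) = arsinh ⟪w, PX.Sh (lg (z, y))⟫ - k := hu
  have hq : ∀ w' : V, ‖w'‖ = 1 → arsinh ⟪w', PX.Sh (lg (z, y))⟫ - k ≤ u (z, w') :=
    fun w' h1 => hle (z, w') h1
  generalize PX.Sh (lg (z, y)) = a at hLe na Ea hX hb hF hu' hq
  generalize cosh ‖lg (z, y)‖ = X at hLe hX X0 hF
  have x0 := (hb w).1
  have x1 := TFx.form_le E h a w hs Ea hb w1
  have x2 := TOUx.sq_le E (h * ‖a‖) (mul_nonneg h0 (norm_nonneg _)) hs hb w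
  have sa : ⟪w, a⟫ ^ 2 ≤ ‖a‖ ^ 2 := by
    have := abs_real_inner_le_norm w a
    rw [w1, one_mul] at this
    rw [← sq_abs]
    exact pow_le_pow_left₀ (abs_nonneg _) this 2
  have B0 : 0 < √(1 + ⟪w, a⟫ ^ 2) := sqrt_pos.2 (by positivity)
  have hB : √(1 + ⟪w, a⟫ ^ 2) ^ 2 = 1 + ⟪w, a⟫ ^ 2 := sq_sqrt (by positivity)
  have BX : √(1 + ⟪w, a⟫ ^ 2) ≤ X := by
    refine sqrt_le_iff.2 ⟨X0.le, ?_⟩
    linarith
  have x3 := TFx.scal h (ε ^ 2) F ‖a‖ X _ _ _ _ hN (sq_nonneg _) (norm_nonneg _) X0 B0 hX hB BX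
    x0 hF x1 x2
  have hc1 : X + ⟪E w, w⟫ = √(1 + ⟪w, a⟫ ^ 2) → Qr (fun w => u (z, w)) w := by
    intro hc w' h1
    have c1 : X = √(1 + ⟪w, a⟫ ^ 2) := by linarith
    have c2 : ‖a‖ ^ 2 = ⟪w, a⟫ ^ 2 := by
      rw [c1, hB] at hX
      linarith
    have c3 : ‖a - ⟪w, a⟫ • w‖ ^ 2 = 0 := by
      rw [norm_sub_sq_real, real_inner_smul_right, norm_smul, w1, Real.norm_eq_abs, mul_one,
        sq_abs, real_inner_comm w a, c2]
      ring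
    have c4 : a = ⟪w, a⟫ • w := sub_eq_zero.1 (norm_eq_zero.1 (pow_eq_zero_iff two_ne_zero |>.1 c3))
    have c5 : ⟪w', a⟫ = ⟪w, a⟫ * ⟪w, w'⟫ := by
      conv_lhs => rw [c4]
      rw [real_inner_smul_right, real_inner_comm w w']
    have c6 : ⟪w, w'⟫ ^ 2 ≤ 1 := by
      have := abs_real_inner_le_norm w w'
      rw [w1, h1, one_mul] at this
      exact (sq_le_one_iff_abs_le_one _).2 this
    have c7 := exp_le_exp.2 (hq w' h1)
    refine le_trans ?_ c7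
    change exp (u (z, w)) * ⟪w, w'⟫ ≤ _
    rw [hu', c5, exp_sub, exp_sub, exp_arsinh, exp_arsinh, div_mul_eq_mul_div]
    exact div_le_div_of_nonneg_right (TFx.line _ _ c6) (exp_pos k).le
  generalize hx : ⟪E w, w⟫ = x at x0 x3 hc1
  generalize √(1 + ⟪w, a⟫ ^ 2) = B at B0 BX x3 hc1 hLe
  have t0 := B0.ne'
  refine ⟨fun q => arsinh ⟪q.2, PX.Sh (lg (q.1, y))⟫ - k, L, (X + x) / B, B⁻¹ • (E w - x • w), hL,
    hu.symm, Eventually.of_forall fun q q1 => hle q q1, ?_, ?_, ?_, ?_, ?_⟩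
  · rw [le_div_iff₀ B0]
    linarith
  · change ⟪B⁻¹ • (E w - x • w), w⟫ = 0
    rw [real_inner_smul_left, inner_sub_left, real_inner_smul_left, hx, ww, mul_one, sub_self,
      mul_zero]
  · have e1 : ‖E w - x • w‖ ^ 2 = ‖E w‖ ^ 2 - x ^ 2 := by
      rw [norm_sub_sq_real, real_inner_smul_right, hx, norm_smul, w1, Real.norm_eq_abs, mul_one,
        sq_abs]
      ring
    have e2 : ε ^ 2 * ((X + x) / B - 1) = B⁻¹ ^ 2 * (ε ^ 2 * B * (X + x - B)) := by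
      field_simp
    rw [norm_smul, mul_pow, e1, Real.norm_eq_abs, sq_abs, e2]
    exact mul_le_mul_of_nonneg_left x3 (sq_nonneg _)
  · intro hc
    rw [div_eq_one_iff_eq t0] at hc
    exact hc1 hc
  · intro ξ hξ
    have e1 : ((X + x) / B) • w + B⁻¹ • (E w - x • w) = B⁻¹ • (X • w + E w) := by
      rw [div_eq_inv_mul]
      module
    change L ξ = -⟪((X + x) / B) • w + B⁻¹ • (E w - x • w), m.hor (z, w) ξ⟫
    rw [e1]
    exact hLe ξ hξ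

end Pool.Agent.MP_3ee8cb_gt.DR
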