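import Pool.Agent.MP_3ee8cb_gt.DR.Spec
import Pool.Agent.MP_3ee8cb_gt.DQ.RTOU

/-! Touching from below by a centre at infinity. -/

namespace Pool.Agent.MP_3ee8cb_gt.DR

open Set Filter Topology Real DQ
open scoped RealInnerProductSpace
open DN (Dim dm)

variable [Dim]

open DN DZ

theorem sTI : STI := by
  intro m lg h ε F β ν u z w hY hB hB1 hS h0 hN w1 tF hu hle
  obtain ⟨E, hs, hn, hb, D, hD, hE⟩ := hS
  have n1 : ‖ν z‖ = 1 := hB.unit z
  have g0 : 0 < gq β ν (z, w) := hu ▸ exp_pos _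
  have ht : 0 < ⟪ν z, w⟫ := (mul_pos_iff_of_pos_left (exp_pos (β z))).1 g0
  have t1 : ⟪ν z, w⟫ ≤ 1 := by
    have := real_inner_le_norm (ν z) w
    rwa [n1, w1, mul_one] at this
  have ww : ⟪w, w⟫ = 1 := by rw [real_inner_self_eq_norm_sq, w1, one_pow]
  obtain ⟨L, hL, hLe⟩ := TOUx.der m β ν z w E D (hY.ok.skew z) hs (hB1.der z) hD hE ht
  have x0 := (hb w).1
  have x1 := TOUx.form_le E h (ν z) w hs hn hb n1 w1
  have x2 := TOUx.sq_le E h h0 hs hb w
  have x3 := hN _ _ tF t1 x0 x1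
  have cg : ContinuousAt (gq β ν) (z, w) := by
    have c1 : ContinuousAt (fun q : V × V => β q.1) (z, w) :=
      ContinuousAt.comp (f := Prod.fst) (hB1.der z).continuousAt continuousAt_fst
    have c2 : ContinuousAt (fun q : V × V => ν q.1) (z, w) :=
      ContinuousAt.comp (f := Prod.fst) hD.continuousAt continuousAt_fst
    exact c1.rexp.mul (c2.inner continuousAt_snd)
  generalize hx : ⟪E w, w⟫ = y at x0 x1 x2 x3
  generalize hT : ⟪ν z, w⟫ = t at ht t1 tF hLe x1 x3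
  have t0 := ht.ne'
  refine ⟨fun q => log (gq β ν q), L, (1 + y) / t, t⁻¹ • (E w - y • w), hL, ?_,
    ?_, ?_, ?_, ?_, ?_, ?_⟩
  · change log (gq β ν (z, w)) = u (z, w)
    rw [← hu, log_exp]
  · filter_upwards [cg.eventually (lt_mem_nhds g0)] with q hq q1
    exact (log_le_iff_le_exp hq).2 (hle q q1)
  · rw [le_div_iff₀ ht]
    linarith
  · change ⟪t⁻¹ • (E w - y • w), w⟫ = 0
    rw [real_inner_smul_left, inner_sub_left, real_inner_smul_left, hx, ww, mul_one, sub_self,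
      mul_zero]
  · have e1 : ‖E w - y • w‖ ^ 2 = ‖E w‖ ^ 2 - y ^ 2 := by
      rw [norm_sub_sq_real, real_inner_smul_right, hx, norm_smul, w1, Real.norm_eq_abs, mul_one,
        sq_abs]
      ring
    have e2 : ε ^ 2 * ((1 + y) / t - 1) = t⁻¹ ^ 2 * (ε ^ 2 * t * (1 - t + y)) := by
      field_simp
      ring
    rw [norm_smul, mul_pow, e1, Real.norm_eq_abs, sq_abs, e2]
    exact mul_le_mul_of_nonneg_left (by linarith) (sq_nonneg _)
  · intro hc w' w1'
    rw [div_eq_one_iff_eq t0] at hc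
    have e1 : ⟪ν z, w⟫ = 1 := by rw [hT]; linarith
    have e2 : ν z = w := (inner_eq_one_iff_of_norm_eq_one n1 w1).1 e1
    have e3 : exp (u (z, w)) = exp (β z) := by
      rw [hu]
      change exp (β z) * ⟪ν z, w⟫ = exp (β z)
      rw [e1, mul_one]
    have e4 : exp (β z) * ⟪ν z, w'⟫ ≤ exp (u (z, w')) := hle (z, w') w1'
    change exp (u (z, w)) * ⟪w, w'⟫ ≤ exp (u (z, w'))
    rw [e3]
    rwa [e2] at e4
  · intro ξ hξ
    have e1 : ((1 + y) / t) • w + t⁻¹ • (E w - y • w) = t⁻¹ • (w + E w) := by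
      rw [div_eq_inv_mul]
      module
    change L ξ = -⟪((1 + y) / t) • w + t⁻¹ • (E w - y • w), m.hor (z, w) ξ⟫
    rw [e1]
    exact hLe ξ hξ

end Pool.Agent.MP_3ee8cb_gt.DR
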