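import Pool.Agent.MP_3ee8cb_gt.DR.Top
import Pool.Agent.MP_3ee8cb_gt.DR.RATT
import Pool.Agent.MP_3ee8cb_gt.DR.RCB
import Pool.Agent.MP_3ee8cb_gt.DR.RDD
import Pool.Agent.MP_3ee8cb_gt.DR.REND1
import Pool.Agent.MP_3ee8cb_gt.DR.REQV
import Pool.Agent.MP_3ee8cb_gt.DR.RHE
import Pool.Agent.MP_3ee8cb_gt.DR.RHY
import Pool.Agent.MP_3ee8cb_gt.DR.RINW
import Pool.Agent.MP_3ee8cb_gt.DR.RINW2
import Pool.Agent.MP_3ee8cb_gt.DR.RJB
import Pool.Agent.MP_3ee8cb_gt.DR.RJU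
import Pool.Agent.MP_3ee8cb_gt.DR.RM4
import Pool.Agent.MP_3ee8cb_gt.DR.RNR
import Pool.Agent.MP_3ee8cb_gt.DR.RNU1
import Pool.Agent.MP_3ee8cb_gt.DR.RPORT
import Pool.Agent.MP_3ee8cb_gt.DR.RREG
import Pool.Agent.MP_3ee8cb_gt.DR.RS24
import Pool.Agent.MP_3ee8cb_gt.DR.RTAB
import Pool.Agent.MP_3ee8cb_gt.DR.RTAB2
import Pool.Agent.MP_3ee8cb_gt.DR.RTAB3
import Pool.Agent.MP_3ee8cb_gt.DR.RTF
import Pool.Agent.MP_3ee8cb_gt.DR.RTI
import Pool.Agent.MP_3ee8cb_gt.DR.B87LZ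

/-! Rigidity under a pinching of order one over the square root of the dimension. -/

namespace Pool.Agent.MP_3ee8cb_gt.DR

open DN (Dim dm)

variable [Dim]

open Set Filter Topology MeasureTheory Real DN DZ DQ
open CR (Met UT dd ng)
open scoped RealInnerProductSpace

/-- The support function of a family has all properties. -/
theorem sq_of3 {k e C g₀ g S : ℝ} (k0 : 0 ≤ k) (T : Tab3 dm k e C g₀ g S)
    {m : MF} {lg : V × V → V} {dX : V → V → ℝ} {P : Type} [TopologicalSpace P] {A : Fam P}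
    (B : BF m lg dX A) (G : BG lg A) (H : BH A) (D : DD m lg dX A) (N : NR lg A) (hy : Hy lg)
    (hf : Hf m lg k) (HS : ∀ p z, Hs m k (A.ν p) z) :
    Sq m lg dX √e (ur A lg) (Rg A lg (log g / 2) S) (Rg A lg (log g₀ / 2) S)
      fun x z => Qr (ur A lg x z) := by
  have ee : √e ^ 2 = e := sq_sqrt T.e0
  have cc : √C ^ 2 = C := sq_sqrt (by linarith [T.c1])
  have d3 : (3 : ℝ) ≤ dm := by exact_mod_cast Nat.le_add_left 3 _
  have g1 : 1 ≤ g₀ := by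
    refine le_trans ?_ T.g0.le
    rw [le_div_iff₀ (by linarith)]
    linarith
  have g2 : 1 ≤ g := g1.trans T.g1.le
  have ll : log g₀ < log g := log_lt_log (by linarith) T.g1
  have n1 : Nu1 k (√e ^ 2) √C := ee.symm ▸ T.nu
  obtain ⟨x1, -, x3⟩ := DQ.sLX m lg _ _ _ B G H
  have L : Lz dX (ur A lg) :=
    lz_max (DQ.sLZ m lg _ _ _ B G H k k0 HS) (sLZ87 m lg _ _ _ B G H D N k k0 hf)
  refine ⟨fun x x' z w hw => (abs_max_sub_max_le_max _ _ _ _).trans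
    (max_le (x1 x x' z w hw) (DR.sLX m lg _ _ _ B G H D N x x' z w hw)), L, fun x z w hz hw => ?_,
    sREG m lg _ _ _ B G H _ _, ⟨log g / 2 - log g₀ / 2, by linarith, fun x x' h z ⟨y, a, b⟩ =>
      ⟨y, x3 _ _ x x' h a, b⟩⟩,
    sINW2 m lg _ _ _ B G H D N sMS (cu_of B.self L) _ S T.s0
      (by rw [mul_div_cancel₀ _ two_ne_zero, exp_log (by linarith)]; exact T.far)
      (sJU sHEL m lg _ _ _ B G H D g₀ T.g0)⟩
  rcases sATT m lg _ _ _ B G H D N x z w hw with a | ⟨y, a⟩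
  · obtain ⟨p, rfl, p1, p2, -⟩ := H.max x z w hw
    have b : exp (ur A lg (A.pr p) z w) = gq (A.β p) (A.ν p) (z, w) := by
      rw [a, p2, exp_log p1]
    refine sTI m lg k _ √C _ _ (fun q => ur A lg (A.pr p) q.1 q.2) z w B.yw (B.isb p) (B.b1 p)
      (HS p z) k0 n1 hw (cc.symm ▸ sCI sCB m lg _ _ _ B G H D N g S C p z w g2 T.cb hz hw b) b
      fun q hq => ?_
    obtain ⟨p', -, q1, q2, q3⟩ := H.max (A.pr p) q.1 q.2 hq
    refine (q3 p rfl).trans ?_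
    rw [← exp_log q1, ← q2]
    exact exp_le_exp.2 (le_max_left _ _)
  · exact sTF m lg k _ √C _ (fun q => ur A lg x q.1 q.2) z w y B.yw hf k0 n1 hw
      (cc.symm ▸ sCF sCB m lg _ _ _ B G H D N hy g S C x z w y g2 T.cb hz hw a) a
      fun q hq => (N.low x q.1 q.2 y hq).trans (le_max_right _ _)

theorem main_of3 {k e c g₀ g₁ S : ℝ} (k0 : 0 ≤ k) (T : Tab3 dm k e c g₀ g₁ S) :
    SLN.MainZ ((1 + k) ^ 2 - 1) := by
  have ee : √e ^ 2 = e := sq_sqrt T.e0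
  have d3 : (3 : ℝ) ≤ dm := by exact_mod_cast Nat.le_add_left 3 _
  have g1 : 0 < g₀ := lt_trans (by positivity) T.g0
  have ll : log g₀ / 2 ≤ log g₁ / 2 := by linarith [log_lt_log g1 T.g1]
  intro g h C C' Γ Λ _ _ _ _ Φ Ψ ρ G₀ qg qh cg ch dΓ dΛ cj₀ kh
  have kh' : TB.CurvLe h 1 := ⟨C', ch, fun x u v => by simpa using (kh x u v).2⟩
  obtain ⟨m₀, o₀, l₀⟩ := sFRM g C Γ Φ qg cg
  obtain ⟨m, o, l⟩ := sFRM h C' Λ Ψ qh ch
  have j := sJAC m o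
  obtain ⟨O, aO⟩ := sACT h C' Λ Ψ qh ch m o l dΛ
  obtain ⟨lg, hl, hd⟩ := DNFL.had h C' Λ Ψ qh ch m 1 o j l one_pos kh'
  obtain ⟨-, s, F, -, cj, fp⟩ :=
    DNFL.flp g h C C' Γ Λ Φ Ψ ρ G₀ qg qh cg ch dΓ dΛ cj₀ 1 one_pos kh'
  have cs : ∀ u v : V, 0 ≤ ‖u‖ ^ 2 * ‖v‖ ^ 2 - ⟪u, v⟫ ^ 2 := fun u v => by
    have := real_inner_mul_inner_self_le u v
    rw [real_inner_self_eq_norm_sq, real_inner_self_eq_norm_sq] at this
    nlinarith
  have u1 : m.Up 1 := fun y u v => by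
    have := (kh y (m.R y u) (m.R y v)).2
    rw [(l.sec o y u v).1, ← (l.sec o y u v).2]
    linarith
  have d1 : m.Dn ((1 + k) ^ 2) := fun y u v => by
    have := (kh y (m.R y u) (m.R y v)).1
    rw [(l.sec o y u v).1, ← (l.sec o y u v).2]
    linarith
  have u0 : m.Up 0 := fun y u v =>
    le_trans (mul_le_mul_of_nonneg_right zero_le_one (cs u v)) (u1 y u v)
  have yw : YW m lg := ⟨o, j, hl, u0⟩
  have as := sASY h C' Λ Ψ qh ch kh'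
  obtain ⟨ν, hν⟩ := sEXA h C' Λ Ψ qh ch m lg kh' as yw l hd
  have nb : NB h C' Ψ m lg ν := ⟨kh', yw, l, hd, as, sBC h C' Λ Ψ qh ch kh', fun w => (hν w).1,
    fun w => sB1 m lg _ _ yw (hν w).1, fun w => (hν w).2⟩
  have B := sBF sMOV sLIP sGR g h C C' Γ Λ Φ Ψ ρ F qg qh cg ch dΓ dΛ cj m lg ν nb fp
  have G := sBG m lg _ _ _ B
  have H := DQ.sBH m lg _ _ _ B G
  have X := xw g C Γ Φ qg cg m₀ o₀ l₀
  have b1 : (1 : ℝ) ≤ 1 + k := by linarith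
  have HS : ∀ p z, Hs m k ((fam Ψ F ν).ν p) z := fun p z => by
    have := DQ.sHES m lg (1 + k) _ _ yw b1 (B.isb p)
      (DQ.sHD m lg _ yw b1 (DQ.sJ2 m _ o j b1 u1 d1))
      (DQ.sAP m lg _ _ yw (DQ.sTH m lg yw) (B.isb p) (B.b1 p)) z
    rwa [add_sub_cancel_left] at this
  obtain ⟨hy, hb⟩ := sHY m lg yw (sHN h C' Λ Ψ qh ch m lg 1 o l one_pos kh' hd)
  have hf : Hf m lg k := sHF m lg k yw k0 (by
    have := sHE m lg (1 + k) yw b1 u1 d1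
    rwa [add_sub_cancel_left] at this)
  have D := sDD m lg _ _ _ B G H
  have N := sNR m lg _ _ _ B G H D hb
  have S' := sq_of3 k0 T B G H D N hy hf HS
  have ε4 : ((dm : ℝ) - 1) * √e ^ 2 < 4 := ee.symm ▸ T.e4
  obtain ⟨f, Z⟩ := DR.sZERO m₀ m lg _ _ _ _ _ _ sMS X yw ε4 S'
  have L := DR.sFL m₀ m lg _ _ _ _ _ _ sMS X yw ε4 S' f Z
  have J := DR.sJA m₀ m lg _ _ _ _ _ _ sMS X yw ε4 S' f Z L
  have E := DR.sEQV g h C C' Γ Λ Φ Ψ ρ F qg qh cg ch dΓ dΛ cj m lg ν O _ _ _ f sMS nb aO ll Z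
  have Su := sONTO g h C C' Γ Λ Φ Ψ ρ F qg qh cg ch dΓ dΛ cj m lg ν f
    (log g₀ / 2 + 1 + arsinh S) nb L.continuous fun p => by
      obtain ⟨y, a, b⟩ := Z.mem p.1.1
      have a1 := G.near p y _ a
      have a2 : ‖lg (f p.1.1, y)‖ ≤ arsinh S := by
        rw [← arsinh_sinh ‖lg (f p.1.1, y)‖]
        exact arsinh_le_arsinh.2 b
      have a3 : ‖lg (y, f p.1.1)‖ = ‖lg (f p.1.1, y)‖ := by rw [hl.rev, norm_neg, j.norm]
      exact (hl.tri _ y _).trans (add_le_add a1 (a3 ▸ a2))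
  have J' := J.mono fun x hx => DR.sJB _ _ _ sMS ε4 hx.2
  have W := sVOL RVOL.veq RVOL.area g h C C' Γ Λ Φ Ψ ρ F qg qh cg ch dΓ dΛ cj m₀ m f kh' o₀ o l₀ l
    L Su E (J'.mono fun x hx => hx.1)
  refine sEND2 g h C C' Γ Λ Φ Ψ ρ F qg qh cg ch dΓ dΛ cj m₀ m lg ν f o₀ (sJAC m₀ o₀) l₀ nb
    L.continuous ?_
  filter_upwards [J, J', W] with x h1 h2 h3
  exact ⟨h1.1, DR.sEND1 m lg _ _ _ B G H D N sMS (cu_of B.self S'.lipz) x (f x) (h2.2 h3)⟩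

theorem main_tab {k e c g₀ g₁ S l : ℝ} (k0 : 0 ≤ k) (T : Tab dm k e c g₀ g₁ S l) :
    SLN.MainZ ((1 + k) ^ 2 - 1) :=
  main_of sNU1 sHY sHE sHF sCB sTF sTI sDD sNR sATT sCF sCI DR.sLX sLZ87 sREG sHEL sJU sM4 s24
    DR.sINW DR.sZERO DR.sFL DR.sJA DR.sJB DR.sEND1 DR.sEQV k0 T

theorem main3 :
    SLN.MainZ ((1 + max (61 / (10 * (dm : ℝ))) (129 / (100 * √(dm : ℝ)))) ^ 2 - 1) := by
  have d3 : 3 ≤ dm := Nat.le_add_left 3 _
  rcases max_choice (61 / (10 * (dm : ℝ))) (129 / (100 * √(dm : ℝ))) with h | h <;> rw [h]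
  · obtain ⟨e, C, g₀, g, S, l, T⟩ := sTAB dm d3
    exact main_tab (by positivity) T
  · obtain ⟨e, C, g₀, g, S, T⟩ := sTAB3 (N := dm) (by exact_mod_cast d3)
    exact main_of3 (by positivity) T

theorem main4 : SLN.MainZ ((1 + max (max (61 / (10 * (dm : ℝ))) (3 / (dm : ℝ) ^ (3 / 4 : ℝ)))
    (129 / (100 * √(dm : ℝ)))) ^ 2 - 1) := by
  have d3 : 3 ≤ dm := Nat.le_add_left 3 _
  rcases max_choice (max (61 / (10 * (dm : ℝ))) (3 / (dm : ℝ) ^ (3 / 4 : ℝ)))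
    (129 / (100 * √(dm : ℝ))) with h | h <;> rw [h]
  · obtain ⟨e, C, g₀, g, S, l, T⟩ := sTAB2 dm d3
    exact main_tab (le_max_of_le_left (by positivity)) T
  · obtain ⟨e, C, g₀, g, S, T⟩ := sTAB3 (N := dm) (by exact_mod_cast d3)
    exact main_of3 (by positivity) T

end Pool.Agent.MP_3ee8cb_gt.DR
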