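import Pool.Agent.MP_3ee8cb_gt.DR.Spec
import Pool.Agent.MP_3ee8cb_gt.DQ.RLZ

/-! The supremum over finite centres is Lipschitz. -/

namespace Pool.Agent.MP_3ee8cb_gt.DR

open DN (Dim dm)

variable [Dim]

open Set Filter Topology Real DN DZ DQ Metric
open PX (be)
open scoped RealInnerProductSpace

namespace L80

omit [Dim] in
theorem ea (s t : ℝ) : exp (arsinh s) ≤ exp (arsinh t) + 2 * |s - t| := by
  rw [exp_arsinh, exp_arsinh]
  have h1 : √(1 + s ^ 2) ≤ √(1 + t ^ 2) + |s - t| := by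
    have a0 := Real.sqrt_nonneg (1 + t ^ 2)
    have a1 := Real.sq_sqrt (show 0 ≤ 1 + t ^ 2 by positivity)
    have a2 : |t| ≤ √(1 + t ^ 2) := Real.abs_le_sqrt (by linarith)
    have a3 : t * (s - t) ≤ √(1 + t ^ 2) * |s - t| := by
      refine (le_abs_self _).trans ?_
      rw [abs_mul]
      exact mul_le_mul_of_nonneg_right a2 (abs_nonneg _)
    refine Real.sqrt_le_iff.2 ⟨by positivity, ?_⟩
    nlinarith [sq_abs (s - t)]
  linarith [le_abs_self (s - t)]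

omit [Dim] in
theorem lg_le {t u d M : ℝ} (hd : 0 ≤ d) (hu : -M ≤ u) (h : exp t ≤ exp u + d) :
    t ≤ u + exp M * d := by
  have h1 : 1 ≤ exp u * exp M := by
    rw [← exp_add]
    exact one_le_exp (by linarith)
  rw [← exp_le_exp, exp_add]
  nlinarith [mul_le_mul_of_nonneg_left (add_one_le_exp (exp M * d)) (exp_pos u).le,
    mul_le_mul_of_nonneg_right h1 hd]

theorem norm_sh (ξ : V) : ‖PX.Sh ξ‖ = sinh ‖ξ‖ := by
  rcases eq_or_ne ξ 0 with h | h
  · simp [PX.Sh, h]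
  · have := norm_pos_iff.2 h
    rw [PX.Sh, norm_smul, Real.norm_of_nonneg (div_nonneg (sinh_nonneg_iff.2 this.le) this.le),
      div_mul_cancel₀ _ this.ne']

variable {m : MF} {lg : V × V → V}

/-- The derivative in the point. -/
theorem dsh {h B : ℝ} (h0 : 0 ≤ h) (H : Hf m lg h) {z : V} (y : V) (b1 : ‖m.S z‖ ≤ B)
    (b2 : ‖m.om z‖ ≤ B) : DifferentiableAt ℝ (fun z => PX.Sh (lg (z, y))) z ∧
      ‖fderiv ℝ (fun z => PX.Sh (lg (z, y))) z‖ ≤ (h + 3) * B * exp ‖lg (z, y)‖ := by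
  obtain ⟨E, s, -, p, D, hD, e⟩ := H z y
  have B0 : 0 ≤ B := (norm_nonneg _).trans b1
  have s0 : 0 ≤ sinh ‖lg (z, y)‖ := sinh_nonneg_iff.2 (norm_nonneg _)
  have c0 := cosh_pos ‖lg (z, y)‖
  have x0 := cosh_add_sinh ‖lg (z, y)‖
  have x1 := one_le_cosh ‖lg (z, y)‖
  refine ⟨hD.differentiableAt, ?_⟩
  rw [hD.fderiv]
  refine ContinuousLinearMap.opNorm_le_bound _ (by positivity) fun u => ?_
  have k1 : ‖m.S z u‖ ≤ B * ‖u‖ := (m.S z).le_of_opNorm_le b1 u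
  have k2 : ‖m.om z u (PX.Sh (lg (z, y)))‖ ≤ B * ‖u‖ * sinh ‖lg (z, y)‖ := by
    have := (m.om z u).le_opNorm (PX.Sh (lg (z, y)))
    rw [norm_sh] at this
    exact this.trans (mul_le_mul_of_nonneg_right ((m.om z).le_of_opNorm_le b2 u) s0)
  have k3 : ‖cosh ‖lg (z, y)‖ • m.S z u‖ ≤ cosh ‖lg (z, y)‖ * (B * ‖u‖) := by
    rw [norm_smul, Real.norm_of_nonneg c0.le]
    exact mul_le_mul_of_nonneg_left k1 c0.le
  have k4 := (LZx.opn (mul_nonneg h0 s0) s p (m.S z u)).trans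
    (mul_le_mul_of_nonneg_left k1 (by positivity))
  have k5 := norm_sub_le (D u + m.om z u (PX.Sh (lg (z, y)))) (m.om z u (PX.Sh (lg (z, y))))
  rw [add_sub_cancel_right, e, norm_neg] at k5
  have k6 := norm_add_le (cosh ‖lg (z, y)‖ • m.S z u) (E (m.S z u))
  have k7 : 0 ≤ B * ‖u‖ := by positivity
  rw [← x0]
  nlinarith [mul_nonneg k7 s0, mul_nonneg k7 c0.le, mul_nonneg (mul_nonneg k7 c0.le) h0,
    mul_le_mul_of_nonneg_left x1 k7]

end L80

open L80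

theorem lz80 : SLZ := by
  intro m lg dX P _ A hb _ _ dd nr h h0 H x₀ R
  obtain ⟨M, hM⟩ := LZx.bdd hb x₀ R
  have c := isCompact_closedBall (0 : V) R
  obtain ⟨B1, h1⟩ := c.exists_bound_of_continuousOn hb.yw.ok.cS.continuous.continuousOn
  have co : Continuous fun y => ‖m.om y‖ :=
    (continuous_norm (E := V →L[ℝ] V →L[ℝ] V)).comp hb.yw.ok.com.continuous
  obtain ⟨B2, h3⟩ := c.bddAbove_image co.continuousOn
  have h2 : ∀ y ∈ closedBall (0 : V) R, ‖m.om y‖ ≤ B2 := fun y hy => h3 ⟨y, hy, rfl⟩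
  have B0 : 0 ≤ max (max B1 B2) 0 := le_max_right _ _
  have l1 : B1 ≤ max (max B1 B2) 0 := (le_max_left _ _).trans (le_max_left _ _)
  have l2 : B2 ≤ max (max B1 B2) 0 := (le_max_right _ _).trans (le_max_left _ _)
  generalize max (max B1 B2) 0 = B at B0 l1 l2
  refine ⟨_, fun x hx => LipschitzOnWith.of_le_add_mul'
    (exp M * (2 * (((h + 3) * B + 1) * exp M))) fun q hq q' hq' => ?_⟩
  have hD : ∀ z, ‖z‖ ≤ R → Dm A x z ≤ M := fun z hz => by
    obtain ⟨p, e, e1⟩ := dd.max x z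
    rw [e1]
    exact le_of_abs_le (hM p (e ▸ hx) z hz)
  have lo : -M ≤ uf A lg x q'.1 q'.2 := by
    have k := nr.low x q'.1 q'.2 q'.1 hq'.2
    have l0 : lg (q'.1, q'.1) = 0 := by
      have k0 := hb.yw.jac.scale 1 0 q'.1 0
      rw [zero_smul, zero_mul, hb.yw.ok.zero] at k0
      have := hb.yw.had.xe q'.1 0
      rwa [k0] at this
    rw [be, l0] at k
    simp only [PX.Sh, smul_zero, inner_zero_right, arsinh_zero] at k
    linarith [hD _ hq'.1]
  refine ciSup_le fun y => ?_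
  rw [mul_assoc]
  refine lg_le (by positivity) lo ?_
  have hE : ∀ z, ‖z‖ ≤ R → exp ‖lg (z, y)‖ ≤ exp M * exp (Dm A x y) := fun z hz => by
    rw [← exp_add]
    exact exp_le_exp.2 ((dd.tri x z y).trans (add_le_add_left (hD z hz) _))
  have d := fun z (hz : z ∈ closedBall (0 : V) R) =>
    dsh h0 H y ((h1 z hz).trans l1) ((h2 z hz).trans l2)
  have k1 := (convex_closedBall (0 : V) R).norm_image_sub_le_of_norm_fderiv_le (𝕜 := ℝ)
    (C := (h + 3) * B * (exp M * exp (Dm A x y))) (fun z hz => (d z hz).1)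
    (fun z hz => (d z hz).2.trans (mul_le_mul_of_nonneg_left (hE z (by simpa using hz))
      (by positivity))) (x := q'.1) (y := q.1) (by simpa using hq'.1) (by simpa using hq.1)
  have d1 : ‖q.1 - q'.1‖ ≤ dist q q' := by
    rw [← dist_eq_norm, Prod.dist_eq]
    exact le_max_left _ _
  have d2 : ‖q.2 - q'.2‖ ≤ dist q q' := by
    rw [← dist_eq_norm, Prod.dist_eq]
    exact le_max_right _ _
  have k2 : ‖PX.Sh (lg (q'.1, y))‖ ≤ exp M * exp (Dm A x y) := by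
    rw [norm_sh]
    refine le_trans ?_ (hE _ hq'.1)
    linarith [cosh_add_sinh ‖lg (q'.1, y)‖, cosh_pos ‖lg (q'.1, y)‖]
  have i1 := abs_real_inner_le_norm q.2 (PX.Sh (lg (q.1, y)) - PX.Sh (lg (q'.1, y)))
  have i2 := abs_real_inner_le_norm (q.2 - q'.2) (PX.Sh (lg (q'.1, y)))
  rw [hq.2, one_mul, inner_sub_right] at i1
  rw [inner_sub_left] at i2
  have k3 := k1.trans (mul_le_mul_of_nonneg_left d1 (by positivity))
  have k4 := mul_le_mul d2 k2 (norm_nonneg _) dist_nonneg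
  have k5 := abs_sub_le ⟪q.2, PX.Sh (lg (q.1, y))⟫ ⟪q.2, PX.Sh (lg (q'.1, y))⟫
    ⟪q'.2, PX.Sh (lg (q'.1, y))⟫
  have k6 := ea ⟪q.2, PX.Sh (lg (q.1, y))⟫ ⟪q'.2, PX.Sh (lg (q'.1, y))⟫
  have k7 := exp_le_exp.2 (nr.low x q'.1 q'.2 y hq'.2)
  have p0 := exp_pos (Dm A x y)
  rw [exp_sub, div_le_iff₀ p0] at k7 ⊢
  simp only [be] at k7 ⊢
  nlinarith

theorem lx80 : SLX := by
  intro m lg dX P _ A _ _ _ dd nr x x' z w hw
  have k : ∀ x x' d, (∀ y, Dm A x' y - Dm A x y ≤ d) → uf A lg x z w ≤ uf A lg x' z w + d :=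
    fun x x' d hd => ciSup_le fun y => by linarith [nr.low x' z w y hw, hd y]
  have k1 := k x x' (dX x x') fun y => by linarith [neg_le_of_abs_le (dd.lx x x' y)]
  have k2 := k x' x _ fun y => le_of_abs_le (dd.lx x x' y)
  exact abs_le.2 ⟨by linarith, by linarith⟩

end Pool.Agent.MP_3ee8cb_gt.DR
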