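import Pool.Agent.MP_3ee8cb_gt.DR.Spec
import Pool.Agent.MP_3ee8cb_gt.DRK.Jung

/-! The rows on the centre. -/

namespace Pool.Agent.MP_3ee8cb_gt.DR

open DN (Dim dm)

variable [Dim]

theorem sHEL : SHEL := by
  intro A η _ hu hη
  obtain ⟨v, hv⟩ := DRK.helly (ι := A) (fun a => a.1) η (fun a => hu a.1 a.2)
    fun a b => hη a.1 a.2 b.1 b.2
  rcases A.eq_empty_or_nonempty with rfl | ⟨a, ha⟩
  · exact ⟨0, by simp, fun a ha => ha.elim⟩
  · exact ⟨v, (hv ⟨a, ha⟩).1, fun b hb => (hv ⟨b, hb⟩).2⟩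

theorem sJU : SJU := fun _ m lg dX P _ A hF hG hH _ => DRK.jung m lg dX P A hF hG hH

end Pool.Agent.MP_3ee8cb_gt.DR
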