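import Pool.Agent.MP_3ee8cb_gt.DR.Top
import Pool.Agent.MP_3ee8cb_gt.DR.B80LZ
import Pool.Agent.MP_3ee8cb_gt.DR.RATT
import Pool.Agent.MP_3ee8cb_gt.DR.RCB
import Pool.Agent.MP_3ee8cb_gt.DR.RDD
import Pool.Agent.MP_3ee8cb_gt.DR.REND1
import Pool.Agent.MP_3ee8cb_gt.DR.REQV
import Pool.Agent.MP_3ee8cb_gt.DR.RHE
import Pool.Agent.MP_3ee8cb_gt.DR.RHY
import Pool.Agent.MP_3ee8cb_gt.DR.RINW
import Pool.Agent.MP_3ee8cb_gt.DR.RJB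
import Pool.Agent.MP_3ee8cb_gt.DR.RJU
import Pool.Agent.MP_3ee8cb_gt.DR.RM4
import Pool.Agent.MP_3ee8cb_gt.DR.RNR
import Pool.Agent.MP_3ee8cb_gt.DR.RNU1
import Pool.Agent.MP_3ee8cb_gt.DR.RPORT
import Pool.Agent.MP_3ee8cb_gt.DR.RREG
import Pool.Agent.MP_3ee8cb_gt.DR.RS24
import Pool.Agent.MP_3ee8cb_gt.DR.RTAB
import Pool.Agent.MP_3ee8cb_gt.DR.RTF
import Pool.Agent.MP_3ee8cb_gt.DR.RTI

/-! Rigidity under the larger explicit pinching. -/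

namespace Pool.Agent.MP_3ee8cb_gt.DR

open DN (Dim dm)

variable [Dim]

theorem main_tab {k e c g₀ g₁ S l : ℝ} (k0 : 0 ≤ k) (T : Tab dm k e c g₀ g₁ S l) :
    SLN.MainZ ((1 + k) ^ 2 - 1) :=
  main_of sNU1 sHY sHE sHF sCB sTF sTI sDD sNR sATT sCF sCI sLX lz80 sREG sHEL sJU sM4 s24 sINW
    sZERO sFL sJA sJB sEND1 sEQV k0 T

theorem main : SLN.MainZ ((1 + 61 / (10 * (dm : ℝ))) ^ 2 - 1) := by
  obtain ⟨e, c, g₀, g₁, S, l, T⟩ := sTAB dm (Nat.le_add_left 3 _)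
  exact main_tab (by positivity) T

end Pool.Agent.MP_3ee8cb_gt.DR
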