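import Pool.Agent.MP_3ee8cb_gt.DR.Spec
import Pool.Agent.MP_3ee8cb_gt.DNWI.Base

/-! The supremum over finite centres is attained when it matters. -/

namespace Pool.Agent.MP_3ee8cb_gt.DR

open DN (Dim dm)

variable [Dim]

open Set Filter Topology Real DN DZ DQ
open scoped RealInnerProductSpace
open PX (be)

namespace A7

theorem pol (η : V) : ∃ v : V, ‖v‖ = 1 ∧ η = ‖η‖ • v ∧ PX.Sh η = sinh ‖η‖ • v := by
  by_cases h : η = 0
  · exact ⟨EuclideanSpace.single (⟨0, by simp [dm]⟩ : Fin dm) 1, by simp, by simp [h],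
      by simp [h, PX.Sh]⟩
  · have := norm_ne_zero_iff.2 h
    exact ⟨‖η‖⁻¹ • η, by simp [norm_smul, this], by simp [smul_smul, this],
      by rw [PX.Sh, smul_smul, div_eq_mul_inv]⟩

theorem nsh (η : V) : ‖PX.Sh η‖ = sinh ‖η‖ := by
  obtain ⟨v, h1, -, h2⟩ := pol η
  rw [h2, norm_smul, h1, mul_one, norm_of_nonneg (sinh_nonneg_iff.2 (norm_nonneg _))]

theorem csh : Continuous PX.Sh := continuous_iff_continuousAt.2 fun η => by
  by_cases h : η = 0
  · subst h
    rw [ContinuousAt, show PX.Sh (0 : V) = 0 by simp [PX.Sh], tendsto_zero_iff_norm_tendsto_zero]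
    simp only [nsh]
    exact (continuous_sinh.comp continuous_norm).tendsto' 0 0 (by simp)
  · exact ((continuous_sinh.comp continuous_norm).continuousAt.div continuous_norm.continuousAt
      (norm_ne_zero_iff.2 h)).smul continuousAt_id

omit [Dim] in
theorem ex_le {d c : ℝ} (hd : 0 ≤ d) : exp (arsinh (sinh d * c)) ≤ 1 + exp d * max c 0 := by
  have h0 := sinh_nonneg_iff.2 hd
  have h1 : 2 * sinh d ≤ exp d := by
    rw [sinh_eq]
    linarith [exp_pos (-d)]
  have h2 : √(1 + (sinh d * c) ^ 2) ≤ 1 + |sinh d * c| :=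
    sqrt_le_iff.2 ⟨by positivity, by nlinarith [abs_nonneg (sinh d * c), sq_abs (sinh d * c)]⟩
  rw [exp_arsinh]
  rcases le_total c 0 with h | h
  · rw [abs_of_nonpos (mul_nonpos_of_nonneg_of_nonpos h0 h)] at h2
    rw [max_eq_right h]
    linarith
  · rw [abs_of_nonneg (mul_nonneg h0 h)] at h2
    rw [max_eq_left h]
    nlinarith

end A7

theorem att7 : SATT := by
  intro m lg dX P _ A h g k D N x z w hw
  rcases le_or_gt (uf A lg x z w) (uq A x z w) with c | c
  · exact .inl (max_eq_left c)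
  have bd : ∀ y, exp (be lg z w y - Dm A x y) ≤
      exp (uq A x z w) + exp (Dm A x z - ‖lg (z, y)‖) := fun y => by
    obtain ⟨e, e1, e2, e3⟩ := A7.pol (lg (z, y))
    obtain ⟨p, p1, p2⟩ := g.onto x z e e1
    obtain ⟨q, -, q1, q2, q3⟩ := k.max x z w hw
    have f := D.far p z ‖lg (z, y)‖
    have e4 := h.yw.had.ex z y
    rw [e2, DNWI.one_smul' h.yw.jac _ (z, e)] at e4
    rw [p2, p1, show (m.Z ‖lg (z, y)‖ (z, e)).1 = y from e4] at f
    have a1 := A7.ex_le (c := ⟪w, e⟫) (norm_nonneg (lg (z, y)))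
    have a2 : exp (-Dm A x y) ≤ exp (A.β p z - ‖lg (z, y)‖) := exp_le_exp.2 (by linarith)
    have a3 : exp (A.β p z - ‖lg (z, y)‖) ≤ exp (Dm A x z - ‖lg (z, y)‖) :=
      exp_le_exp.2 (by linarith [p1 ▸ D.le p z])
    have a4 : exp (A.β p z) * max ⟪w, e⟫ 0 ≤ exp (uq A x z w) := by
      rw [q2, exp_log q1, mul_max_of_nonneg _ _ (exp_pos _).le, mul_zero]
      refine max_le (le_trans (le_of_eq ?_) (q3 p p1)) q1.le
      rw [gq, p2, real_inner_comm]
    have a5 : exp (A.β p z) = exp ‖lg (z, y)‖ * exp (A.β p z - ‖lg (z, y)‖) := by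
      rw [← exp_add, add_sub_cancel]
    rw [sub_eq_add_neg, exp_add, be, e3, real_inner_smul_right]
    refine (mul_le_mul a1 a2 (exp_pos _).le ((exp_pos _).le.trans a1)).trans ?_
    rw [a5] at a4
    linarith
  obtain ⟨t, t1, t2⟩ := exists_between (exp_lt_exp.2 c)
  have t0 := (exp_pos _).trans t1
  obtain ⟨R, hR⟩ : ∃ R, R = |Dm A x z - log (t - exp (uq A x z w))| := ⟨_, rfl⟩
  have c1 := h.yw.had.c1.continuous
  have c2 := (DNWI.Z_c1 h.yw.ok 1).continuous
  have c3 : Continuous fun y => be lg z w y - Dm A x y := by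
    have := A7.csh
    refine .sub (continuous_arsinh.comp ?_) (D.cont x)
    fun_prop
  obtain ⟨b, -, hb⟩ := (isCompact_closedBall (0 : V) R).exists_isMaxOn
    (Metric.nonempty_closedBall.2 (hR ▸ abs_nonneg _))
    (c3.comp (f := fun b => (m.Z 1 (z, b)).1) (by fun_prop)).continuousOn
  refine .inr ⟨(m.Z 1 (z, b)).1, (max_eq_right c.le).trans (le_antisymm ?_ (N.low x z w _ hw))⟩
  have lt : log t < uf A lg x z w := (log_lt_iff_lt_exp t0).2 t2
  refine (le_max_iff.1 (ciSup_le fun y => ?_ : uf A lg x z w ≤ max _ (log t))).resolve_right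
    lt.not_ge
  rcases le_total ‖lg (z, y)‖ R with r | r
  · have := hb (mem_closedBall_zero_iff.2 r)
    simp only [mem_ofPred_eq, Function.comp, h.yw.had.ex] at this
    exact le_max_of_le_left this
  · refine le_max_of_le_right ((le_log_iff_exp_le t0).2 ((bd y).trans ?_))
    have : exp (Dm A x z - ‖lg (z, y)‖) ≤ t - exp (uq A x z w) :=
      (le_log_iff_exp_le (sub_pos.2 t1)).1
        (by linarith [le_abs_self (Dm A x z - log (t - exp (uq A x z w)))])
    linarith

end Pool.Agent.MP_3ee8cb_gt.DR
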