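import Pool.Agent.MP_3ee8cb_gt.DR.Spec
import Pool.Agent.MP_3ee8cb_gt.DQ.RLZ

/-! The supremum over finite centres is Lipschitz. -/

namespace Pool.Agent.MP_3ee8cb_gt.DR

open DN (Dim dm)

variable [Dim]

open Set Filter Topology Real DN DZ DQ Metric
open scoped RealInnerProductSpace
open PX (be)

namespace L87

omit [Dim] in
theorem two (s t : ℝ) : exp (arsinh s) ≤ exp (arsinh t) + 2 * |s - t| := by
  rw [exp_arsinh, exp_arsinh]
  have h0 := sqrt_nonneg (1 + t ^ 2)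
  have h1 : √(1 + t ^ 2) ^ 2 = 1 + t ^ 2 := sq_sqrt (by positivity)
  have h2 : |t| ≤ √(1 + t ^ 2) := abs_le_sqrt (by linarith)
  have h3 := abs_nonneg (s - t)
  have h4 : t * (s - t) ≤ √(1 + t ^ 2) * |s - t| := by
    refine (le_abs_self _).trans ?_
    rw [abs_mul]
    exact mul_le_mul_of_nonneg_right h2 h3
  have h5 : √(1 + s ^ 2) ≤ √(1 + t ^ 2) + |s - t| := by
    refine sqrt_le_iff.2 ⟨by positivity, ?_⟩
    nlinarith [sq_abs (s - t)]
  linarith [le_abs_self (s - t)]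

theorem nsh (ξ : V) : ‖PX.Sh ξ‖ ≤ cosh ‖ξ‖ := by
  have h := (sinh_lt_cosh ‖ξ‖).le
  have h0 : 0 ≤ sinh ‖ξ‖ := sinh_nonneg_iff.2 (norm_nonneg _)
  by_cases hx : ξ = 0
  · rw [PX.Sh, hx, smul_zero, norm_zero, cosh_zero]
    norm_num
  · have : 0 < ‖ξ‖ := norm_pos_iff.2 hx
    rw [PX.Sh, norm_smul, Real.norm_of_nonneg (by positivity), div_mul_cancel₀ _ this.ne']
    exact h

variable {m : MF} {lg : V × V → V} {dX : V → V → ℝ} {P : Type} [TopologicalSpace P] {A : Fam P}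

theorem dsh {h B : ℝ} (h0 : 0 ≤ h) (H : Hf m lg h) (z y : V)
    (b1 : ‖m.S z‖ ≤ B) (b2 : ‖m.om z‖ ≤ B) :
    DifferentiableAt ℝ (fun z => PX.Sh (lg (z, y))) z ∧
      ‖fderiv ℝ (fun z => PX.Sh (lg (z, y))) z‖ ≤ (h + 3) * B * cosh ‖lg (z, y)‖ := by
  obtain ⟨E, s, -, p, D, hD, e⟩ := H z y
  have B0 : 0 ≤ B := (norm_nonneg _).trans b1
  have c1 := one_le_cosh ‖lg (z, y)‖
  have c2 := (sinh_lt_cosh ‖lg (z, y)‖).le
  have c3 : 0 ≤ sinh ‖lg (z, y)‖ := sinh_nonneg_iff.2 (norm_nonneg _)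
  have c4 := nsh (lg (z, y))
  refine ⟨hD.differentiableAt, ?_⟩
  rw [hD.fderiv]
  generalize cosh ‖lg (z, y)‖ = X at *
  generalize sinh ‖lg (z, y)‖ = Y at *
  generalize PX.Sh (lg (z, y)) = a at *
  refine ContinuousLinearMap.opNorm_le_bound _ (by positivity) fun u => ?_
  have k0 : 0 ≤ B * ‖u‖ := by positivity
  have k1 : ‖m.S z u‖ ≤ B * ‖u‖ := (m.S z).le_of_opNorm_le b1 u
  have k2 : ‖m.om z u a‖ ≤ B * ‖u‖ * X :=
    ((m.om z u).le_opNorm a).trans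
      (mul_le_mul ((m.om z).le_of_opNorm_le b2 u) c4 (norm_nonneg _) k0)
  have k3 : ‖X • m.S z u‖ ≤ X * (B * ‖u‖) := by
    rw [norm_smul, Real.norm_of_nonneg (by linarith)]
    exact mul_le_mul_of_nonneg_left k1 (by linarith)
  have k4 : ‖E (m.S z u)‖ ≤ (h * X + X) * (B * ‖u‖) :=
    (LZx.opn (by positivity) s p (m.S z u)).trans
      (mul_le_mul (by nlinarith) k1 (norm_nonneg _) (by positivity))
  have k5 := norm_sub_le (D u + m.om z u a) (m.om z u a)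
  rw [add_sub_cancel_right, e, norm_neg] at k5
  have k6 := norm_add_le (X • m.S z u) (E (m.S z u))
  nlinarith

end L87

open L87

theorem sLZ87 : SLZ := by
  intro m lg dX P _ A hb g hh hd hn h h0 H x₀ R
  obtain ⟨M, hM⟩ := LZx.bdd hb x₀ R
  have c := isCompact_closedBall (0 : V) R
  obtain ⟨B1, h1⟩ := c.exists_bound_of_continuousOn hb.yw.ok.cS.continuous.continuousOn
  have co : Continuous fun y => ‖m.om y‖ :=
    (continuous_norm (E := V →L[ℝ] V →L[ℝ] V)).comp hb.yw.ok.com.continuous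
  obtain ⟨B2, h3⟩ := c.bddAbove_image co.continuousOn
  have h2 : ∀ y ∈ closedBall (0 : V) R, ‖m.om y‖ ≤ B2 := fun y hy => h3 ⟨y, hy, rfl⟩
  have B0 : 0 ≤ max (max B1 B2) 0 := le_max_right _ _
  have l1 : B1 ≤ max (max B1 B2) 0 := (le_max_left _ _).trans (le_max_left _ _)
  have l2 : B2 ≤ max (max B1 B2) 0 := (le_max_right _ _).trans (le_max_left _ _)
  generalize max (max B1 B2) 0 = B at B0 l1 l2
  refine ⟨_, fun x hx => LipschitzOnWith.of_le_add_mul'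
    (exp M * (2 * (((h + 3) * B + 1) * exp M))) fun q hq q' hq' => ?_⟩
  have dM : ∀ z, ‖z‖ ≤ R → Dm A x z ≤ M := fun z hz => by
    obtain ⟨p, e, e'⟩ := hd.max x z
    rw [e']
    exact le_of_abs_le (hM p (e ▸ hx) z hz)
  have ch : ∀ z y, ‖z‖ ≤ R → cosh ‖lg (z, y)‖ ≤ exp M * exp (Dm A x y) := fun z y hz => by
    have a1 := hd.tri x z y
    have a2 := dM z hz
    have a3 : 0 ≤ sinh ‖lg (z, y)‖ := sinh_nonneg_iff.2 (norm_nonneg _)
    have a4 := cosh_add_sinh ‖lg (z, y)‖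
    have a5 : exp ‖lg (z, y)‖ ≤ exp (M + Dm A x y) := exp_le_exp.2 (by linarith)
    rw [exp_add] at a5
    linarith
  have d1 : ‖q.1 - q'.1‖ ≤ dist q q' := by
    rw [← dist_eq_norm, Prod.dist_eq]
    exact le_max_left _ _
  have d2 : ‖q.2 - q'.2‖ ≤ dist q q' := by
    rw [← dist_eq_norm, Prod.dist_eq]
    exact le_max_right _ _
  have d0 : 0 ≤ dist q q' := dist_nonneg
  have lo : -M ≤ uf A lg x q'.1 q'.2 := by
    have a1 := hn.low x q'.1 q'.2 q'.1 hq'.2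
    have a2 : lg (q'.1, q'.1) = 0 := by
      have := hb.yw.had.xe q'.1 0
      have e0 := hb.yw.jac.scale 1 0 q'.1 0
      rw [zero_smul, zero_mul, hb.yw.ok.zero] at e0
      rwa [e0] at this
    rw [be, a2, PX.Sh, smul_zero, inner_zero_right, arsinh_zero] at a1
    linarith [dM q'.1 hq'.1]
  refine ciSup_le fun y => ?_
  have a1 := hn.low x q'.1 q'.2 y hq'.2
  have mv : ‖PX.Sh (lg (q.1, y)) - PX.Sh (lg (q'.1, y))‖ ≤
      (h + 3) * B * (exp M * exp (Dm A x y)) * ‖q.1 - q'.1‖ := by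
    have d := fun z (hz : z ∈ closedBall (0 : V) R) =>
      dsh h0 H z y ((h1 z hz).trans l1) ((h2 z hz).trans l2)
    exact (convex_closedBall (0 : V) R).norm_image_sub_le_of_norm_fderiv_le (𝕜 := ℝ)
      (f := fun z => PX.Sh (lg (z, y))) (fun z hz => (d z hz).1)
      (fun z hz => (d z hz).2.trans
        (mul_le_mul_of_nonneg_left (ch z y (by simpa using hz)) (by positivity)))
      (by simpa using hq'.1) (by simpa using hq.1)
  have n1 := (nsh (lg (q'.1, y))).trans (ch q'.1 y hq'.1)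
  have t2 := two ⟪q.2, PX.Sh (lg (q.1, y))⟫ ⟪q'.2, PX.Sh (lg (q'.1, y))⟫
  have i0 : ⟪q.2, PX.Sh (lg (q.1, y))⟫ - ⟪q'.2, PX.Sh (lg (q'.1, y))⟫ =
      ⟪q.2, PX.Sh (lg (q.1, y)) - PX.Sh (lg (q'.1, y))⟫ + ⟪q.2 - q'.2, PX.Sh (lg (q'.1, y))⟫ := by
    rw [inner_sub_left, inner_sub_right]
    ring
  have i1 := abs_real_inner_le_norm q.2 (PX.Sh (lg (q.1, y)) - PX.Sh (lg (q'.1, y)))
  have i2 := abs_real_inner_le_norm (q.2 - q'.2) (PX.Sh (lg (q'.1, y)))
  rw [hq.2, one_mul] at i1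
  have i3 := abs_add_le ⟪q.2, PX.Sh (lg (q.1, y)) - PX.Sh (lg (q'.1, y))⟫
    ⟪q.2 - q'.2, PX.Sh (lg (q'.1, y))⟫
  rw [← i0] at i3
  have i4 := mul_le_mul d2 n1 (norm_nonneg _) d0
  have i5 := mul_le_mul_of_nonneg_left d1
    (by positivity : 0 ≤ (h + 3) * B * (exp M * exp (Dm A x y)))
  have j1 : exp (be lg q.1 q.2 y) ≤ exp (be lg q'.1 q'.2 y) +
      exp (Dm A x y) * (2 * (((h + 3) * B + 1) * exp M) * dist q q') := by
    simp only [be]
    nlinarith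
  have j2 : exp (be lg q'.1 q'.2 y) ≤ exp (Dm A x y) * exp (uf A lg x q'.1 q'.2) := by
    rw [← exp_add]
    exact exp_le_exp.2 (by linarith)
  have j3 : 1 ≤ exp (uf A lg x q'.1 q'.2) * exp M := by
    rw [← exp_add]
    exact one_le_exp (by linarith)
  have k0 : 0 ≤ 2 * (((h + 3) * B + 1) * exp M) * dist q q' := by positivity
  rw [mul_assoc]
  generalize 2 * (((h + 3) * B + 1) * exp M) * dist q q' = δ at *
  have j4 := add_one_le_exp (exp M * δ)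
  have j5 : exp (uf A lg x q'.1 q'.2) + δ ≤ exp (uf A lg x q'.1 q'.2) * exp (exp M * δ) := by
    nlinarith [mul_le_mul_of_nonneg_left j4 (exp_pos (uf A lg x q'.1 q'.2)).le,
      mul_le_mul_of_nonneg_right j3 k0]
  have j6 : exp (be lg q.1 q.2 y) ≤ exp (Dm A x y + (uf A lg x q'.1 q'.2 + exp M * δ)) := by
    rw [exp_add, exp_add]
    nlinarith [mul_le_mul_of_nonneg_left j5 (exp_pos (Dm A x y)).le]
  linarith [exp_le_exp.1 j6]

end Pool.Agent.MP_3ee8cb_gt.DR
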