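import Pool.Agent.MP_3ee8cb_gt.DR.Spec
import Pool.Agent.MP_3ee8cb_gt.DRK.D0

/-! Blocks HY, DD, NR and ATT. -/

namespace Pool.Agent.MP_3ee8cb_gt.DR.B92

open Set Filter Topology Real
open scoped RealInnerProductSpace
open DN (Dim dm)

variable [Dim]

open DN DZ DQ DRK
open PX (be)

theorem sHY : SHY := fun _ _ yw hi => ⟨hin_sh yw hi, b1 yw hi⟩

theorem sDD : SDD := by
  intro m lg dX P _ A f g _
  refine ⟨fun p y => le_Dd f rfl y, fun x y => ?_, fun x y R => (Dd_le f).symm,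
    fun x x' y => abs_le.2 ⟨?_, Dd_lx f x x' y⟩, Dd_ly f, Dd_cont f, Dd_tri f g, fun p z d => ?_⟩
  · obtain ⟨p, a, b, -⟩ := Dd_att f x y
    exact ⟨p, a, b⟩
  · have := Dd_lx' f x x' y
    change -dX x x' ≤ Dd A x y - Dd A x' y
    linarith
  · have a := (f.isb p).ray z d
    have b := le_Dd f (f.flp p).1 (m.Z d (z, A.ν p z)).1
    change _ ≤ Dd A _ _
    linarith [g.opp p (m.Z d (z, A.ν p z)).1]

theorem sNR : SNR := by
  intro m lg dX P _ A f g h _ b
  refine ⟨fun x z w y hw => le_ciSup (f := fun y => be lg z w y - Dm A x y)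
    ⟨be lg z w y + Dm A x y, ?_⟩ y, fun x z w y hw => ciSup_le fun y' => near_fin f g b x z y' y hw,
    fun x z w y hw => near_uq f h x z y hw⟩
  rintro _ ⟨y', rfl⟩
  exact near_fin f g b x z y' y hw

theorem sATT : SATT := by
  intro m lg dX P _ A f g h _ n x z w hw
  rcases le_or_gt (uf A lg x z w) (uq A x z w) with k | k
  · exact Or.inl (max_eq_left k)
  · obtain ⟨y₁, h1⟩ := exists_lt_of_lt_ciSup k
    obtain ⟨y, hy⟩ := att f g h hw h1
    exact Or.inr ⟨y, (max_eq_right k.le).trans (le_antisymm (ciSup_le hy) (n.low x z w y hw))⟩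

end Pool.Agent.MP_3ee8cb_gt.DR.B92
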