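import Pool.Agent.MP_3ee8cb_gt.DR.RCB
import Pool.Agent.MP_3ee8cb_gt.DZ.RZERO
import Pool.Agent.MP_3ee8cb_gt.NS.RIBP
import Pool.Agent.MP_3ee8cb_gt.NS.RJAN

/-! The averaged field points inwards outside a set whose size is bounded in the dimension. -/

namespace Pool.Agent.MP_3ee8cb_gt.DR

open Set Filter Topology MeasureTheory Real DQ
open scoped RealInnerProductSpace
open DN (Dim dm)

namespace IW2

theorem fin {X B s p X₀ B₀ s₀ g : ℝ} (hg : 1 ≤ g) (h1 : s ≤ B) (h2 : s₀ ≤ B₀) (h3 : 0 ≤ B₀)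
    (H : X * X₀ - p ≤ (B * B₀ - s * s₀) * ((g + g⁻¹) / 2) + (s * B₀ - B * s₀) * ((g - g⁻¹) / 2)) :
    X * X₀ - (p - s * s₀) ≤ B * (g * B₀ - (g - 1) * s₀) := by
  have g0 : 0 < g := by linarith
  have h4 : g⁻¹ ≤ 1 := inv_le_one_of_one_le₀ hg
  have h5 : 2 ≤ g + g⁻¹ := by nlinarith [mul_inv_cancel₀ g0.ne', inv_pos.2 g0]
  have h6 : 0 ≤ (g - g⁻¹) * B₀ - (g + g⁻¹ - 2) * s₀ := by
    nlinarith [mul_le_mul_of_nonneg_left h2 (sub_nonneg.2 h5), mul_nonneg h3 (sub_nonneg.2 h4)]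
  nlinarith [mul_nonneg (sub_nonneg.2 h1) h6]

theorem low {X B q X₀ B₀ s₀ g : ℝ} (hB : 0 < B) (hX : B ≤ X) (h0 : 0 ≤ X₀)
    (H : X * X₀ - q ≤ B * (g * B₀ - (g - 1) * s₀)) :
    X₀ - g * B₀ + (g - 1) * s₀ ≤ B⁻¹ * q := by
  rw [← div_eq_inv_mul, le_div_iff₀ hB]
  nlinarith [mul_le_mul_of_nonneg_right hX h0]

variable [Dim]

open DN DZ CBx

theorem pt {m : MF} {lg : V × V → V} {dX : V → V → ℝ} {P : Type} [TopologicalSpace P] {A : Fam P}
    (bf : BF m lg dX A) (bh : BH A) (dd : DD m lg dX A) (nr : NR lg A) (hy : Hy lg) {g : ℝ}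
    (hg : 1 ≤ g) {x z y₀ w : V} (h0 : y₀ ∈ A.C (log g / 2) x) (hw : ‖w‖ = 1)
    (att : ur A lg x z w = uq A x z w ∨ ∃ y, ur A lg x z w = PX.be lg z w y - Dm A x y)
    {c : ℝ → V} (hc : HasDerivAt c (PX.Sh (lg (z, y₀)) - ⟪w, PX.Sh (lg (z, y₀))⟫ • w) 0)
    (c0 : c 0 = w) (c1 : ∀ᶠ t in 𝓝 (0 : ℝ), ‖c t‖ = 1) {d : ℝ}
    (hd : HasDerivAt (fun t => ur A lg x z (c t)) d 0) :
    √(1 + ‖PX.Sh (lg (z, y₀))‖ ^ 2) - g * √(1 + ⟪w, PX.Sh (lg (z, y₀))⟫ ^ 2) +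
      (g - 1) * ⟪w, PX.Sh (lg (z, y₀))⟫ ≤ d := by
  have g0 : 0 < g := by linarith
  have key : ∀ (ψ : ℝ → ℝ) (e : ℝ), HasDerivAt ψ e 0 → ψ 0 = ur A lg x z (c 0) →
      (∀ᶠ t in 𝓝 (0 : ℝ), ψ t ≤ ur A lg x z (c t)) → e ≤ d := fun ψ e h1 h2 h3 => by
    have k : IsLocalMin (fun t => ur A lg x z (c t) - ψ t) 0 := h3.mono fun t ht => by
      simp only [h2, sub_self]
      exact sub_nonneg.2 ht
    linarith [k.hasDerivAt_eq_zero (hd.fun_sub h1)]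
  have h1 := (dd.mem x y₀ _).1 h0
  obtain ⟨-, b2⟩ := nsh (lg (z, y₀)) w hw
  have s0 : ⟪w, PX.Sh (lg (z, y₀))⟫ ≤ √(1 + ⟪w, PX.Sh (lg (z, y₀))⟫ ^ 2) :=
    le_sqrt_of_sq_le (by linarith)
  rcases att with e | ⟨y, e⟩
  · obtain ⟨p, rfl, p0, p1, -⟩ := bh.max x z w hw
    have d1 := ((hasDerivAt_const (0 : ℝ) (A.ν p z)).inner ℝ hc).const_mul (exp (A.β p z))
    have p2 : 0 < exp (A.β p z) * ⟪A.ν p z, c 0⟫ := by rw [c0]; exact p0
    have d2 := d1.log p2.ne'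
    refine le_trans ?_ (key _ _ d2 (by rw [c0, e, p1]; rfl) ?_)
    · have h2 : exp (PX.be lg z w y₀ - log g / 2) ≤ exp (A.β p z) * ⟪A.ν p z, w⟫ := by
        refine (exp_le_exp.2 ?_).trans (exp_log p0).le
        linarith [(nr.low (A.pr p) z w y₀ hw).trans (le_max_right (uq A (A.pr p) z w) _),
          show ur A lg (A.pr p) z w = max _ _ from rfl]
      have ht : 0 < ⟪A.ν p z, w⟫ := pos_of_mul_pos_right p0 (exp_pos _).le
      obtain ⟨u, hu, e1, e2⟩ := PX.b1_pol (lg (z, y₀)) w hw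
      have h3 := (bf.isb p).lb z u ‖lg (z, y₀)‖ hu
      have h4 := bf.yw.had.ex z y₀
      rw [e1, bf.yw.jac.scale, mul_one] at h4
      rw [h4, mul_comm ⟪_, u⟫, ← real_inner_smul_right, ← e2, ← b2] at h3
      have hν := (bf.isb p).unit z
      have h5 : ⟪A.ν p z, PX.Sh (lg (z, y₀))⟫ ≤ √(1 + ‖PX.Sh (lg (z, y₀))‖ ^ 2) :=
        (real_inner_le_norm _ _).trans (by
          rw [hν, one_mul]; exact le_sqrt_of_sq_le (by linarith))
      have h6 : exp (log g / 2) * exp (log g / 2) = g := by rw [← exp_add, add_halves, exp_log g0]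
      rw [exp_sub, div_le_iff₀ (exp_pos _), PX.be, exp_arsinh] at h2
      have h7 := mul_le_mul_of_nonneg_right (h3.trans (exp_le_exp.2 (h0 p rfl)))
        (mul_nonneg ht.le (exp_pos (log g / 2)).le)
      have h8 := mul_le_mul_of_nonneg_left h2 (sub_nonneg.2 h5)
      have H : (√(1 + ‖PX.Sh (lg (z, y₀))‖ ^ 2) - ⟪A.ν p z, PX.Sh (lg (z, y₀))⟫) *
          (⟪w, PX.Sh (lg (z, y₀))⟫ + √(1 + ⟪w, PX.Sh (lg (z, y₀))⟫ ^ 2)) ≤ g * ⟪A.ν p z, w⟫ := by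
        rw [← h6]
        linarith
      obtain ⟨-, b1⟩ := DRK.CBx.sq1 ⟪w, PX.Sh (lg (z, y₀))⟫
      have h9 := mul_le_mul_of_nonneg_right H (sub_nonneg.2 s0)
      have e3 : (⟪w, PX.Sh (lg (z, y₀))⟫ + √(1 + ⟪w, PX.Sh (lg (z, y₀))⟫ ^ 2)) *
        (√(1 + ⟪w, PX.Sh (lg (z, y₀))⟫ ^ 2) - ⟪w, PX.Sh (lg (z, y₀))⟫) = 1 := by linarith
      rw [mul_assoc, e3] at h9
      have t1 : ⟪A.ν p z, w⟫ ≤ 1 := (real_inner_le_norm _ _).trans_eq (by rw [hν, hw, one_mul])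
      refine (low (X := 1) (q := ⟪A.ν p z, PX.Sh (lg (z, y₀))⟫ -
        ⟪A.ν p z, w⟫ * ⟪w, PX.Sh (lg (z, y₀))⟫) ht t1 (sqrt_nonneg _) (by linarith)).trans_eq ?_
      rw [c0, inner_zero_left, add_zero, inner_sub_right, real_inner_smul_right,
        mul_div_mul_left _ _ (exp_pos _).ne', div_eq_inv_mul, mul_comm ⟪w, _⟫]
    · filter_upwards [c1, d1.continuousAt.eventually (lt_mem_nhds p2)] with t t1 t2
      obtain ⟨p', -, -, q1, q2⟩ := bh.max (A.pr p) z (c t) t1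
      exact ((log_le_log t2 (q2 p rfl)).trans q1.ge).trans (le_max_left _ _)
  · have d1 := ((hc.inner ℝ (hasDerivAt_const (0 : ℝ) (PX.Sh (lg (z, y))))).arsinh).sub_const
      (Dm A x y)
    refine le_trans ?_ (key _ _ d1 (by rw [c0, e]; rfl) (c1.mono fun t ht =>
      (nr.low x z _ y ht).trans (le_max_right _ _)))
    have h2 := (nr.low x z w y₀ hw).trans ((le_max_right _ _).trans e.le)
    have h3 := dd.tri x y y₀
    obtain ⟨-, a2⟩ := nsh (lg (z, y)) w hw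
    have H : cosh ‖lg (y, y₀)‖ ≤ cosh (arsinh ⟪w, PX.Sh (lg (z, y))⟫ -
        arsinh ⟪w, PX.Sh (lg (z, y₀))⟫ + log g) := by
      refine cosh_le_cosh.2 ((abs_norm _).trans_le (le_trans ?_ (le_abs_self _)))
      unfold PX.be at h2
      linarith
    replace H := (hy z y y₀).trans H
    rw [← a2, ← b2, cosh_add, cosh_sub, sinh_sub, cosh_arsinh, cosh_arsinh, sinh_arsinh,
      sinh_arsinh, cosh_log g0, sinh_log g0] at H
    have h4 : |⟪w, PX.Sh (lg (z, y))⟫| ≤ ‖PX.Sh (lg (z, y))‖ :=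
      (abs_real_inner_le_norm _ _).trans_eq (by rw [hw, one_mul])
    have h5 := pow_le_pow_left₀ (abs_nonneg _) h4 2
    rw [sq_abs] at h5
    refine (low (DRK.CBx.sq1 _).1 (sqrt_le_sqrt (by linarith)) (sqrt_nonneg _)
      (fin hg (le_sqrt_of_sq_le (by linarith)) s0 (sqrt_nonneg _) H)).trans_eq ?_
    rw [c0, inner_zero_right, zero_add, inner_sub_left, real_inner_smul_left, smul_eq_mul,
      real_inner_comm (PX.Sh (lg (z, y))) (PX.Sh (lg (z, y₀))), mul_comm ⟪w, PX.Sh (lg (z, y))⟫]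

end IW2

variable [Dim]

open DN DZ

theorem inw2 : OnR fun _ lg dX _ _ A => MS → Hy lg → (∀ x z w, ‖w‖ = 1 →
    ur A lg x z w = uq A x z w ∨ ∃ y, ur A lg x z w = PX.be lg z w y - Dm A x y) →
    Lz dX (ur A lg) → ∀ g S : ℝ, 1 ≤ g → 0 ≤ S → g ^ 2 * (1 + S ^ 2 / dm) < 1 + S ^ 2 →
    (∀ x, ∃ y, y ∈ A.C (log g / 2) x) → Inw lg (ur A lg) (Rg A lg (log g / 2) S) := by
  intro m lg dX P _ A bf _ bh dd nr ms hh att lz g S hg hS h4 hy x
  have rt := ms.rot'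
  have := ms.fin
  obtain ⟨y, hy⟩ := hy x
  have dy := (dd.mem x y _).1 hy
  refine ⟨y, 2 * (log g / 2) + S, fun z ⟨y', h1, h2⟩ => ?_, fun z hz => ?_⟩
  · have a1 := (dd.mem x y' _).1 h1
    have a2 := dd.tri x y z
    have a3 := dd.ly x z y'
    have a4 := self_le_sinh_iff.2 (norm_nonneg (lg (z, y')))
    linarith
  have t1 : S < sinh ‖lg (z, y)‖ := not_le.1 fun h => hz ⟨y, hy, h⟩
  refine ⟨PX.Sh (lg (z, y)), ?_, ?_⟩
  swap
  · rw [PX.Sh, real_inner_smul_right]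
    exact mul_nonneg (div_nonneg (by linarith) (norm_nonneg _)) real_inner_self_nonneg
  rw [← (CBx.nsh (lg (z, y)) (EuclideanSpace.single 0 1) (by simp)).1] at t1
  have pt := fun w hw c => IW2.pt bf bh dd nr hh hg (z := z) (w := w) hy hw (att x z w hw) (c := c)
  generalize PX.Sh (lg (z, y)) = a at t1 pt
  obtain ⟨K, hK⟩ := lz x ‖z‖
  have lφ : LipschitzOnWith K (ur A lg x z) {w | ‖w‖ = 1} := LipschitzOnWith.of_dist_le_mul
    fun b hb c hc => by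
      have k := (hK x (by rw [bf.self]; exact zero_le_one)).dist_le_mul (z, b) ⟨le_rfl, hb⟩ (z, c)
        ⟨le_rfl, hc⟩
      rwa [dist_prod_same_left] at k
  have d3 : (3 : ℝ) ≤ dm := by simp [dm]
  obtain ⟨i1, i2⟩ := (NS.sIBP _ K 0 0 ms lφ ⟨le_rfl, by linarith, by simp, by simp, by simp,
    by simp [NS.Pw, NS.tr]⟩).2 a
  obtain ⟨l, l0, l1⟩ : ∃ l : ℝ, 0 < l ∧ l ^ 2 = 1 + ‖a‖ ^ 2 / dm :=
    ⟨√(1 + ‖a‖ ^ 2 / dm), by positivity, sq_sqrt (by positivity)⟩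
  obtain ⟨x0, x1⟩ := DRK.CBx.sq1 ‖a‖
  have l2 : g * l < √(1 + ‖a‖ ^ 2) := by
    refine lt_of_pow_lt_pow_left₀ 2 x0.le ?_
    have k1 : S ^ 2 ≤ ‖a‖ ^ 2 := pow_le_pow_left₀ hS t1.le 2
    have k2 : 1 ≤ g ^ 2 := one_le_pow₀ hg
    have k3 : 0 < (1 - g ^ 2 / dm) * S ^ 2 := by
      have : g ^ 2 * (S ^ 2 / dm) = g ^ 2 / dm * S ^ 2 := by ring
      linarith
    have k4 := mul_le_mul_of_nonneg_left k1 (pos_of_mul_pos_left k3 (sq_nonneg S)).le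
    have e1 : g ^ 2 * (S ^ 2 / dm) = g ^ 2 / dm * S ^ 2 := by ring
    have e2 : g ^ 2 * (‖a‖ ^ 2 / dm) = g ^ 2 / dm * ‖a‖ ^ 2 := by ring
    rw [mul_pow, l1, x1]
    linarith
  have j1 := rt.int (f := fun w => ⟪w, a⟫ ^ 2) (by fun_prop)
  have j2 := rt.int (f := fun w => ⟪w, a⟫) (by fun_prop)
  have j3 : ∫ w, ⟪‖w‖⁻¹ • w, a⟫ ∂mS = 0 := by
    have k := rt.comp (.neg ℝ) fun w => ⟪w, a⟫
    simp only [LinearIsometryEquiv.coe_neg, inner_neg_left, integral_neg] at k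
    linarith
  have j4 : Integrable (fun w : V => (√(1 + ‖a‖ ^ 2) - g * (l + 1 / l) / 2) -
      g / (2 * l) * ⟪‖w‖⁻¹ • w, a⟫ ^ 2) mS := (integrable_const _).sub (j1.const_mul _)
  have c := integral_mono_ae (j4.add (j2.const_mul (g - 1))) i1 (by
    filter_upwards [ms.ac.ae_le (D3LM.ae_diff (volume : Measure V) isOpen_ne
      (NS.RIBP.un_lip lφ)), rt.ne] with w hw w0
    replace hw := hw w0
    have v1 := ja_un w0
    have wn := norm_ne_zero_iff.2 w0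
    have e1 : NS.H0 0 (un w) a = a - ⟪un w, a⟫ • un w := by simp [NS.H0]
    have a0 : ⟪w, ‖w‖ • (a - ⟪un w, a⟫ • un w)⟫ = 0 := by
      have k : ⟪un w, a - ⟪un w, a⟫ • un w⟫ = 0 := by
        rw [inner_sub_right, real_inner_smul_right, real_inner_self_eq_norm_sq, v1]
        ring
      rw [un, real_inner_smul_left] at k
      rw [real_inner_smul_right, un, (mul_eq_zero.1 k).resolve_left (inv_ne_zero wn), mul_zero]
    have c1 := NS.JAN.un_der w0 a0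
    rw [smul_smul, inv_mul_cancel₀ wn, one_smul] at c1
    have h6 := ((hasDerivAt_id (0 : ℝ)).smul_const (‖w‖ • (a - ⟪un w, a⟫ • un w))).const_add w
    rw [one_smul] at h6
    have c2 : HasFDerivAt (fun v => ur A lg x z (un v)) (fderiv ℝ (fun v => ur A lg x z (un v)) w)
        (w + (0 : ℝ) • ‖w‖ • (a - ⟪un w, a⟫ • un w)) := by
      rw [zero_smul, add_zero]
      exact hw.hasFDerivAt
    have c3 := c2.comp_hasDerivAt (0 : ℝ) h6
    have k := pt (un w) v1 _ c1 (by simp) ((h6.continuousAt.eventually_ne (y := 0)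
      (by simpa using w0)).mono fun t ht => ja_un ht) c3
    obtain ⟨b0, b1⟩ := DRK.CBx.sq1 ⟪un w, a⟫
    have k1 : √(1 + ⟪un w, a⟫ ^ 2) ≤ (l + 1 / l) / 2 + 1 / (2 * l) * ⟪un w, a⟫ ^ 2 := by
      have e2 : (l + 1 / l) / 2 + 1 / (2 * l) * ⟪un w, a⟫ ^ 2 =
          (l ^ 2 + (1 + ⟪un w, a⟫ ^ 2)) / (2 * l) := by
        field_simp
        ring
      rw [e2, le_div_iff₀ (by positivity)]
      nlinarith [sq_nonneg (l - √(1 + ⟪un w, a⟫ ^ 2))]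
    have k2 := mul_le_mul_of_nonneg_left k1 (by linarith : 0 ≤ g)
    have e3 : g / (2 * l) * ⟪un w, a⟫ ^ 2 = g * (1 / (2 * l) * ⟪un w, a⟫ ^ 2) := by ring
    change _ - g / (2 * l) * ⟪un w, a⟫ ^ 2 + (g - 1) * ⟪un w, a⟫ ≤ NS.sd _ w _
    rw [e1, NS.sd]
    linarith)
  simp only [Pi.add_apply] at c
  rw [integral_add j4 (j2.const_mul _), integral_sub (integrable_const _) (j1.const_mul _),
    integral_const_mul, integral_const_mul, j3, rt.sq, integral_const, rt.mass, smul_eq_mul,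
    i2] at c
  have e4 : dm * (√(1 + ‖a‖ ^ 2) - g * (l + 1 / l) / 2) - g / (2 * l) * ‖a‖ ^ 2 =
      dm * (√(1 + ‖a‖ ^ 2) - g * l) := by
    have : ‖a‖ ^ 2 = dm * (l ^ 2 - 1) := by
      rw [l1]
      field_simp
      ring
    rw [mul_sub, mul_sub, sub_sub, this]
    field_simp
    ring
  have e5 : ⟪VV (ur A lg) x z, a⟫ = ∫ w, ur A lg x z (un w) * ⟪un w, a⟫ ∂mS := by
    rw [VV, real_inner_comm, ← integral_inner (NS.RIBP.intc ms (h := fun w => ur A lg x z w • w)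
      (lφ.continuousOn.smul continuousOn_id))]
    simp only [real_inner_smul_right, real_inner_comm a]
  rw [e5]
  have p := mul_pos (by linarith : (0 : ℝ) < dm) (sub_pos.2 l2)
  exact pos_of_mul_pos_right (a := (dm : ℝ) + 0 - 1) (by linarith) (by linarith)

end Pool.Agent.MP_3ee8cb_gt.DR
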