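import Pool.Agent.MP_3ee8cb_gt.DQ.Spec
import Pool.Agent.MP_3ee8cb_gt.PX.Spec

/-! Rigidity under a larger explicit pinching: definitions and statements of the blocks. -/

namespace Pool.Agent.MP_3ee8cb_gt.DR

open Set Filter Topology MeasureTheory Real DQ
open scoped RealInnerProductSpace

noncomputable section

/-! ### The constants -/

def SNU1 : Prop := ∀ h e C : ℝ, 0 ≤ h → 0 ≤ e → 1 ≤ C → 2 * h ^ 2 ≤ 9 / 10 * e * (1 + 2 * h) →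
  (h - 9 / 10 * e) ^ 2 ≤ 9 / 25 * e → (h * C - e) ^ 2 ≤ 4 * e * (C - 1) → Nu1 h e √C

/-- The table of constants in dimension `N`. -/
structure Tab (N h e C g₀ g S l : ℝ) : Prop where
  e0 : 0 ≤ e
  e4 : (N - 1) * e < 4
  c1 : 1 ≤ C
  a1 : 2 * h ^ 2 ≤ 9 / 10 * e * (1 + 2 * h)
  a2 : (h - 9 / 10 * e) ^ 2 ≤ 9 / 25 * e
  a3 : (h * C - e) ^ 2 ≤ 4 * e * (C - 1)
  g0 : 2 * N / (N + 1) < g₀
  g1 : g₀ < g
  s0 : 0 ≤ S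
  l0 : 0 < l
  far : log g₀ / 2 * (l + N / l) / 2 < S - S ^ 3 / (2 * (N + 2))
  cb : (g + (g - 1) ^ 2 / (2 * g)) * (√(1 + S ^ 2) + S) ≤ C

def STAB : Prop := ∀ n : ℕ, 3 ≤ n → ∃ e C g₀ g S l : ℝ, Tab n (61 / (10 * n)) e C g₀ g S l

open DN (Dim dm)

variable [Dim]

open DN DZ
open CR (Met UT)
open PX (be)

/-! ### Finite centres -/

/-- The hinge inequality on the hyperboloid. -/
def Hy (lg : V × V → V) : Prop := ∀ z y y' : V, cosh ‖lg (z, y)‖ * cosh ‖lg (z, y')‖ -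
  ⟪PX.Sh (lg (z, y)), PX.Sh (lg (z, y'))⟫ ≤ cosh ‖lg (y, y')‖

def SHY : Prop := ∀ m lg, YW m lg → Hin m lg 1 → Hy lg ∧ PX.B1 lg

def SHE : Prop := ∀ m lg (b : ℝ), YW m lg → 1 ≤ b → m.Up 1 → m.Dn (b ^ 2) → PX.HeP m lg (b - 1)

/-- The covariant derivative of `sinh d` times the direction to `y`. -/
def Hf (m : MF) (lg : V × V → V) (h : ℝ) : Prop := ∀ z y : V, ∃ E : V →L[ℝ] V,
  (∀ a b, ⟪E a, b⟫ = ⟪a, E b⟫) ∧ E (lg (z, y)) = 0 ∧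
  (∀ a, 0 ≤ ⟪E a, a⟫ ∧ ⟪E a, a⟫ ≤ h * sinh ‖lg (z, y)‖ * ‖a‖ ^ 2) ∧
  ∃ D : V →L[ℝ] V, HasFDerivAt (fun z => PX.Sh (lg (z, y))) D z ∧ ∀ u,
    D u + m.om z u (PX.Sh (lg (z, y))) = -(cosh ‖lg (z, y)‖ • m.S z u + E (m.S z u))

def SHF : Prop := ∀ m lg (h : ℝ), YW m lg → 0 ≤ h → PX.HeP m lg h → Hf m lg h

/-- The bound on the stretch, pure algebra. -/
def SCB : Prop := ∀ (a a₀ w : V) (X B g S C : ℝ), ‖w‖ = 1 → 1 ≤ g → ‖a‖ ≤ X → 0 < B →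
  ‖a₀‖ ≤ S → (g + (g - 1) ^ 2 / (2 * g)) * (√(1 + S ^ 2) + S) ≤ C →
  X * √(1 + ‖a₀‖ ^ 2) - (⟪a, a₀⟫ - ⟪w, a⟫ * ⟪w, a₀⟫) ≤
    B * (g * √(1 + ⟪w, a₀⟫ ^ 2) - (g - 1) * ⟪w, a₀⟫) → X ≤ C * B

/-- The maximum is attained on the line through the direction `w`. -/
def Qr (u : V → ℝ) (w : V) : Prop := ∀ w', ‖w'‖ = 1 → exp (u w) * ⟪w, w'⟫ ≤ exp (u w')

/-- Touching by a finite centre. -/
def STF : Prop := ∀ m lg (h ε F k : ℝ) (u : V × V → ℝ) (z w y : V), YW m lg → Hf m lg h →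
  0 ≤ h → Nu1 h (ε ^ 2) F → ‖w‖ = 1 →
  cosh ‖lg (z, y)‖ ≤ F ^ 2 * √(1 + ⟪w, PX.Sh (lg (z, y))⟫ ^ 2) → u (z, w) = be lg z w y - k →
  (∀ q : V × V, ‖q.2‖ = 1 → be lg q.1 q.2 y - k ≤ u q) →
  Tc m u ε (Qr (fun w => u (z, w)) w) (z, w)

/-- Touching by a centre at infinity. -/
def STI : Prop := ∀ m lg (h ε F : ℝ) β ν (u : V × V → ℝ) (z w : V), YW m lg → IsB m lg β ν →
  B1 m lg β ν → Hs m h ν z → 0 ≤ h → Nu1 h (ε ^ 2) F → ‖w‖ = 1 → 1 ≤ F ^ 2 * ⟪ν z, w⟫ →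
  exp (u (z, w)) = gq β ν (z, w) → (∀ q : V × V, ‖q.2‖ = 1 → gq β ν q ≤ exp (u q)) →
  Tc m u ε (Qr (fun w => u (z, w)) w) (z, w)

/-! ### The support function -/

/-- The largest function over `x`. -/
def Dm {P : Type} (A : Fam P) (x y : V) : ℝ := sSup ((fun p => A.β p y) '' {p | A.pr p = x})

/-- The supremum over finite centres. -/
def uf {P : Type} (A : Fam P) (lg : V × V → V) (x z w : V) : ℝ :=
  ⨆ y, (be lg z w y - Dm A x y)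

/-- The support function. -/
def ur {P : Type} (A : Fam P) (lg : V × V → V) (x z w : V) : ℝ :=
  max (uq A x z w) (uf A lg x z w)

/-- The neighbourhood of a sublevel set. -/
def Rg {P : Type} (A : Fam P) (lg : V × V → V) (R S : ℝ) (x : V) : Set V :=
  {z | ∃ y ∈ A.C R x, sinh ‖lg (z, y)‖ ≤ S}

structure DD (m : MF) (lg : V × V → V) (dX : V → V → ℝ) {P : Type} (A : Fam P) : Prop where
  le : ∀ p y, A.β p y ≤ Dm A (A.pr p) y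
  max : ∀ x y, ∃ p, A.pr p = x ∧ Dm A x y = A.β p y
  mem : ∀ x y R, y ∈ A.C R x ↔ Dm A x y ≤ R
  lx : ∀ x x' y, |Dm A x y - Dm A x' y| ≤ dX x x'
  ly : ∀ x y y', Dm A x y - Dm A x y' ≤ ‖lg (y, y')‖
  cont : ∀ x, Continuous (Dm A x)
  tri : ∀ x y y', ‖lg (y, y')‖ ≤ Dm A x y + Dm A x y'
  far : ∀ p z (d : ℝ), d - A.β p z ≤ Dm A (A.pr p) (m.Z d (z, A.ν p z)).1

def SDD : Prop := OnH fun m lg dX _ _ A => DD m lg dX A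

structure NR (lg : V × V → V) {P : Type} (A : Fam P) : Prop where
  low : ∀ x z w y, ‖w‖ = 1 → be lg z w y - Dm A x y ≤ uf A lg x z w
  upf : ∀ x z w y, ‖w‖ = 1 → uf A lg x z w ≤ be lg z w y + Dm A x y
  upq : ∀ x z w y, ‖w‖ = 1 → uq A x z w ≤ be lg z w y + Dm A x y

def SNR : Prop := OnH fun m lg dX _ _ A => DD m lg dX A → PX.B1 lg → NR lg A

/-- A statement about a family with all consequences. -/
def OnR (Q : ∀ (_ : MF) (_ : V × V → V) (_ : V → V → ℝ) (P : Type) [TopologicalSpace P]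
    (_ : Fam P), Prop) : Prop :=
  OnH fun m lg dX P _ A => DD m lg dX A → NR lg A → Q m lg dX P A

def SATT : Prop := OnR fun _ lg _ _ _ A => ∀ x z w, ‖w‖ = 1 → ur A lg x z w = uq A x z w ∨
  ∃ y, ur A lg x z w = be lg z w y - Dm A x y

def SCF : Prop := SCB → OnR fun _ lg _ _ _ A => Hy lg → ∀ (g S C : ℝ) x z w y, 1 ≤ g →
  (g + (g - 1) ^ 2 / (2 * g)) * (√(1 + S ^ 2) + S) ≤ C → z ∈ Rg A lg (log g / 2) S x →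
  ‖w‖ = 1 → ur A lg x z w = be lg z w y - Dm A x y →
  cosh ‖lg (z, y)‖ ≤ C * √(1 + ⟪w, PX.Sh (lg (z, y))⟫ ^ 2)

def SCI : Prop := SCB → OnR fun _ lg _ _ _ A => ∀ (g S C : ℝ) p z w, 1 ≤ g →
  (g + (g - 1) ^ 2 / (2 * g)) * (√(1 + S ^ 2) + S) ≤ C →
  z ∈ Rg A lg (log g / 2) S (A.pr p) → ‖w‖ = 1 →
  exp (ur A lg (A.pr p) z w) = gq (A.β p) (A.ν p) (z, w) → 1 ≤ C * ⟪A.ν p z, w⟫

def SLX : Prop := OnR fun _ lg dX _ _ A =>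
  ∀ x x' z w, ‖w‖ = 1 → |uf A lg x z w - uf A lg x' z w| ≤ dX x x'

def SLZ : Prop := OnR fun m lg dX _ _ A => ∀ h, 0 ≤ h → Hf m lg h → Lz dX (uf A lg)

def SREG : Prop := OnH fun m lg _ _ _ A => ∀ R S x (z : V × V), z.1 ∈ Rg A lg R S x →
  (m.Z 1 z).1 ∈ Rg A lg R S x → ∀ t ∈ Icc (0 : ℝ) 1, (m.Z t z).1 ∈ Rg A lg R S x

/-! ### The centre and the inward direction -/

def SHEL : Prop := ∀ (A : Set V) (η : ℝ), 0 ≤ η → (∀ a ∈ A, ‖a‖ = 1) →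
  (∀ a ∈ A, ∀ b ∈ A, 1 - ⟪a, b⟫ ≤ η) →
  ∃ v : V, ‖v‖ ≤ 1 ∧ ∀ a ∈ A, 1 - dm * η / (dm + 1) ≤ ⟪a, v⟫

def SJU : Prop := SHEL → OnH fun m lg dX _ _ A => DD m lg dX A → ∀ g : ℝ,
  2 * dm / (dm + 1) < g → ∀ x, ∃ y, y ∈ A.C (log g / 2) x

def SM4 : Prop := MS → ∀ e : V, ‖e‖ = 1 → ∫ w, ⟪un w, e⟫ ^ 4 ∂mS = 3 / (dm + 2)

/-- The integral inequality behind the inward direction. -/
def Nu4 (r S : ℝ) : Prop := ∀ (e : V) (T : ℝ), ‖e‖ = 1 → S ≤ T →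
  0 < ∫ w, (arsinh (T * ⟪un w, e⟫) * ⟪un w, e⟫ - r * |⟪un w, e⟫|) ∂mS

def S24 : Prop := SM4 → MS → ∀ r S l : ℝ, 0 ≤ r → 0 ≤ S → 0 < l →
  r * (l + dm / l) / 2 < S - S ^ 3 / (2 * (dm + 2)) → Nu4 r S

/-- The support function is continuous. -/
def Cu (u : V → V → V → ℝ) : Prop :=
  ∀ x, ContinuousOn (fun q : V × V => u x q.1 q.2) {q | ‖q.2‖ = 1}

def SINW : Prop := OnR fun _ lg _ _ _ A => MS → Cu (ur A lg) → ∀ r S : ℝ, 0 ≤ S → Nu4 r S →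
  (∀ x, ∃ y, y ∈ A.C r x) → Inw lg (ur A lg) (Rg A lg r S)

/-! ### The zero of the averaged field and its Jacobian -/

/-- A statement about a support function. -/
def OnU (R : MF → MF → (V × V → V) → (V → V → ℝ) → ℝ → (V → V → V → ℝ) → (V → Set V) →
    (V → Set V) → (V → V → V → Prop) → Prop) : Prop :=
  ∀ m₀ m lg dX (ε : ℝ) u C C₀ Q, MS → XW m₀ dX → YW m lg → (dm - 1) * ε ^ 2 < 4 →
    Sq m lg dX ε u C C₀ Q → R m₀ m lg dX ε u C C₀ Q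

def SZERO : Prop := OnU fun _ _ lg dX _ u C C₀ _ => ∃ f, Zq lg dX u C C₀ f

def SFL : Prop := OnU fun _ _ lg dX _ u C C₀ _ => ∀ f, Zq lg dX u C C₀ f → LocallyLipschitz f

def SJA : Prop := OnU fun m₀ m lg dX ε u C C₀ Q => ∀ f, Zq lg dX u C C₀ f →
  LocallyLipschitz f → ∀ᵐ x, DifferentiableAt ℝ f x ∧ Fo ε (LL m₀ m f x) (Q x (f x))

def SJB : Prop := ∀ (ε : ℝ) (L : V →L[ℝ] V) (Q : V → Prop), MS → (dm - 1) * ε ^ 2 < 4 →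
  Fo ε L Q → |L.det| ≤ 1 ∧ (1 ≤ |L.det| → ∀ᵐ w ∂mS, Q (un w))

def SEND1 : Prop := OnR fun _ lg _ _ _ A => MS → Cu (ur A lg) → ∀ x z,
  (∀ᵐ w ∂mS, Qr (ur A lg x z) (un w)) → ∀ p, A.pr p = x → A.ft p = z

def SEQV : Prop := On2 fun g h _ C' Γ Λ _ _ _ _ _ Ψ ρ F => ∀ m lg ν O R R₀ S f, MS →
  NB h C' Ψ m lg ν → Act m Λ O → R₀ ≤ R →
  Zq lg (CR.dd g) (ur (fam Ψ F ν) lg) (Rg (fam Ψ F ν) lg R S) (Rg (fam Ψ F ν) lg R₀ S) f →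
    ∀ (γ : Γ) x, f (γ • x) = ρ γ • f x

end

end Pool.Agent.MP_3ee8cb_gt.DR
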