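import Pool.Agent.MP_3ee8cb_gt.DR.Spec
import Pool.Agent.MP_3ee8cb_gt.DQ.All
import Pool.Agent.MP_3ee8cb_gt.DND0.Fin

/-! Rigidity under the larger pinching from the blocks. -/

namespace Pool.Agent.MP_3ee8cb_gt.DR

open DN (Dim dm)

variable [Dim]

open Set Filter Topology MeasureTheory Real DN DZ DQ
open CR (Met UT dd ng)
open scoped RealInnerProductSpace

theorem cu_of {dX : V → V → ℝ} {u : V → V → V → ℝ} (h0 : ∀ x, dX x x = 0) (h : Lz dX u) :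
    Cu u := fun x q hq => by
  obtain ⟨K, hK⟩ := h x (‖q.1‖ + 1)
  refine ((hK x (by simp [h0])).continuousOn q ⟨by linarith, hq⟩).mono_of_mem_nhdsWithin ?_
  exact inter_mem (nhdsWithin_le_nhds (continuous_fst.norm.continuousAt.eventually
    (Iic_mem_nhds (lt_add_one _)))) self_mem_nhdsWithin

theorem lz_max {dX : V → V → ℝ} {u v : V → V → V → ℝ} (h : Lz dX u) (h' : Lz dX v) :
    Lz dX fun x z w => max (u x z w) (v x z w) := fun x₀ R => by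
  obtain ⟨K, hK⟩ := h x₀ R
  obtain ⟨K', hK'⟩ := h' x₀ R
  refine ⟨max K K', fun x hx => LipschitzOnWith.of_dist_le_mul fun p hp q hq => ?_⟩
  have a := (hK x hx).dist_le_mul p hp q hq
  have b := (hK' x hx).dist_le_mul p hp q hq
  rw [Real.dist_eq] at a b ⊢
  refine (abs_max_sub_max_le_max _ _ _ _).trans (max_le (a.trans ?_) (b.trans ?_))
  · exact mul_le_mul_of_nonneg_right (NNReal.coe_le_coe.2 (le_max_left _ _)) dist_nonneg
  · exact mul_le_mul_of_nonneg_right (NNReal.coe_le_coe.2 (le_max_right _ _)) dist_nonneg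

/-- The support function of a family has all properties. -/
theorem sq_of (nu1 : SNU1) (cb : SCB) (tf : STF) (ti : STI) (att : SATT) (cf : SCF) (ci : SCI)
    (lx : SLX) (lz : SLZ) (reg : SREG) (hel : SHEL) (ju : SJU) (m4 : SM4) (s24 : S24)
    (inw : SINW) {k e C g₀ g S l : ℝ} (k0 : 0 ≤ k) (T : Tab dm k e C g₀ g S l)
    {m : MF} {lg : V × V → V} {dX : V → V → ℝ} {P : Type} [TopologicalSpace P] {A : Fam P}
    (B : BF m lg dX A) (G : BG lg A) (H : BH A) (D : DD m lg dX A) (N : NR lg A) (hy : Hy lg)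
    (hf : Hf m lg k) (HS : ∀ p z, Hs m k (A.ν p) z) :
    Sq m lg dX √e (ur A lg) (Rg A lg (log g / 2) S) (Rg A lg (log g₀ / 2) S)
      fun x z => Qr (ur A lg x z) := by
  have ee : √e ^ 2 = e := sq_sqrt T.e0
  have cc : √C ^ 2 = C := sq_sqrt (by linarith [T.c1])
  have d3 : (3 : ℝ) ≤ dm := by exact_mod_cast Nat.le_add_left 3 _
  have g1 : 1 ≤ g₀ := by
    refine le_trans ?_ T.g0.le
    rw [le_div_iff₀ (by linarith)]
    linarith
  have g2 : 1 ≤ g := g1.trans T.g1.le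
  have ll : log g₀ < log g := log_lt_log (by linarith) T.g1
  have n1 : Nu1 k (√e ^ 2) √C := ee.symm ▸ nu1 k e C k0 T.e0 T.c1 T.a1 T.a2 T.a3
  obtain ⟨x1, -, x3⟩ := DQ.sLX m lg _ _ _ B G H
  have L : Lz dX (ur A lg) :=
    lz_max (DQ.sLZ m lg _ _ _ B G H k k0 HS) (lz m lg _ _ _ B G H D N k k0 hf)
  refine ⟨fun x x' z w hw => (abs_max_sub_max_le_max _ _ _ _).trans
    (max_le (x1 x x' z w hw) (lx m lg _ _ _ B G H D N x x' z w hw)), L, fun x z w hz hw => ?_,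
    reg m lg _ _ _ B G H _ _, ⟨log g / 2 - log g₀ / 2, by linarith, fun x x' h z ⟨y, a, b⟩ =>
      ⟨y, x3 _ _ x x' h a, b⟩⟩,
    inw m lg _ _ _ B G H D N sMS (cu_of B.self L) _ S T.s0
      (s24 m4 sMS _ S l (by linarith [log_nonneg g1]) T.s0 T.l0 T.far)
      (ju hel m lg _ _ _ B G H D g₀ T.g0)⟩
  rcases att m lg _ _ _ B G H D N x z w hw with a | ⟨y, a⟩
  · obtain ⟨p, rfl, p1, p2, -⟩ := H.max x z w hw
    have b : exp (ur A lg (A.pr p) z w) = gq (A.β p) (A.ν p) (z, w) := by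
      rw [a, p2, exp_log p1]
    refine ti m lg k _ √C _ _ (fun q => ur A lg (A.pr p) q.1 q.2) z w B.yw (B.isb p) (B.b1 p)
      (HS p z) k0 n1 hw (cc.symm ▸ ci cb m lg _ _ _ B G H D N g S C p z w g2 T.cb hz hw b) b
      fun q hq => ?_
    obtain ⟨p', -, q1, q2, q3⟩ := H.max (A.pr p) q.1 q.2 hq
    refine (q3 p rfl).trans ?_
    rw [← exp_log q1, ← q2]
    exact exp_le_exp.2 (le_max_left _ _)
  · exact tf m lg k _ √C _ (fun q => ur A lg x q.1 q.2) z w y B.yw hf k0 n1 hw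
      (cc.symm ▸ cf cb m lg _ _ _ B G H D N hy g S C x z w y g2 T.cb hz hw a) a
      fun q hq => (N.low x q.1 q.2 y hq).trans (le_max_right _ _)

theorem main_of (nu1 : SNU1) (shy : SHY) (she : SHE) (shf : SHF) (cb : SCB) (tf : STF) (ti : STI)
    (sdd : SDD) (snr : SNR) (att : SATT) (cf : SCF) (ci : SCI) (lx : SLX) (lz : SLZ) (reg : SREG)
    (hel : SHEL) (ju : SJU) (m4 : SM4) (s24 : S24) (inw : SINW) (zero : SZERO) (fl : SFL)
    (ja : SJA) (jb : SJB) (end1 : SEND1) (eqv : SEQV) {k e c g₀ g₁ S l₁ : ℝ} (k0 : 0 ≤ k)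
    (T : Tab dm k e c g₀ g₁ S l₁) : SLN.MainZ ((1 + k) ^ 2 - 1) := by
  have ee : √e ^ 2 = e := sq_sqrt T.e0
  have d3 : (3 : ℝ) ≤ dm := by exact_mod_cast Nat.le_add_left 3 _
  have g1 : 0 < g₀ := lt_trans (by positivity) T.g0
  have ll : log g₀ / 2 ≤ log g₁ / 2 := by linarith [log_lt_log g1 T.g1]
  intro g h C C' Γ Λ _ _ _ _ Φ Ψ ρ G₀ qg qh cg ch dΓ dΛ cj₀ kh
  have kh' : TB.CurvLe h 1 := ⟨C', ch, fun x u v => by simpa using (kh x u v).2⟩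
  obtain ⟨m₀, o₀, l₀⟩ := sFRM g C Γ Φ qg cg
  obtain ⟨m, o, l⟩ := sFRM h C' Λ Ψ qh ch
  have j := sJAC m o
  obtain ⟨O, aO⟩ := sACT h C' Λ Ψ qh ch m o l dΛ
  obtain ⟨lg, hl, hd⟩ := DNFL.had h C' Λ Ψ qh ch m 1 o j l one_pos kh'
  obtain ⟨-, s, F, -, cj, fp⟩ :=
    DNFL.flp g h C C' Γ Λ Φ Ψ ρ G₀ qg qh cg ch dΓ dΛ cj₀ 1 one_pos kh'
  have cs : ∀ u v : V, 0 ≤ ‖u‖ ^ 2 * ‖v‖ ^ 2 - ⟪u, v⟫ ^ 2 := fun u v => by
    have := real_inner_mul_inner_self_le u v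
    rw [real_inner_self_eq_norm_sq, real_inner_self_eq_norm_sq] at this
    nlinarith
  have u1 : m.Up 1 := fun y u v => by
    have := (kh y (m.R y u) (m.R y v)).2
    rw [(l.sec o y u v).1, ← (l.sec o y u v).2]
    linarith
  have d1 : m.Dn ((1 + k) ^ 2) := fun y u v => by
    have := (kh y (m.R y u) (m.R y v)).1
    rw [(l.sec o y u v).1, ← (l.sec o y u v).2]
    linarith
  have u0 : m.Up 0 := fun y u v =>
    le_trans (mul_le_mul_of_nonneg_right zero_le_one (cs u v)) (u1 y u v)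
  have yw : YW m lg := ⟨o, j, hl, u0⟩
  have as := sASY h C' Λ Ψ qh ch kh'
  obtain ⟨ν, hν⟩ := sEXA h C' Λ Ψ qh ch m lg kh' as yw l hd
  have nb : NB h C' Ψ m lg ν := ⟨kh', yw, l, hd, as, sBC h C' Λ Ψ qh ch kh', fun w => (hν w).1,
    fun w => sB1 m lg _ _ yw (hν w).1, fun w => (hν w).2⟩
  have B := sBF sMOV sLIP sGR g h C C' Γ Λ Φ Ψ ρ F qg qh cg ch dΓ dΛ cj m lg ν nb fp
  have G := sBG m lg _ _ _ B
  have H := DQ.sBH m lg _ _ _ B G
  have X := xw g C Γ Φ qg cg m₀ o₀ l₀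
  have b1 : (1 : ℝ) ≤ 1 + k := by linarith
  have HS : ∀ p z, Hs m k ((fam Ψ F ν).ν p) z := fun p z => by
    have := DQ.sHES m lg (1 + k) _ _ yw b1 (B.isb p)
      (DQ.sHD m lg _ yw b1 (DQ.sJ2 m _ o j b1 u1 d1))
      (DQ.sAP m lg _ _ yw (DQ.sTH m lg yw) (B.isb p) (B.b1 p)) z
    rwa [add_sub_cancel_left] at this
  obtain ⟨hy, hb⟩ := shy m lg yw (sHN h C' Λ Ψ qh ch m lg 1 o l one_pos kh' hd)
  have hf : Hf m lg k := shf m lg k yw k0 (by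
    have := she m lg (1 + k) yw b1 u1 d1
    rwa [add_sub_cancel_left] at this)
  have D := sdd m lg _ _ _ B G H
  have N := snr m lg _ _ _ B G H D hb
  have S' := sq_of nu1 cb tf ti att cf ci lx lz reg hel ju m4 s24 inw k0 T B G H D N hy hf HS
  have ε4 : ((dm : ℝ) - 1) * √e ^ 2 < 4 := ee.symm ▸ T.e4
  obtain ⟨f, Z⟩ := zero m₀ m lg _ _ _ _ _ _ sMS X yw ε4 S'
  have L := fl m₀ m lg _ _ _ _ _ _ sMS X yw ε4 S' f Z
  have J := ja m₀ m lg _ _ _ _ _ _ sMS X yw ε4 S' f Z L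
  have E := eqv g h C C' Γ Λ Φ Ψ ρ F qg qh cg ch dΓ dΛ cj m lg ν O _ _ _ f sMS nb aO ll Z
  have Su := sONTO g h C C' Γ Λ Φ Ψ ρ F qg qh cg ch dΓ dΛ cj m lg ν f
    (log g₀ / 2 + 1 + arsinh S) nb L.continuous fun p => by
      obtain ⟨y, a, b⟩ := Z.mem p.1.1
      have a1 := G.near p y _ a
      have a2 : ‖lg (f p.1.1, y)‖ ≤ arsinh S := by
        rw [← arsinh_sinh ‖lg (f p.1.1, y)‖]
        exact arsinh_le_arsinh.2 b
      have a3 : ‖lg (y, f p.1.1)‖ = ‖lg (f p.1.1, y)‖ := by rw [hl.rev, norm_neg, j.norm]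
      exact (hl.tri _ y _).trans (add_le_add a1 (a3 ▸ a2))
  have J' := J.mono fun x hx => jb _ _ _ sMS ε4 hx.2
  have W := sVOL RVOL.veq RVOL.area g h C C' Γ Λ Φ Ψ ρ F qg qh cg ch dΓ dΛ cj m₀ m f kh' o₀ o l₀ l
    L Su E (J'.mono fun x hx => hx.1)
  refine sEND2 g h C C' Γ Λ Φ Ψ ρ F qg qh cg ch dΓ dΛ cj m₀ m lg ν f o₀ (sJAC m₀ o₀) l₀ nb
    L.continuous ?_
  filter_upwards [J, J', W] with x h1 h2 h3
  exact ⟨h1.1, end1 m lg _ _ _ B G H D N sMS (cu_of B.self S'.lipz) x (f x) (h2.2 h3)⟩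

end Pool.Agent.MP_3ee8cb_gt.DR
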